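import Pool.Agent.H67.Tame.Abs4

/-! Sequences which are weakly tame up to finitely many points: the analogue of `near_wt`, `fp1`, `push`. -/

set_option autoImplicit false

namespace Pool.Agent.H47.TA

open Set Filter Topology H67.Tame

variable {X : Type*} [MetricSpace X] [ProperSpace X]

/-- Weak tameness up to finitely many points. -/
def AWT (G : Subgroup (X ≃ₜ X)) (x : ℕ → X) : Prop :=
  ∀ L : ℕ → Set X, (∀ n, IsCompact (L n)) → ∃ g ∈ G, ∃ N : ℕ, ∀ n ≥ N, g (x n) ∉ L n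

theorem AWT.disc {G : Subgroup (X ≃ₜ X)} {x : ℕ → X} (hx : AWT G x) {K : Set X} (hK : IsCompact K) :
    {n | x n ∈ K}.Finite := by
  obtain ⟨g, -, N, hg⟩ := hx (fun n => Metric.closedBall (x 0) n) (fun n => isCompact_closedBall _ _)
  obtain ⟨R, hR⟩ := (hK.image g.continuous).isBounded.subset_closedBall (x 0)
  refine (Set.finite_lt_nat (max N (⌈R⌉₊ + 1))).subset fun n hn => ?_
  by_contra hlt
  simp only [mem_setOf_eq, not_lt] at hlt hn
  apply hg n ((le_max_left _ _).trans hlt)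
  have h1 : g (x n) ∈ Metric.closedBall (x 0) R := hR ⟨x n, hn, rfl⟩
  have h3 := (le_max_right N (⌈R⌉₊ + 1)).trans hlt
  have h2 : R ≤ n := (Nat.le_ceil R).trans (by exact_mod_cast (by omega : ⌈R⌉₊ ≤ n))
  exact Metric.closedBall_subset_closedBall h2 h1

theorem AWT.mul {G : Subgroup (X ≃ₜ X)} {x : ℕ → X} (hx : AWT G x) {a : X ≃ₜ X} (ha : a ∈ G) :
    AWT G (fun n => a (x n)) := by
  intro L hL
  obtain ⟨g, hg, N, h⟩ := hx L hL
  refine ⟨g * a⁻¹, G.mul_mem hg (G.inv_mem ha), N, fun n hn => ?_⟩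
  simpa [Homeomorph.mul_apply, Homeomorph.inv_apply] using h n hn

/-- Subsequences. -/
theorem AWT.comp {G : Subgroup (X ≃ₜ X)} {x : ℕ → X} (hx : AWT G x) {σ : ℕ → ℕ}
    (hσ : Function.Injective σ) : AWT G (fun n => x (σ n)) := by
  classical
  intro L hL
  obtain ⟨g, hg, N, h⟩ := hx (fun m => if h : ∃ n, σ n = m then L h.choose else ∅) (by
    intro m
    by_cases h : ∃ n, σ n = m
    · simp only [dif_pos h]
      exact hL _
    · simp only [dif_neg h]
      exact isCompact_empty)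
  have hfin : {n | σ n < N}.Finite := (Set.finite_lt_nat N).preimage hσ.injOn
  obtain ⟨M, hM⟩ := hfin.bddAbove
  refine ⟨g, hg, M + 1, fun n hn => ?_⟩
  have h1 : N ≤ σ n := by
    by_contra h2
    have := hM (show n ∈ {n | σ n < N} from not_le.1 h2)
    omega
  have h2 := h (σ n) h1
  have h3 : ∃ k, σ k = σ n := ⟨n, rfl⟩
  have h4 : h3.choose = n := hσ h3.choose_spec
  simp only [dif_pos h3, h4] at h2
  exact h2

/-- Key lemma: weak tameness up to finitely many points is realised by automorphisms close to the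
identity on a given compact set, up to finitely many points (their number does not depend on the
target). -/
theorem near_awt {G : Subgroup (X ≃ₜ X)} {x : ℕ → X} (hx : AWT G x) {K : Set X}
    (hK : IsCompact K) {ε : ℝ} (hε : 0 < ε) :
    ∃ N : ℕ, ∀ M, IsCompact M → ∃ v ∈ G, Near K ε v ∧ ∀ i ≥ N, v (x i) ∉ M := by
  classical
  by_contra hcon
  push Not at hcon
  choose M hM hbad using hcon
  obtain ⟨g, hgG, hg⟩ := cover G hK hε
  let L : ℕ → Set X := fun i => ⋃ j ∈ Finset.range (i + 1), ⋃ n ∈ Finset.range (i + 1), g j '' M n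
  have hL : ∀ i, IsCompact (L i) := fun i =>
    (Finset.range (i + 1)).isCompact_biUnion fun j _ =>
      (Finset.range (i + 1)).isCompact_biUnion fun n _ => (hM n).image (g j).continuous
  obtain ⟨Φ, hΦ, i0, hΦL⟩ := hx L hL
  obtain ⟨j, hj⟩ := hg Φ hΦ
  obtain ⟨i, hij, hi⟩ := hbad (max j i0) ((g j)⁻¹ * Φ) (G.mul_mem (G.inv_mem (hgG j)) hΦ) hj
  have hij1 : j ≤ i := (le_max_left _ _).trans hij
  have hij2 : i0 ≤ i := (le_max_right _ _).trans hij
  apply hΦL i hij2
  simp only [L, mem_iUnion, Finset.mem_range]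
  refine ⟨j, by omega, max j i0, by omega, ((g j)⁻¹ * Φ) (x i), hi, ?_⟩
  simp [Homeomorph.mul_apply, Homeomorph.inv_apply]

/-- Finitely many points outside `K` can be moved out of `M`, `K` being nearly fixed. -/
theorem fp1 {G : Subgroup (X ≃ₜ X)} {𝒦 : Set (Set X)} (hT : Trans G 𝒦) {x : ℕ → X}
    (hx : AWT G x) (hinj : Function.Injective x) {K : Set X} (hK : K ∈ 𝒦) {ε : ℝ} (hε : 0 < ε)
    {M : Set X} (hM : IsCompact M) (P : Finset X) (hP : ∀ p ∈ P, p ∉ K) :
    ∃ e ∈ G, Near K ε e ∧ ∀ p ∈ P, e p ∉ M := by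
  classical
  have hKM : IsCompact (K ∪ M) := (hT.compact K hK).union hM
  obtain ⟨m, hm⟩ := (hx.disc hKM).bddAbove
  have hout : ∀ n, m < n → x n ∉ K ∪ M := by
    intro n hn hmem
    exact absurd (hm hmem) (not_le.2 hn)
  let φ := P.equivFin
  let a : ℕ → X := fun j => if h : j < P.card then (φ.symm ⟨j, h⟩ : X) else x 0
  let b : ℕ → X := fun j => x (m + 1 + j)
  have ha : ∀ j (h : j < P.card), a j = (φ.symm ⟨j, h⟩ : X) := fun j h => by simp [a, h]
  obtain ⟨e, he, hnear, hmap⟩ := hT.fp K hK ε hε (Finset.range P.card) a b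
    (by
      intro j hj j' hj' hjj
      simp only [Finset.coe_range, mem_Iio] at hj hj'
      rw [ha j hj, ha j' hj'] at hjj
      have := φ.symm.injective (Subtype.ext hjj)
      simpa using this)
    (by
      intro j _ j' _ hjj
      have := hinj hjj
      omega)
    (by
      intro j hj
      rw [Finset.mem_range] at hj
      refine ⟨?_, fun h => hout _ (by omega) (Or.inl h)⟩
      rw [ha j hj]
      exact hP _ (φ.symm ⟨j, hj⟩).2)
  refine ⟨e, he, hnear, fun p hp => ?_⟩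
  have h1 := hmap (φ ⟨p, hp⟩) (Finset.mem_range.2 (φ ⟨p, hp⟩).2)
  rw [ha _ (φ ⟨p, hp⟩).2] at h1
  have h2 : (φ.symm ⟨(φ ⟨p, hp⟩ : ℕ), (φ ⟨p, hp⟩).2⟩ : X) = p := by
    have : (⟨(φ ⟨p, hp⟩ : ℕ), (φ ⟨p, hp⟩).2⟩ : Fin P.card) = φ ⟨p, hp⟩ := rfl
    rw [this, Equiv.symm_apply_apply]
  rw [h2] at h1
  rw [h1]
  exact fun h => hout _ (by omega) (Or.inr h)

/-- Pushing all unmatched points of a weakly tame sequence out of a compact set `M`, while `K`
is nearly fixed. -/
theorem push {G : Subgroup (X ≃ₜ X)} {𝒦 : Set (Set X)} (hT : Trans G 𝒦) {x : ℕ → X}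
    (hx : AWT G x) (hinj : Function.Injective x) {K : Set X} (hK : K ∈ 𝒦) (I : Finset ℕ)
    (hI : ∀ i ∉ I, x i ∉ K) {M : Set X} (hM : IsCompact M) {ε : ℝ} (hε : 0 < ε) :
    ∃ v ∈ G, Near K ε v ∧ ∀ i ∉ I, v (x i) ∉ M := by
  classical
  set D : Set X := x '' {i | i ∉ I} with hD
  have hDc : IsClosed D := isClosed_tail (fun K hK => hx.disc hK) _
  have hKD : K ⊆ Dᶜ := by
    rintro y hy ⟨i, hi, rfl⟩
    exact hI i hi hy
  obtain ⟨K0, hK0, hK01, hK0D⟩ := hT.nhd K hK _ hDc.isOpen_compl hKD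
  obtain ⟨K1, hK1, hK11, hK1D⟩ := hT.nhd K0 hK0 _ hDc.isOpen_compl hK0D
  obtain ⟨K2, hK2, hK21, hK2D⟩ := hT.nhd K1 hK1 _ hDc.isOpen_compl hK1D
  obtain ⟨r1, hr1, h1⟩ := exists_r (hT.compact K hK) isOpen_interior hK01
  obtain ⟨r2, hr2, h2⟩ := exists_r (hT.compact K1 hK1) isOpen_interior hK21
  set ε1 := min (ε / 2) (min r1 r2) with hε1
  have hε1p : 0 < ε1 := lt_min (half_pos hε) (lt_min hr1 hr2)
  have hε1a : ε1 ≤ ε / 2 := min_le_left _ _
  have hε1b : ε1 ≤ r1 := (min_le_right _ _).trans (min_le_left _ _)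
  have hε1c : ε1 ≤ r2 := (min_le_right _ _).trans (min_le_right _ _)
  obtain ⟨N, hN⟩ := near_awt hx (hT.compact K2 hK2) hε1p
  choose v hvG hvnear hvout using fun k : ℕ => hN (Metric.closedBall (x 0) k)
    (isCompact_closedBall _ _)
  let 𝒰 : Ultrafilter ℕ := Filter.hyperfilter ℕ
  have h𝒰 : (𝒰 : Filter ℕ) ≤ atTop := by
    rw [← Nat.cofinite_eq_atTop]; exact Filter.hyperfilter_le_cofinite
  have hdich : ∀ i, (∃ p, Tendsto (fun k => v k (x i)) 𝒰 (𝓝 p)) ∨
      ∀ C, IsCompact C → ∀ᶠ k in 𝒰, v k (x i) ∉ C := by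
    intro i
    by_cases h : ∃ C, IsCompact C ∧ ∀ᶠ k in (𝒰 : Filter ℕ), v k (x i) ∈ C
    · left
      obtain ⟨C, hC, hev⟩ := h
      obtain ⟨p, -, hp⟩ := hC.ultrafilter_le_nhds (𝒰.map fun k => v k (x i)) (by
        rw [le_principal_iff]; exact hev)
      exact ⟨p, hp⟩
    · right
      push Not at h
      intro C hC
      exact h C hC
  -- limits
  let P : ℕ → Prop := fun i => ∃ p, Tendsto (fun k => v k (x i)) 𝒰 (𝓝 p)
  let p : ℕ → X := fun i => if h : P i then h.choose else x 0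
  have hp : ∀ i, P i → Tendsto (fun k => v k (x i)) 𝒰 (𝓝 (p i)) := by
    intro i hi
    have : p i = hi.choose := by simp [p, hi]
    rw [this]; exact hi.choose_spec
  have hout1 : ∀ i ∉ I, ∀ k, v k (x i) ∉ K1 := by
    intro i hi k hmem
    have h3 := (hvnear k _ (interior_subset (hK21 hmem))).2
    rw [Homeomorph.symm_apply_apply] at h3
    have h4 : x i ∈ interior K2 := h2 _ hmem _ (h3.trans_le hε1c)
    exact hK2D (interior_subset h4) ⟨i, hi, rfl⟩
  have hpK0 : ∀ i ∉ I, P i → p i ∉ K0 := by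
    intro i hi hPi hmem
    have h3 : ∀ᶠ k in (𝒰 : Filter ℕ), v k (x i) ∈ interior K1 :=
      (hp i hPi).eventually (isOpen_interior.mem_nhds (hK11 hmem))
    obtain ⟨k, hk⟩ := h3.exists
    exact hout1 i hi k (interior_subset hk)
  let F : Finset ℕ := (Finset.range N).filter fun i => i ∉ I ∧ P i
  obtain ⟨e, heG, henear, heout⟩ := fp1 hT hx hinj hK0 hε1p hM (F.image p) (by
    intro q hq
    obtain ⟨i, hi, rfl⟩ := Finset.mem_image.1 hq
    rw [Finset.mem_filter] at hi
    exact hpK0 i hi.2.1 hi.2.2)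
  have heM : IsCompact (e.symm '' M) := hM.image e.symm.continuous
  have hev1 : ∀ i ∈ F, ∀ᶠ k in (𝒰 : Filter ℕ), e (v k (x i)) ∉ M := by
    intro i hi
    have hi' := (Finset.mem_filter.1 hi).2
    have h3 := (e.continuous.tendsto (p i)).comp (hp i hi'.2)
    have h4 := h3.eventually (hM.isClosed.isOpen_compl.mem_nhds
      (heout (p i) (Finset.mem_image_of_mem _ hi)))
    exact h4
  have hev2 : ∀ i ∈ (Finset.range N).filter (fun i => i ∉ I ∧ ¬ P i),
      ∀ᶠ k in (𝒰 : Filter ℕ), e (v k (x i)) ∉ M := by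
    intro i hi
    have hi' := (Finset.mem_filter.1 hi).2
    have h3 := ((hdich i).resolve_left hi'.2) _ heM
    filter_upwards [h3] with k hk hmem
    exact hk ⟨_, hmem, by simp⟩
  obtain ⟨R, hR⟩ := heM.isBounded.subset_closedBall (x 0)
  have hev3 : ∀ᶠ k : ℕ in (𝒰 : Filter ℕ), e.symm '' M ⊆ Metric.closedBall (x 0) (k : ℝ) := by
    apply h𝒰
    filter_upwards [eventually_ge_atTop ⌈R⌉₊] with k hk
    refine hR.trans (Metric.closedBall_subset_closedBall ((Nat.le_ceil R).trans ?_))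
    exact_mod_cast hk
  have hall := (((Finset.eventually_all F).2 hev1).and
    ((Finset.eventually_all _).2 hev2)).and hev3
  obtain ⟨k, ⟨hk1, hk2⟩, hk3⟩ := hall.exists
  refine ⟨e * v k, G.mul_mem heG (hvG k), ?_, ?_⟩
  · intro y hy
    have hy0 : y ∈ K0 := interior_subset (hK01 hy)
    have hy2 : y ∈ K2 := interior_subset (hK21 (interior_subset (hK11 hy0)))
    constructor
    · have h3 := (hvnear k y hy2).1
      have h4 : v k y ∈ K0 := interior_subset (h1 y hy _ (h3.trans_le hε1b))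
      have h5 := (henear _ h4).1
      calc dist ((e * v k) y) y ≤ dist (e (v k y)) (v k y) + dist (v k y) y := dist_triangle _ _ _
        _ < ε := by linarith
    · have h3 := (henear y hy0).2
      have h4 : e.symm y ∈ K0 := interior_subset (h1 y hy _ (h3.trans_le hε1b))
      have h4' : e.symm y ∈ K2 := interior_subset (hK21 (interior_subset (hK11 h4)))
      have h5 := (hvnear k _ h4').2
      have e1 : (e * v k).symm y = (v k).symm (e.symm y) := rfl
      rw [e1]
      calc dist ((v k).symm (e.symm y)) y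
          ≤ dist ((v k).symm (e.symm y)) (e.symm y) + dist (e.symm y) y := dist_triangle _ _ _
        _ < ε := by linarith
  · intro i hi
    rw [Homeomorph.mul_apply]
    by_cases hiN : i < N
    · by_cases hPi : P i
      · exact hk1 i (Finset.mem_filter.2 ⟨Finset.mem_range.2 hiN, hi, hPi⟩)
      · exact hk2 i (Finset.mem_filter.2 ⟨Finset.mem_range.2 hiN, hi, hPi⟩)
    · intro hmem
      apply hvout k i (not_lt.1 hiN)
      exact hk3 ⟨_, hmem, by simp⟩


end Pool.Agent.H47.TA
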