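import Pool.Agent.H47.TA.AW2

/-! Any two injective sequences which are weakly tame up to finitely many points are equivalent. -/

set_option autoImplicit false

namespace Pool.Agent.H47.TA

open Set Filter Topology H67.Tame

variable {X : Type*} [MetricSpace X] [ProperSpace X]

/-- A state of the induction. -/
structure St (G : Subgroup (X ≃ₜ X)) (𝒦 : Set (Set X)) (x z : ℕ → X) where
  A : X ≃ₜ X
  B : X ≃ₜ X
  K : Set X
  I : Finset ℕ
  hA : A ∈ G
  hB : B ∈ G
  hK : K ∈ 𝒦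
  hm : ∀ i ∈ I, A (x i) = B (z i)
  hu : ∀ i ∉ I, A (x i) ∉ K ∧ B (z i) ∉ K

/-- The relation between a state and its successor. -/
structure Rel {G : Subgroup (X ≃ₜ X)} {𝒦 : Set (Set X)} {x z : ℕ → X} (C : Set X) (η : ℝ)
    (s t : St G 𝒦 x z) : Prop where
  hI : s.I ⊆ t.I
  hC : C ⊆ t.K
  hAC : t.A '' C ⊆ t.K
  hBC : t.B '' C ⊆ t.K
  hA : ∀ y, s.A y ∈ s.K → dist (t.A y) (s.A y) ≤ η
  hB : ∀ y, s.B y ∈ s.K → dist (t.B y) (s.B y) ≤ η
  hA' : ∀ y ∈ s.K, dist (t.A.symm y) (s.A.symm y) ≤ η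
  hB' : ∀ y ∈ s.K, dist (t.B.symm y) (s.B.symm y) ≤ η

theorem step' {G : Subgroup (X ≃ₜ X)} {𝒦 : Set (Set X)} (hT : Trans G 𝒦) {x z : ℕ → X}
    (hx : AWT G x) (hz : AWT G z) (hxi : Function.Injective x) (hzi : Function.Injective z)
    (s : St G 𝒦 x z) {C : Set X} (hC : IsCompact C) {η : ℝ} (hη : 0 < η) :
    ∃ t : St G 𝒦 x z, Rel C η s t := by
  obtain ⟨δ1, hδ1, h1⟩ := uc s.A.symm.continuous (hT.compact _ s.hK) hη
  obtain ⟨δ2, hδ2, h2⟩ := uc s.B.symm.continuous (hT.compact _ s.hK) hη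
  obtain ⟨A', hA', B', hB', K', hK', I', hII', hm', hu', hCK, hAC, hBC, hnA, hnB⟩ :=
    step hT hx hz hxi hzi s.hA s.hB s.hK s.hm s.hu (lt_min hη (lt_min hδ1 hδ2)) hC
  refine ⟨⟨A', B', K', I', hA', hB', hK', hm', hu'⟩, hII', hCK, hAC, hBC, ?_, ?_, ?_, ?_⟩
  · intro y hy
    have h3 := (hnA _ hy).1
    have e1 : (A' * s.A⁻¹) (s.A y) = A' y := by
      show A' (s.A.symm (s.A y)) = A' y
      rw [Homeomorph.symm_apply_apply]
    rw [e1] at h3
    exact (h3.trans_le (min_le_left _ _)).le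
  · intro y hy
    have h3 := (hnB _ hy).1
    have e1 : (B' * s.B⁻¹) (s.B y) = B' y := by
      show B' (s.B.symm (s.B y)) = B' y
      rw [Homeomorph.symm_apply_apply]
    rw [e1] at h3
    exact (h3.trans_le (min_le_left _ _)).le
  · intro y hy
    have h3 := (hnA _ hy).2
    have e1 : (A' * s.A⁻¹).symm y = s.A (A'.symm y) := rfl
    rw [e1] at h3
    have h4 := h1 y hy _ (h3.trans_le ((min_le_right _ _).trans (min_le_left _ _)))
    rw [Homeomorph.symm_apply_apply] at h4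
    exact h4.le
  · intro y hy
    have h3 := (hnB _ hy).2
    have e1 : (B' * s.B⁻¹).symm y = s.B (B'.symm y) := rfl
    rw [e1] at h3
    have h4 := h2 y hy _ (h3.trans_le ((min_le_right _ _).trans (min_le_right _ _)))
    rw [Homeomorph.symm_apply_apply] at h4
    exact h4.le

/-- Main abstract theorem: any two weakly tame injective sequences are equivalent under `G`. -/
theorem equivalent {G : Subgroup (X ≃ₜ X)} {𝒦 : Set (Set X)} (hT : Trans G 𝒦) {x z : ℕ → X}
    (hx : AWT G x) (hz : AWT G z) (hxi : Function.Injective x) (hzi : Function.Injective z) :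
    ∃ F ∈ G, ∀ n, F (x n) = z n := by
  classical
  set x0 := x 0
  let s0 : St G 𝒦 x z := ⟨1, 1, ∅, ∅, G.one_mem, G.one_mem, hT.empty, by simp, by simp⟩
  choose nxt hnxt using fun (n : ℕ) (s : St G 𝒦 x z) =>
    step' hT hx hz hxi hzi s (isCompact_closedBall x0 (n : ℝ)) (η := (1 / 2) ^ n) (by positivity)
  let s : ℕ → St G 𝒦 x z := fun n => Nat.rec s0 nxt n
  have hs : ∀ n, s (n + 1) = nxt n (s n) := fun n => rfl
  have hrel : ∀ n : ℕ, Rel (Metric.closedBall x0 (n : ℝ)) ((1 / 2) ^ n) (s n) (s (n + 1)) := by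
    intro n; rw [hs]; exact hnxt n (s n)
  have hball : ∀ m n : ℕ, m + 1 ≤ n → Metric.closedBall x0 (m : ℝ) ⊆
      Metric.closedBall x0 ((n - 1 : ℕ) : ℝ) := by
    intro m n hmn
    apply Metric.closedBall_subset_closedBall
    exact_mod_cast (by omega : m ≤ n - 1)
  have hpred : ∀ n, 1 ≤ n → Rel (Metric.closedBall x0 ((n - 1 : ℕ) : ℝ)) ((1 / 2) ^ (n - 1))
      (s (n - 1)) (s n) := by
    intro n hn
    have := hrel (n - 1)
    rwa [Nat.sub_add_cancel hn] at this
  obtain ⟨A, hA1, hA2⟩ := lim_homeo (g := fun n => (s n).A) x0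
    (fun m => ⟨m + 1, fun n hn y hy => (hrel n).hA y
      ((hpred n (by omega)).hAC ⟨y, hball m n hn hy, rfl⟩)⟩)
    (fun m => ⟨m + 1, fun n hn y hy => (hrel n).hA' y
      ((hpred n (by omega)).hC (hball m n hn hy))⟩)
  obtain ⟨B, hB1, hB2⟩ := lim_homeo (g := fun n => (s n).B) x0
    (fun m => ⟨m + 1, fun n hn y hy => (hrel n).hB y
      ((hpred n (by omega)).hBC ⟨y, hball m n hn hy, rfl⟩)⟩)
    (fun m => ⟨m + 1, fun n hn y hy => (hrel n).hB' y
      ((hpred n (by omega)).hC (hball m n hn hy))⟩)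
  have hAG : A ∈ G := hT.closed _ A (fun n => (s n).hA) hA1 hA2
  have hBG : B ∈ G := hT.closed _ B (fun n => (s n).hB) hB1 hB2
  have hAB : ∀ i, A (x i) = B (z i) := by
    intro i
    obtain ⟨m, hm⟩ := exists_nat_ge (dist (x i) x0)
    have hin : ∀ n, m + 1 ≤ n → (s n).A (x i) = (s n).B (z i) := by
      intro n hn
      apply (s n).hm
      by_contra hni
      exact ((s n).hu i hni).1 ((hpred n (by omega)).hAC ⟨x i, hball m n hn hm, rfl⟩)
    have h1 : Tendsto (fun n => (s n).A (x i)) atTop (𝓝 (A (x i))) :=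
      (hA1 {x i} isCompact_singleton).tendsto_at (mem_singleton _)
    have h2 : Tendsto (fun n => (s n).B (z i)) atTop (𝓝 (B (z i))) :=
      (hB1 {z i} isCompact_singleton).tendsto_at (mem_singleton _)
    refine tendsto_nhds_unique h1 (h2.congr' ?_)
    filter_upwards [eventually_ge_atTop (m + 1)] with n hn
    exact (hin n hn).symm
  refine ⟨B⁻¹ * A, G.mul_mem (G.inv_mem hBG) hAG, fun n => ?_⟩
  show B.symm (A (x n)) = z n
  rw [hAB n, Homeomorph.symm_apply_apply]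

end Pool.Agent.H47.TA
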