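import Pool.Agent.H47.TA.Koe1

/-!
# Module Koe2: linearisation on the whole disc

`koenigs_local` gives `s1`, `φ1`. Choose `m` with `c^m s ≤ s1`; then `f^[m]` maps `ball 0 s` into `ball 0 s1` (`‖f^[k] z‖ ≤ c^k ‖z‖`, and `c < 1` keeps the orbit in `ball 0 s`) and
`φ z = (l^m)⁻¹ * φ1 (f^[m] z)`. `φ (f z) = (l^m)⁻¹ φ1 (f (f^[m] z)) = l φ z`. If `z ≠ 0` then `f^[k] z ≠ 0` for all `k` (`hne`).
-/

set_option autoImplicit false

namespace Pool.Agent.H47.TA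

open Set Filter Topology Metric

theorem koenigs {s : ℝ} (hs : 0 < s) {f : ℂ → ℂ} {l : ℂ} {c : ℝ} (hf : DifferentiableOn ℂ f (ball 0 s)) (hf0 : f 0 = 0)
    (hl : deriv f 0 = l) (hl0 : l ≠ 0) (hl1 : ‖l‖ < 1) (hc : c < 1) (hc0 : 0 ≤ c)
    (hfc : ∀ z ∈ ball (0 : ℂ) s, ‖f z‖ ≤ c * ‖z‖) (hne : ∀ z ∈ ball (0 : ℂ) s, f z = 0 → z = 0) :
    ∃ φ : ℂ → ℂ, DifferentiableOn ℂ φ (ball 0 s) ∧ (∀ z ∈ ball (0 : ℂ) s, φ (f z) = l * φ z) ∧
      ∀ z ∈ ball (0 : ℂ) s, z ≠ 0 → φ z ≠ 0 := by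
  obtain ⟨s1, hs1, hs1s, hf1, φ1, hφd, hφe, hφn⟩ := koenigs_local hs hf hf0 hl hl0 hl1
  have hmap : MapsTo f (ball 0 s) (ball 0 s) := by
    intro z hz
    rw [mem_ball_zero_iff] at hz ⊢
    have h1 := hfc z (mem_ball_zero_iff.2 hz)
    have h2 : c * ‖z‖ ≤ 1 * ‖z‖ := mul_le_mul_of_nonneg_right hc.le (norm_nonneg z)
    linarith
  have horb : ∀ z ∈ ball (0 : ℂ) s, ∀ k : ℕ, f^[k] z ∈ ball (0 : ℂ) s ∧ ‖f^[k] z‖ ≤ c ^ k * ‖z‖ := by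
    intro z hz k
    induction k with
    | zero => exact ⟨hz, by simp⟩
    | succ k ih =>
      rw [Function.iterate_succ_apply']
      refine ⟨hmap ih.1, (hfc _ ih.1).trans ?_⟩
      calc c * ‖f^[k] z‖ ≤ c * (c ^ k * ‖z‖) := mul_le_mul_of_nonneg_left ih.2 hc0
        _ = c ^ (k + 1) * ‖z‖ := by ring
  obtain ⟨m, hm⟩ := exists_pow_lt_of_lt_one (div_pos hs1 hs) hc
  have hm' : c ^ m * s < s1 := (lt_div_iff₀ hs).1 hm
  have hin : ∀ z ∈ ball (0 : ℂ) s, f^[m] z ∈ ball (0 : ℂ) s1 := by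
    intro z hz
    rw [mem_ball_zero_iff]
    have h1 := (horb z hz m).2
    have h2 : c ^ m * ‖z‖ ≤ c ^ m * s := mul_le_mul_of_nonneg_left (mem_ball_zero_iff.1 hz).le (pow_nonneg hc0 m)
    linarith
  have hlm : (l ^ m)⁻¹ ≠ 0 := inv_ne_zero (pow_ne_zero m hl0)
  refine ⟨fun z => (l ^ m)⁻¹ * φ1 (f^[m] z), ?_, ?_, ?_⟩
  · exact (hφd.comp (hf.iterate hmap m) hin).const_mul _
  · intro z hz
    show (l ^ m)⁻¹ * φ1 (f^[m] (f z)) = l * ((l ^ m)⁻¹ * φ1 (f^[m] z))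
    rw [← Function.iterate_succ_apply, Function.iterate_succ_apply', hφe _ (hin z hz)]
    ring
  · intro z hz hz0
    refine mul_ne_zero hlm (hφn _ (hin z hz) ?_)
    have h1 : ∀ k : ℕ, f^[k] z ≠ 0 := by
      intro k
      induction k with
      | zero => exact hz0
      | succ k ih =>
        rw [Function.iterate_succ_apply']
        exact fun h => ih (hne _ (horb z hz k).1 h)
    exact h1 m

end Pool.Agent.H47.TA
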