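import Pool.Agent.H47.TA.Chart2
import Pool.Agent.H47.TA.Koe2
import Pool.Agent.H67.Tame.Prod

/-!
# Module Att: attracting fixed points

`chart_att`: `f z = u (g (σ z) - p)`. For `‖z‖ ≤ r0`: `g (σ z) ∈ X ∩ O`, so `g (σ z) = σ (f z)` (`Chart.right`), and `f` is differentiable on `ball 0 r` (`Chart.diff_comp`, `hg.d`).
Let `s = r0 - ‖z0‖ > 0`, `F w = f (w + z0) - z0` on `ball 0 s`: `F 0 = 0`, `‖F w‖ ≤ c ‖w‖` (`hcontr`, `hfix`), `F w = 0 → w = 0` (injectivity: `f z = f z0` gives `g (σ z) = g (σ z0)`, apply `g'`: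
`σ z = σ z0`, apply `u`), `l = deriv F 0 = deriv f z0`, `‖l‖ ≤ c < 1` (`norm_deriv_le_of_lip'` or limits of quotients). `koenigs` gives `φ0`. Take
`O' = O ∩ {x | u (x - p) ∈ ball z0 s}`, `φ x = φ0 (u (x - p) - z0)`, `W = σ '' closedBall z0 (s / 2)`, `O'' = O ∩ {x | u (x - p) ∈ ball z0 (s / 2)}`.
`∀ x ∈ X ∩ O', ∃ k, g^[k] x ∈ W`: `x = σ z`, `g^[k] x = σ (f^[k] z)`, `‖f^[k] z - z0‖ ≤ c^k s`.
-/

set_option autoImplicit false

namespace Pool.Agent.H47.TA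

open Set Filter Topology Metric H67.Tame

variable {E : Type*} [NormedAddCommGroup E] [InnerProductSpace ℂ E] [FiniteDimensional ℂ E]
variable {X : Set E}

/-- `p` is an attracting fixed point of `g`, `O` is a neighbourhood of `p` which is mapped into itself, `φ` is a linearising function on `X ∩ O`. -/
structure Att (X : Set E) (g : E → E) (p : E) (O : Set E) (φ : E → ℂ) (l : ℂ) : Prop where
  mem : p ∈ X
  fix : g p = p
  op : IsOpen O
  pO : p ∈ O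
  maps : ∀ x ∈ X, x ∈ O → g x ∈ O
  core : ∃ W : Set E, IsCompact W ∧ (∀ x ∈ W, x ∈ X ∧ x ∈ O) ∧
    (∃ O'' : Set E, IsOpen O'' ∧ p ∈ O'' ∧ ∀ x ∈ X, x ∈ O'' → x ∈ W) ∧ (∀ x ∈ W, g x ∈ W) ∧
    ∀ x ∈ X, x ∈ O → ∃ k : ℕ, g^[k] x ∈ W
  l0 : l ≠ 0
  l1 : ‖l‖ < 1
  dφ : ∀ x ∈ X, x ∈ O → DifferentiableWithinAt ℂ φ X x
  fe : ∀ x ∈ X, x ∈ O → φ (g x) = l * φ x
  ne : ∀ x ∈ X, x ∈ O → x ≠ p → φ x ≠ 0

theorem chart_att {p : E} {σ : ℂ → E} {u : E →L[ℂ] ℂ} {r : ℝ} {O : Set E} (h : Chart X p σ u r O) {g g' : E → E}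
    (hg : Au X g g') {r0 c : ℝ} (h0r : r0 < r) (hgO : ∀ z : ℂ, ‖z‖ ≤ r0 → g (σ z) ∈ O)
    {z0 : ℂ} (hz0 : ‖z0‖ < r0) (hfix : u (g (σ z0) - p) = z0)
    (hd0 : deriv (fun z => u (g (σ z) - p)) z0 ≠ 0) (hc0 : 0 ≤ c) (hc : c < 1)
    (hcontr : ∀ z w : ℂ, ‖z‖ ≤ r0 → ‖w‖ ≤ r0 → ‖u (g (σ z) - p) - u (g (σ w) - p)‖ ≤ c * ‖z - w‖) :
    ∃ O' φ l, O' ⊆ O ∧ Att X g (σ z0) O' φ l := by
  set f : ℂ → ℂ := fun z => u (g (σ z) - p) with hf
  set s : ℝ := r0 - ‖z0‖ with hs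
  have hs0 : 0 < s := by rw [hs]; linarith
  have hf0 : f z0 = z0 := hfix
  have hin : ∀ z : ℂ, ‖z‖ ≤ r0 → z ∈ ball (0 : ℂ) r := fun z hz => by
    rw [mem_ball_zero_iff]; linarith
  have hsem : ∀ z : ℂ, ‖z‖ ≤ r0 → σ (f z) = g (σ z) := fun z hz =>
    (h.right (g (σ z)) (hg.m _ (h.maps z (hin z hz)).1) (hgO z hz)).2
  have hnear : ∀ z : ℂ, ‖z - z0‖ ≤ s → ‖z‖ ≤ r0 := fun z hz => by
    have h1 : ‖z‖ ≤ ‖z - z0‖ + ‖z0‖ := by
      have := norm_add_le (z - z0) z0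
      rwa [sub_add_cancel] at this
    rw [hs] at hz
    linarith
  have hz0r : ‖z0‖ ≤ r0 := hz0.le
  have hcf : ∀ z : ℂ, ‖z - z0‖ ≤ s → ‖f z - z0‖ ≤ c * ‖z - z0‖ := fun z hz => by
    have h1 := hcontr z z0 (hnear z hz) hz0r
    rw [hfix] at h1
    exact h1
  have hdf : ∀ z : ℂ, ‖z‖ ≤ r0 → DifferentiableAt ℂ f z := fun z hz => by
    have hX1 := (h.maps z (hin z hz)).1
    have h1 : DifferentiableWithinAt ℂ (fun x => u (g x - p)) X (σ z) :=
      u.differentiableAt.comp_differentiableWithinAt _ ((hg.d _ hX1).sub_const p)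
    exact (h.diff_comp (hin z hz) h1).differentiableAt
  -- the function centred at `0`
  set F : ℂ → ℂ := fun w => f (w + z0) - z0 with hF
  have hFd : DifferentiableOn ℂ F (ball 0 s) := by
    intro w hw
    rw [mem_ball_zero_iff] at hw
    have h1 : ‖w + z0‖ ≤ r0 := hnear _ (by rw [add_sub_cancel_right]; exact hw.le)
    have h2 : DifferentiableAt ℂ (fun w : ℂ => f (w + z0)) w :=
      DifferentiableAt.comp (g := f) (f := fun w : ℂ => w + z0) w (hdf _ h1)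
        (differentiableAt_id.add_const z0)
    exact (h2.sub_const z0).differentiableWithinAt
  have hF0 : F 0 = 0 := by
    rw [hF]; simp only [zero_add, hf0, sub_self]
  have hFc : ∀ z ∈ ball (0 : ℂ) s, ‖F z‖ ≤ c * ‖z‖ := by
    intro w hw
    rw [mem_ball_zero_iff] at hw
    have h1 := hcf (w + z0) (by rw [add_sub_cancel_right]; exact hw.le)
    rw [add_sub_cancel_right] at h1
    exact h1
  have hl : deriv F 0 = deriv f z0 := by
    rw [hF, deriv_sub_const, deriv_comp_add_const, zero_add]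
  have hl0 : deriv f z0 ≠ 0 := hd0
  have hl1 : ‖deriv f z0‖ < 1 := by
    refine lt_of_le_of_lt ?_ hc
    refine norm_deriv_le_of_lip' hc0 ?_
    filter_upwards [closedBall_mem_nhds z0 hs0] with z hz
    rw [mem_closedBall, dist_eq_norm] at hz
    rw [hf0]
    exact hcf z hz
  have hinj : ∀ z : ℂ, ‖z‖ ≤ r0 → f z = z0 → z = z0 := by
    intro z hz h1
    have h2 : g (σ z) = g (σ z0) := by
      rw [← hsem z hz, ← hsem z0 hz0r, h1, hf0]
    have h3 : σ z = σ z0 := by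
      rw [← hg.l _ (h.maps z (hin z hz)).1, h2, hg.l _ (h.maps z0 (hin z0 hz0r)).1]
    rw [← h.left z (hin z hz), h3, h.left z0 (hin z0 hz0r)]
  have hne : ∀ z ∈ ball (0 : ℂ) s, F z = 0 → z = 0 := by
    intro w hw h1
    rw [mem_ball_zero_iff] at hw
    have h2 := hinj (w + z0) (hnear _ (by rw [add_sub_cancel_right]; exact hw.le))
      (sub_eq_zero.1 h1)
    exact add_eq_right.1 h2
  obtain ⟨φ0, hφd, hφe, hφn⟩ := koenigs hs0 hFd hF0 hl hl0 hl1 hc hc0 hFc hne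
  have hcont : Continuous (fun x : E => u (x - p)) := u.continuous.comp (continuous_id.sub continuous_const)
  -- points of `X ∩ O'`
  have key : ∀ x ∈ X, x ∈ O → ∀ t ≤ s, ‖u (x - p) - z0‖ ≤ t →
      σ (u (x - p)) = x ∧ ‖u (x - p)‖ ≤ r0 ∧ σ (f (u (x - p))) = g x ∧ g x ∈ X ∧ g x ∈ O ∧
        u (g x - p) = f (u (x - p)) ∧ ‖f (u (x - p)) - z0‖ ≤ c * ‖u (x - p) - z0‖ := by
    intro x hx hxO t ht hxt
    have h1 := (h.right x hx hxO).2
    have h2 := hnear _ (hxt.trans ht)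
    have h3 := hsem _ h2
    rw [h1] at h3
    refine ⟨h1, h2, h3, hg.m x hx, ?_, ?_, hcf _ (hxt.trans ht)⟩
    · have := hgO _ h2
      rwa [h1] at this
    · show _ = u (g (σ (u (x - p))) - p)
      rw [h1]
  refine ⟨O ∩ {x | u (x - p) ∈ ball z0 s}, fun x => φ0 (u (x - p) - z0), deriv f z0,
    inter_subset_left, ?_⟩
  have hmem : ∀ x : E, ∀ t : ℝ, x ∈ {x : E | u (x - p) ∈ ball z0 t} ↔ ‖u (x - p) - z0‖ < t := fun x t => by
    rw [Set.mem_ofPred_eq, mem_ball, dist_eq_norm]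
  have hz0b := hin z0 hz0r
  have hσX := h.maps z0 hz0b
  refine ⟨hσX.1, ?_, ?_, ?_, ?_, ?_, hl0, hl1, ?_, ?_, ?_⟩
  · rw [← hsem z0 hz0r, hf0]
  · exact h.op.inter (isOpen_ball.preimage hcont)
  · exact ⟨hσX.2, by rw [hmem, h.left z0 hz0b, sub_self, norm_zero]; exact hs0⟩
  · rintro x hx ⟨hxO, hxs⟩
    rw [hmem] at hxs
    obtain ⟨h1, h2, h3, h4, h5, h6, h7⟩ := key x hx hxO s le_rfl hxs.le
    refine ⟨h5, ?_⟩
    rw [hmem, h6]
    calc ‖f (u (x - p)) - z0‖ ≤ c * ‖u (x - p) - z0‖ := h7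
      _ ≤ 1 * ‖u (x - p) - z0‖ := by gcongr
      _ = ‖u (x - p) - z0‖ := one_mul _
      _ < s := hxs
  · have hW : ∀ z ∈ closedBall z0 (s / 2), ‖z‖ ≤ r0 ∧ ‖z - z0‖ ≤ s / 2 := by
      intro z hz
      rw [mem_closedBall, dist_eq_norm] at hz
      exact ⟨hnear z (hz.trans (by linarith)), hz⟩
    refine ⟨σ '' closedBall z0 (s / 2), ?_, ?_, ?_, ?_, ?_⟩
    · refine (isCompact_closedBall z0 (s / 2)).image_of_continuousOn ?_
      exact h.diff.continuousOn.mono fun z hz => hin z (hW z hz).1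
    · rintro _ ⟨z, hz, rfl⟩
      obtain ⟨h1, h2⟩ := hW z hz
      refine ⟨(h.maps z (hin z h1)).1, (h.maps z (hin z h1)).2, ?_⟩
      rw [hmem, h.left z (hin z h1)]
      linarith
    · refine ⟨O ∩ {x | u (x - p) ∈ ball z0 (s / 2)}, h.op.inter (isOpen_ball.preimage hcont),
        ⟨hσX.2, ?_⟩, ?_⟩
      · rw [hmem, h.left z0 hz0b, sub_self, norm_zero]; linarith
      · rintro x hx ⟨hxO, hxs⟩
        rw [hmem] at hxs
        refine ⟨u (x - p), ?_, (h.right x hx hxO).2⟩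
        rw [mem_closedBall, dist_eq_norm]
        exact hxs.le
    · rintro _ ⟨z, hz, rfl⟩
      obtain ⟨h1, h2⟩ := hW z hz
      refine ⟨f z, ?_, hsem z h1⟩
      rw [mem_closedBall, dist_eq_norm]
      calc ‖f z - z0‖ ≤ c * ‖z - z0‖ := hcf z (by linarith)
        _ ≤ 1 * ‖z - z0‖ := by gcongr
        _ ≤ s / 2 := by rw [one_mul]; exact h2
    · rintro x hx ⟨hxO, hxs⟩
      rw [hmem] at hxs
      have hiter : ∀ k : ℕ, g^[k] x ∈ X ∧ g^[k] x ∈ O ∧ ‖u (g^[k] x - p) - z0‖ ≤ c ^ k * s := by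
        intro k
        induction k with
        | zero => exact ⟨hx, hxO, by simpa using hxs.le⟩
        | succ k ih =>
          obtain ⟨i1, i2, i3⟩ := ih
          have hck : c ^ k * s ≤ s := by
            have : c ^ k ≤ 1 := pow_le_one₀ hc0 hc.le
            nlinarith
          obtain ⟨h1, h2, h3, h4, h5, h6, h7⟩ := key _ i1 i2 _ hck i3
          rw [Function.iterate_succ_apply']
          refine ⟨h4, h5, ?_⟩
          rw [h6]
          calc ‖f (u (g^[k] x - p)) - z0‖ ≤ c * ‖u (g^[k] x - p) - z0‖ := h7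
            _ ≤ c * (c ^ k * s) := by gcongr
            _ = c ^ (k + 1) * s := by ring
      obtain ⟨k, hk⟩ : ∃ k : ℕ, c ^ k < 1 / 2 := exists_pow_lt_of_lt_one (by norm_num) hc
      obtain ⟨h1, h2, h3⟩ := hiter k
      refine ⟨k, u (g^[k] x - p), ?_, (h.right _ h1 h2).2⟩
      rw [mem_closedBall, dist_eq_norm]
      have : c ^ k * s ≤ s / 2 := by nlinarith
      exact h3.trans this
  · rintro x hx ⟨hxO, hxs⟩
    rw [hmem] at hxs
    have h1 : DifferentiableAt ℂ φ0 (u (x - p) - z0) :=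
      hφd.differentiableAt (isOpen_ball.mem_nhds (by rw [mem_ball_zero_iff]; exact hxs))
    have h2 : DifferentiableAt ℂ (fun x : E => u (x - p) - z0) x :=
      (u.differentiableAt.comp x (differentiableAt_id.sub_const p)).sub_const z0
    exact (h1.comp x h2).differentiableWithinAt
  · rintro x hx ⟨hxO, hxs⟩
    rw [hmem] at hxs
    obtain ⟨h1, h2, h3, h4, h5, h6, h7⟩ := key x hx hxO s le_rfl hxs.le
    have h8 := hφe (u (x - p) - z0) (by rw [mem_ball_zero_iff]; exact hxs)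
    have h9 : F (u (x - p) - z0) = u (g x - p) - z0 := by
      show f (u (x - p) - z0 + z0) - z0 = _
      rw [sub_add_cancel, h6]
    rw [h9] at h8
    exact h8
  · rintro x hx ⟨hxO, hxs⟩ hxp
    rw [hmem] at hxs
    refine hφn _ (by rw [mem_ball_zero_iff]; exact hxs) fun h0 => hxp ?_
    rw [← (h.right x hx hxO).2, sub_eq_zero.1 h0]

end Pool.Agent.H47.TA
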