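import Pool.Agent.H67.Tame.Prod2

/-!
# Module AuNear: automorphisms close to `id + t V`

`hD.cl hX hV : Cl X V` (`Pool/Agent/H67/Tame/Span.lean`) gives a list `l` of complete fields with `‖l.sum x - V x‖ < ε / 2` on `K`. Apply `exists_prod`
(`Pool/Agent/H67/Tame/Prod2.lean`) with `ι = Fin l.length`, `V j = l.get j`, `s = Finset.univ`, and `ProdEst.fwd` with `c = fun _ => t`, `c' = 0`, `η = Δ = t`:
`‖g c x - x - ∑ j, t • V j x‖ ≤ C t²` for `0 < t ≤ τ0`, `x ∈ K` (`g 0 x = x`). `∑ j, t • l.get j x = t • l.sum x`. Take `τ = min τ0 (ε / (2 C))`. `g = g c`, `g' = g' c`.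
-/

set_option autoImplicit false

namespace Pool.Agent.H47.TA

open Set Filter Topology Metric H67.Tame

variable {E : Type*} [NormedAddCommGroup E] [InnerProductSpace ℂ E] [FiniteDimensional ℂ E]
variable {X : Set E}

theorem exists_au_near (hX : Mfd X) (hD : DensityProperty X) {V : E → E} (hV : IsVF X V) {K : Set E} (hKX : K ⊆ X)
    (hK : IsCompact K) {ε : ℝ} (hε : 0 < ε) :
    ∃ τ > 0, ∀ t : ℝ, 0 < t → t < τ → ∃ g g' : E → E, Au X g g' ∧ ∀ x ∈ K, ‖g x - x - t • V x‖ ≤ ε * t := by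
  obtain ⟨l, hl, h1⟩ := (hD.cl hX hV).2 K hKX hK (ε / 2) (by positivity)
  obtain ⟨g, g', hau, h0, hest⟩ := exists_prod hX (ι := Fin l.length) (fun j => l.get j) Finset.univ
    (fun j _ => hl _ (List.get_mem l j))
  obtain ⟨τ0, C, h⟩ := hest K hKX hK
  have hC := h.Cpos
  refine ⟨min τ0 (ε / (2 * C)), lt_min h.τpos (by positivity), fun t ht htτ =>
    ⟨g fun _ => t, g' fun _ => t, hau _, fun x hx => ?_⟩⟩
  have h2 := h.fwd (fun _ => t) (fun _ => 0) t t (fun j _ => (abs_of_pos ht).le) (fun j _ => by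
    rw [abs_zero]; exact ht.le) (fun j _ => by rw [sub_zero]; exact (abs_of_pos ht).le) ht.le
    (htτ.le.trans (min_le_left _ _)) ht.le x hx
  have h3 : g (fun _ => 0) x = x := h0 x (hKX hx)
  have h4 : ∑ j : Fin l.length, (t - 0) • l.get j x = t • l.sum x := by
    rw [sub_zero, ← Finset.smul_sum]
    congr 1
    have h5 : ∑ j : Fin l.length, l.get j = l.sum := Fin.sum_univ_getElem l
    rw [← h5, Finset.sum_apply]
  rw [h3, h4] at h2
  have h6 : C * t ≤ ε / 2 := by
    have h7 : t < ε / (2 * C) := lt_of_lt_of_le htτ (min_le_right _ _)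
    rw [lt_div_iff₀ (by positivity)] at h7
    linarith
  have h8 : g (fun _ => t) x - x - t • V x = (g (fun _ => t) x - x - t • l.sum x) + t • (l.sum x - V x) := by
    rw [smul_sub]
    abel
  have h9 : ‖t • (l.sum x - V x)‖ ≤ t * (ε / 2) := by
    rw [norm_smul, Real.norm_eq_abs, abs_of_pos ht]
    exact mul_le_mul_of_nonneg_left (h1 x hx).le ht.le
  rw [h8]
  refine (norm_add_le _ _).trans ((add_le_add h2 h9).trans ?_)
  nlinarith

end Pool.Agent.H47.TA
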