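import Pool.Agent.H47.TA.Att

/-!
# Module Basin: the basin of attraction and its exhausting function

`U₀ = {x ∈ X | ∃ k, g^[k] x ∈ O}` is relatively open in `X` (`g` is continuous on `X` and maps `X` to `X`), so `U₀ = X ∩ U` for an open set `U` (for instance the union of all open sets
`N` with `X ∩ N ⊆ U₀`). For `x ∈ U₀` let `Φ x = (l^k)⁻¹ * φ (g^[k] x)` for any `k` with `g^[k] x ∈ O`: independent of `k` (`h.maps`, `h.fe`). `G = 1 / Φ` on `U₀`, `G = 0` elsewhere.
* `x ∈ U₀`, `x ≠ p`: `g^[k] x ≠ p` (`g` injective on `X`, `g p = p`), so `Φ x ≠ 0`; near `x` (within `X`) `Φ y = (l^k)⁻¹ * φ (g^[k] y)` with the same `k`: differentiable within `X`.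
* Continuity at `b ∈ X`, `b ∉ U`: let `W`, `O''` be as in `h.core`. `A = {y ∈ W | g' y ∉ O''}` is compact, `p ∉ A` (`g' p = p`), so `‖φ‖ ≥ c > 0` on `A` (`φ` is continuous on `W`, nonzero on `A`).
  For `x ∈ U₀` with `x ∉ W` let `k` be the least number with `g^[k] x ∈ W` (exists by `h.core`), `k ≥ 1`; `y = g^[k] x ∈ W` and `g' y = g^[k-1] x ∉ W`, so `y ∈ A` and
  `‖Φ x‖ ≥ c ‖l‖^(-k)`. For every `m` the set `{x ∈ X | ∃ k ≤ m, g^[k] x ∈ W}` is closed (finite union of closed sets) and does not contain `b` (as `b ∉ U₀`), so `k > m` for `x ∈ U₀` near `b`.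
  Hence `G x → 0 = G b`.
-/

set_option autoImplicit false

namespace Pool.Agent.H47.TA

open Set Filter Topology Metric H67.Tame

variable {E : Type*} [NormedAddCommGroup E] [InnerProductSpace ℂ E] [FiniteDimensional ℂ E]
variable {X : Set E}

private theorem iter_mem {g g' : E → E} (hg : Au X g g') (k : ℕ) : ∀ x ∈ X, g^[k] x ∈ X := by
  induction k with
  | zero => intro x hx; exact hx
  | succ n ih =>
    intro x hx
    rw [Function.iterate_succ_apply']
    exact hg.m _ (ih x hx)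

private theorem iter_diff {g g' : E → E} (hg : Au X g g') (k : ℕ) :
    DifferentiableOn ℂ (g^[k]) X := by
  induction k with
  | zero => exact differentiableOn_id
  | succ n ih =>
    rw [Function.iterate_succ']
    exact hg.d.comp ih (iter_mem hg n)

private theorem iter_inj {g g' : E → E} (hg : Au X g g') (k : ℕ) :
    ∀ x ∈ X, ∀ y ∈ X, g^[k] x = g^[k] y → x = y := by
  induction k with
  | zero => intro x _ y _ h; exact h
  | succ n ih =>
    intro x hx y hy h
    rw [Function.iterate_succ_apply', Function.iterate_succ_apply'] at h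
    have h1 := congrArg g' h
    rw [hg.l _ (iter_mem hg n x hx), hg.l _ (iter_mem hg n y hy)] at h1
    exact ih x hx y hy h1

theorem basin (hX : IsClosed X) {g g' : E → E} (hg : Au X g g') {p : E} {O : Set E} {φ : E → ℂ} {l : ℂ} (h : Att X g p O φ l) :
    ∃ (U : Set E) (G : E → ℂ), IsOpen U ∧ (∀ x ∈ X, x ∈ U ↔ ∃ k : ℕ, g^[k] x ∈ O) ∧
      (∀ x ∈ X, x ∉ U → G x = 0) ∧
      (∀ x ∈ X, x ∈ U → x ≠ p → G x ≠ 0 ∧ DifferentiableWithinAt ℂ G X x) ∧
      ∀ x ∈ X, x ≠ p → ContinuousWithinAt G X x := by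
  classical
  have hmem := iter_mem hg
  have hdiff := iter_diff hg
  have hgp : ∀ k, g^[k] p = p := fun k => Function.iterate_fixed h.fix k
  -- staying in O
  have hstep : ∀ x ∈ X, ∀ k j : ℕ, g^[k] x ∈ O → g^[k + j] x ∈ O := by
    intro x hx k j hk
    induction j with
    | zero => exact hk
    | succ n ih =>
      rw [← add_assoc, Function.iterate_succ_apply']
      exact h.maps _ (hmem _ x hx) ih
  have hval : ∀ x ∈ X, ∀ k j : ℕ, g^[k] x ∈ O →
      (l ^ (k + j))⁻¹ * φ (g^[k + j] x) = (l ^ k)⁻¹ * φ (g^[k] x) := by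
    intro x hx k j hk
    induction j with
    | zero => rfl
    | succ n ih =>
      rw [← add_assoc, Function.iterate_succ_apply',
        h.fe _ (hmem _ x hx) (hstep x hx k n hk), ← ih, pow_succ]
      have := h.l0
      field_simp
  have hval2 : ∀ x ∈ X, ∀ k j : ℕ, g^[k] x ∈ O → g^[j] x ∈ O →
      (l ^ k)⁻¹ * φ (g^[k] x) = (l ^ j)⁻¹ * φ (g^[j] x) := by
    intro x hx k j hk hj
    rcases le_total k j with hle | hle
    · obtain ⟨i, rfl⟩ := Nat.exists_eq_add_of_le hle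
      exact (hval x hx k i hk).symm
    · obtain ⟨i, rfl⟩ := Nat.exists_eq_add_of_le hle
      exact hval x hx j i hj
  set U0 : Set E := {x | x ∈ X ∧ ∃ k : ℕ, g^[k] x ∈ O} with hU0
  set G : E → ℂ := fun x => if hx : ∃ k : ℕ, x ∈ X ∧ g^[k] x ∈ O then
    ((l ^ (Nat.find hx))⁻¹ * φ (g^[Nat.find hx] x))⁻¹ else 0 with hG
  have hGv : ∀ x ∈ X, ∀ k : ℕ, g^[k] x ∈ O → G x = ((l ^ k)⁻¹ * φ (g^[k] x))⁻¹ := by
    intro x hx k hk
    have hex : ∃ k : ℕ, x ∈ X ∧ g^[k] x ∈ O := ⟨k, hx, hk⟩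
    simp only [hG, dif_pos hex]
    rw [hval2 x hx _ k (Nat.find_spec hex).2 hk]
  have hG0 : ∀ x, x ∉ U0 → G x = 0 := by
    intro x hx
    have hex : ¬ ∃ k : ℕ, x ∈ X ∧ g^[k] x ∈ O := by
      rintro ⟨k, h1, h2⟩
      exact hx ⟨h1, k, h2⟩
    simp only [hG, dif_neg hex]
  -- neighbourhoods
  have hnear : ∀ x ∈ X, ∀ k : ℕ, g^[k] x ∈ O → ∀ᶠ y in 𝓝[X] x, g^[k] y ∈ O := by
    intro x hx k hk
    exact (hdiff k x hx).continuousWithinAt (h.op.mem_nhds hk)
  have hUiff : ∀ x ∈ X, x ∈ interior (U0 ∪ Xᶜ) ↔ ∃ k : ℕ, g^[k] x ∈ O := by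
    intro x hx
    constructor
    · intro h1
      rcases interior_subset h1 with h2 | h2
      · exact h2.2
      · exact absurd hx h2
    · rintro ⟨k, hk⟩
      rw [mem_interior_iff_mem_nhds]
      have h1 := hnear x hx k hk
      rw [eventually_nhdsWithin_iff] at h1
      filter_upwards [h1] with y hy
      by_cases hyX : y ∈ X
      · exact Or.inl ⟨hyX, k, hy hyX⟩
      · exact Or.inr hyX
  have hreg : ∀ x ∈ X, x ∈ interior (U0 ∪ Xᶜ) → x ≠ p → G x ≠ 0 ∧ DifferentiableWithinAt ℂ G X x := by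
    intro x hx hxU hxp
    obtain ⟨k, hk⟩ := (hUiff x hx).mp hxU
    have hne : g^[k] x ≠ p := by
      intro h1
      apply hxp
      refine iter_inj hg k x hx p h.mem ?_
      rw [h1, hgp k]
    have hφ : φ (g^[k] x) ≠ 0 := h.ne _ (hmem k x hx) hk hne
    have hlk : (l ^ k)⁻¹ ≠ 0 := inv_ne_zero (pow_ne_zero _ h.l0)
    refine ⟨?_, ?_⟩
    · rw [hGv x hx k hk]
      exact inv_ne_zero (mul_ne_zero hlk hφ)
    · have h1 : DifferentiableWithinAt ℂ (fun y => φ (g^[k] y)) X x :=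
        (h.dφ _ (hmem k x hx) hk).comp x (hdiff k x hx) (hmem k)
      have h2 : DifferentiableWithinAt ℂ (fun y => ((l ^ k)⁻¹ * φ (g^[k] y))⁻¹) X x :=
        (h1.const_mul _).fun_inv (mul_ne_zero hlk hφ)
      refine h2.congr_of_eventuallyEq ?_ (hGv x hx k hk)
      filter_upwards [hnear x hx k hk, self_mem_nhdsWithin] with y hy hyX
      exact hGv y hyX k hy
  refine ⟨interior (U0 ∪ Xᶜ), G, isOpen_interior, hUiff, fun x hx hxU => hG0 x fun h1 =>
    hxU ((hUiff x hx).mpr h1.2), hreg, fun b hb hbp => ?_⟩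
  by_cases hbU : b ∈ interior (U0 ∪ Xᶜ)
  · exact (hreg b hb hbU hbp).2.continuousWithinAt
  have hbO : ∀ k : ℕ, g^[k] b ∉ O := fun k hk => hbU ((hUiff b hb).mpr ⟨k, hk⟩)
  have hGb : G b = 0 := hG0 b fun h1 => by
    obtain ⟨k, hk⟩ := h1.2
    exact hbO k hk
  obtain ⟨W, hWc, hWO, ⟨O'', hO''o, hpO'', hO''W⟩, hgW, hcore⟩ := h.core
  have hWX : W ⊆ X := fun x hx => (hWO x hx).1
  set A : Set E := W ∩ g' ⁻¹' O''ᶜ with hA
  have hAclosed : IsClosed A :=
    (hg.d'.continuousOn.mono hWX).preimage_isClosed_of_isClosed hWc.isClosed hO''o.isClosed_compl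
  have hAc : IsCompact A := hWc.of_isClosed_subset hAclosed inter_subset_left
  have hg'p : g' p = p := by
    have := hg.l p h.mem
    rwa [h.fix] at this
  obtain ⟨c, hc, hcA⟩ : ∃ c > 0, ∀ y ∈ A, c ≤ ‖φ y‖ := by
    rcases A.eq_empty_or_nonempty with hAe | hAne
    · exact ⟨1, one_pos, fun y hy => by rw [hAe] at hy; exact absurd hy (notMem_empty y)⟩
    · have hcont : ContinuousOn (fun y => ‖φ y‖) A := by
        intro y hy
        have h1 := (h.dφ y (hWX hy.1) (hWO y hy.1).2).continuousWithinAt.norm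
        exact h1.mono (fun z hz => hWX hz.1)
      obtain ⟨y0, hy0, hmin⟩ := hAc.exists_isMinOn hAne hcont
      refine ⟨‖φ y0‖, ?_, fun y hy => hmin hy⟩
      refine norm_pos_iff.mpr ?_
      refine h.ne y0 (hWX hy0.1) (hWO y0 hy0.1).2 ?_
      rintro rfl
      have h1 := hy0.2
      rw [mem_preimage, hg'p] at h1
      exact h1 hpO''
  -- the estimate
  have hest : ∀ x ∈ X, ∀ m : ℕ, (∀ k ≤ m, g^[k] x ∉ W) → ‖G x‖ ≤ ‖l‖ ^ m / c := by
    intro x hx m hm
    by_cases hxU : x ∈ U0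
    · obtain ⟨_, j, hj⟩ := hxU
      obtain ⟨i, hi⟩ := hcore _ (hmem j x hx) hj
      have hex : ∃ k : ℕ, g^[k] x ∈ W := ⟨i + j, by rw [Function.iterate_add_apply]; exact hi⟩
      have hk1 := Nat.find_spec hex
      have hk2 : m < Nat.find hex := by
        by_contra hle
        push Not at hle
        exact hm _ hle hk1
      obtain ⟨n, hn⟩ : ∃ n, Nat.find hex = n + 1 := ⟨Nat.find hex - 1, by omega⟩
      have hnW : g^[n] x ∉ W := Nat.find_min hex (by omega)
      rw [hn] at hk1 hk2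
      have hyA : g^[n + 1] x ∈ A := by
        refine ⟨hk1, ?_⟩
        rw [mem_preimage, Function.iterate_succ_apply', hg.l _ (hmem n x hx)]
        intro h1
        exact hnW (hO''W _ (hmem n x hx) h1)
      have hcy := hcA _ hyA
      rw [hGv x hx (n + 1) (hWO _ hk1).2, norm_inv, norm_mul, norm_inv, norm_pow, mul_inv, inv_inv,
        ← div_eq_mul_inv]
      have h1 : ‖l‖ ^ (n + 1) ≤ ‖l‖ ^ m :=
        pow_le_pow_of_le_one (norm_nonneg _) h.l1.le (by omega)
      exact div_le_div₀ (by positivity) h1 hc hcy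
    · rw [hG0 x hxU, norm_zero]
      positivity
  have hW : ∀ m : ℕ, ∀ᶠ x in 𝓝[X] b, ∀ k ≤ m, g^[k] x ∉ W := by
    intro m
    have h1 : ∀ k ∈ Finset.range (m + 1), ∀ᶠ x in 𝓝[X] b, g^[k] x ∉ W := by
      intro k _
      have h2 : g^[k] b ∈ Wᶜ := fun h3 => hbO k (hWO _ h3).2
      exact (hdiff k b hb).continuousWithinAt (hWc.isClosed.isOpen_compl.mem_nhds h2)
    have h2 := (Finset.eventually_all (Finset.range (m + 1))).mpr h1
    filter_upwards [h2] with x hx k hk
    exact hx k (Finset.mem_range.mpr (by omega))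
  rw [ContinuousWithinAt, hGb, Metric.tendsto_nhds]
  intro ε hε
  have hpow : Tendsto (fun m : ℕ => ‖l‖ ^ m / c) atTop (𝓝 (0 / c)) :=
    (tendsto_pow_atTop_nhds_zero_of_lt_one (norm_nonneg _) h.l1).div_const c
  rw [zero_div] at hpow
  obtain ⟨m, hm⟩ := (hpow.eventually (gt_mem_nhds hε)).exists
  filter_upwards [hW m, self_mem_nhdsWithin] with x hx hxX
  rw [dist_zero_right]
  exact lt_of_le_of_lt (hest x hxX m hx) hm

end Pool.Agent.H47.TA
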