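import Pool.Agent.H67.Tame.XCalc

/-!
# Module Chart1: holomorphic charts of a one-dimensional submanifold

Proof of `exists_chart`. `finrank (tang X p) = 1` (`Submanifold.retr`, second part): choose `v ≠ 0` in `tang X p` and `u = ⟪v, ·⟫ / ‖v‖²`
(`innerSL`), so `u v = 1`. Let `ρ, U` be a retraction at `p` (`Submanifold.retr` or `hX.mfd.retr p hp`, structure `Retr`). The map
`s z = ρ (p + z • v)` is holomorphic near `0`, `s 0 = p`, with derivative `v` at `0` (`Retr.tan`: `fderiv ρ p v = v`), so `k z = u (s z - p)` has the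
derivative `1` at `0`: `HasStrictDerivAt` (holomorphic functions are analytic) and the inverse function theorem
(`HasStrictDerivAt.localInverse` / `toOpenPartialHomeomorph`; the inverse is differentiable near `0`, for instance as the inverse of an analytic function,
or by `HasStrictDerivAt.to_localInverse` at every nearby point) give `κ` with `k (κ z) = z` near `0`, `κ 0 = 0`; put `σ = s ∘ κ`, so `u (σ z - p) = z`, `σ z ∈ X`.
For `x ∈ X` near `p` let `y = σ (u (x - p)) ∈ X`, near `p`; then `u (y - x) = 0`. By `Mfd.tangent_estimate` with the projection `P` to `tang X p = ℂ v`: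
`P (y - x) = c • v`, `c = u (P (y - x)) = u (P (y - x) - (y - x))`, so `‖y - x‖ ≤ κ' (1 + ‖u‖ ‖v‖) ‖y - x‖` with `κ'` small, hence `y = x`.
Shrink `r` so that `σ (ball 0 r)` lies in the open set `O₀ ∋ p` where this holds, and take `O = O₀ ∩ {x | u (x - p) ∈ ball 0 r}`.
-/

set_option autoImplicit false

namespace Pool.Agent.H47.TA

open Set Filter Topology Metric H67.Tame

variable {E : Type*} [NormedAddCommGroup E] [InnerProductSpace ℂ E] [FiniteDimensional ℂ E]
variable {X : Set E}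

/-- A chart of `X` at `p`: the disc of radius `r` is mapped by `σ` onto `X ∩ O`, the inverse is `x ↦ u (x - p)`. -/
structure Chart (X : Set E) (p : E) (σ : ℂ → E) (u : E →L[ℂ] ℂ) (r : ℝ) (O : Set E) : Prop where
  pos : 0 < r
  op : IsOpen O
  diff : DifferentiableOn ℂ σ (ball 0 r)
  zero : σ 0 = p
  maps : ∀ z ∈ ball (0 : ℂ) r, σ z ∈ X ∧ σ z ∈ O
  left : ∀ z ∈ ball (0 : ℂ) r, u (σ z - p) = z
  right : ∀ x ∈ X, x ∈ O → u (x - p) ∈ ball (0 : ℂ) r ∧ σ (u (x - p)) = x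

theorem exists_chart (hX : Submanifold X 1) {p : E} (hp : p ∈ X) :
    ∃ σ u r O, Chart X p σ u r O := by
  have hM : Mfd X := hX.mfd
  have hfin := (hX.retr hp).2
  obtain ⟨v', hv'0, hv'⟩ := finrank_eq_one_iff'.1 hfin
  obtain ⟨v, hvdef⟩ : ∃ v : E, v = (v' : E) := ⟨_, rfl⟩
  have hvt : v ∈ tang X p := by rw [hvdef]; exact v'.2
  have hv0 : v ≠ 0 := by
    rw [hvdef]
    intro h
    exact hv'0 (Subtype.ext h)
  have hspan : ∀ w ∈ tang X p, ∃ c : ℂ, c • v = w := by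
    intro w hw
    obtain ⟨c, hc⟩ := hv' ⟨w, hw⟩
    refine ⟨c, ?_⟩
    rw [hvdef]
    exact congrArg Subtype.val hc
  -- the coordinate
  obtain ⟨u, huv⟩ : ∃ u : E →L[ℂ] ℂ, u v = 1 := by
    refine ⟨(((‖v‖ : ℂ) ^ 2)⁻¹) • innerSL ℂ v, ?_⟩
    rw [smul_apply, innerSL_apply_apply, inner_self_eq_norm_sq_to_K, smul_eq_mul]
    have h1 : ((‖v‖ : ℂ)) ≠ 0 := by exact_mod_cast norm_ne_zero_iff.2 hv0
    exact inv_mul_cancel₀ (pow_ne_zero 2 h1)
  obtain ⟨ρ, U, hpU, hρ⟩ := hM.retr p hp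
  have hρp : ρ p = p := hρ.fix p hp hpU
  have hρv : fderiv ℂ ρ p v = v := (hρ.tan p hp hpU v).1 hvt
  have hρc : ContDiffAt ℂ 1 ρ p :=
    (contDiffOn_of_differentiableOn hρ.op hρ.diff).contDiffAt (hρ.op.mem_nhds hpU)
  let a : ℂ → E := fun z => p + z • v
  have ha : ContDiff ℂ 1 a := contDiff_const.add (contDiff_id.smul contDiff_const)
  have ha0 : a 0 = p := by simp [a]
  let k : ℂ → ℂ := fun z => u (ρ (a z) - p)
  have hkc : ContDiffAt ℂ 1 k 0 := by
    have h1 : ContDiffAt ℂ 1 (fun z => ρ (a z)) 0 := by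
      refine ContDiffAt.comp (0 : ℂ) ?_ ha.contDiffAt
      rw [ha0]
      exact hρc
    exact u.contDiff.contDiffAt.comp (0 : ℂ) (h1.sub contDiffAt_const)
  have hk0 : k 0 = 0 := by
    show u (ρ (a 0) - p) = 0
    rw [ha0, hρp, sub_self, map_zero]
  have hkd : HasFDerivAt k ((ContinuousLinearEquiv.refl ℂ ℂ : ℂ ≃L[ℂ] ℂ) : ℂ →L[ℂ] ℂ) 0 := by
    have h1 : HasDerivAt a v 0 := by
      have h2 := ((hasDerivAt_id (0 : ℂ)).smul_const v).const_add p
      rw [one_smul] at h2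
      exact h2
    have h3 : HasFDerivAt ρ (fderiv ℂ ρ p) (a 0) := by
      rw [ha0]
      exact (hρc.differentiableAt one_ne_zero).hasFDerivAt
    have h4 : HasDerivAt (fun z => ρ (a z)) (fderiv ℂ ρ p v) 0 := h3.comp_hasDerivAt (0 : ℂ) h1
    have h5 : HasDerivAt k (u (fderiv ℂ ρ p v)) 0 :=
      u.hasFDerivAt.comp_hasDerivAt (0 : ℂ) (h4.sub_const p)
    rw [hρv, huv] at h5
    have h6 := h5.hasFDerivAt
    have h7 : ContinuousLinearMap.toSpanSingleton ℂ (1 : ℂ) =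
        ((ContinuousLinearEquiv.refl ℂ ℂ : ℂ ≃L[ℂ] ℂ) : ℂ →L[ℂ] ℂ) := by
      ext
      simp
    rw [h7] at h6
    exact h6
  let e := hkc.toOpenPartialHomeomorph k hkd one_ne_zero
  have hes : (0 : ℂ) ∈ e.source := hkc.mem_toOpenPartialHomeomorph_source hkd one_ne_zero
  have hecoe : ∀ z, e z = k z := fun z => rfl
  have hψc : ContDiffAt ℂ 1 e.symm 0 := by
    have := hkc.to_localInverse hkd one_ne_zero
    rwa [hk0] at this
  have hψd : ∀ᶠ z in 𝓝 (0 : ℂ), DifferentiableAt ℂ e.symm z := by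
    have := hψc.eventually (by simp)
    filter_upwards [this] with z hz
    exact hz.differentiableAt one_ne_zero
  have hψ0 : e.symm 0 = 0 := by
    have := e.left_inv hes
    rwa [hecoe, hk0] at this
  have het : (0 : ℂ) ∈ e.target := by
    have := e.map_source hes
    rwa [hecoe, hk0] at this
  have hψcont : Tendsto e.symm (𝓝 0) (𝓝 0) := by
    have := hψc.continuousAt.tendsto
    rwa [hψ0] at this
  have hacont : Tendsto a (𝓝 0) (𝓝 p) := by
    have := ha.continuous.tendsto 0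
    rwa [ha0] at this
  let σ : ℂ → E := fun z => ρ (a (e.symm z))
  have hσ0 : σ 0 = p := by
    show ρ (a (e.symm 0)) = p
    rw [hψ0, ha0, hρp]
  -- the projection to the tangent space
  obtain ⟨P, hPt, -, hPe⟩ := hM.tangent_estimate hp
  set C : ℝ := 1 + ‖u‖ * ‖v‖ with hC
  have hCpos : 0 < C := by positivity
  obtain ⟨δ, hδ, hPδ⟩ := hPe (1 / (2 * C)) (by positivity)
  have huniq : ∀ x ∈ X, ∀ y ∈ X, dist x p < δ → dist y p < δ → u (y - x) = 0 → y = x := by
    intro x hx y hy hxδ hyδ hu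
    have h1 := hPδ y hy x hx hyδ hxδ
    obtain ⟨c, hc⟩ := hspan (P (y - x)) (hPt _)
    have h2 : c = u (P (y - x)) := by rw [← hc, map_smul, huv, smul_eq_mul, mul_one]
    have h3 : ‖c‖ ≤ ‖u‖ * (1 / (2 * C) * ‖y - x‖) := by
      have h4 : c = -u ((y - x) - P (y - x)) := by rw [map_sub, hu, h2]; ring
      rw [h4, norm_neg]
      exact (u.le_opNorm _).trans (mul_le_mul_of_nonneg_left h1 (norm_nonneg _))
    have h5 : ‖y - x‖ ≤ ‖(y - x) - P (y - x)‖ + ‖P (y - x)‖ := by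
      have := norm_add_le ((y - x) - P (y - x)) (P (y - x))
      rwa [sub_add_cancel] at this
    have h6 : ‖P (y - x)‖ ≤ ‖u‖ * (1 / (2 * C) * ‖y - x‖) * ‖v‖ := by
      rw [← hc, norm_smul]
      exact mul_le_mul_of_nonneg_right h3 (norm_nonneg _)
    have h7 : 1 / (2 * C) * ‖y - x‖ + ‖u‖ * (1 / (2 * C) * ‖y - x‖) * ‖v‖ = 1 / 2 * ‖y - x‖ := by
      have h8 : 1 / (2 * C) * ‖y - x‖ + ‖u‖ * (1 / (2 * C) * ‖y - x‖) * ‖v‖ =
          (1 / (2 * C) * C) * ‖y - x‖ := by rw [hC]; ring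
      rw [h8]
      congr 1
      field_simp
    have h9 : ‖y - x‖ ≤ 1 / 2 * ‖y - x‖ := by linarith
    have h10 : ‖y - x‖ ≤ 0 := by linarith [norm_nonneg (y - x)]
    exact sub_eq_zero.1 (norm_le_zero_iff.1 h10)
  -- everything near `0`
  have hU : ∀ᶠ z in 𝓝 (0 : ℂ), a (e.symm z) ∈ U :=
    (hacont.comp hψcont).eventually (hρ.op.mem_nhds hpU)
  have hσc : Tendsto σ (𝓝 0) (𝓝 p) := by
    have h1 : Tendsto ρ (𝓝 p) (𝓝 p) := by
      have := hρc.continuousAt.tendsto
      rwa [hρp] at this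
    exact h1.comp (hacont.comp hψcont)
  have hev : ∀ᶠ z in 𝓝 (0 : ℂ), z ∈ e.target ∧ DifferentiableAt ℂ e.symm z ∧ a (e.symm z) ∈ U ∧
      dist (σ z) p < δ := by
    filter_upwards [e.open_target.mem_nhds het, hψd, hU, hσc.eventually (Metric.ball_mem_nhds p hδ)]
      with z h1 h2 h3 h4
    exact ⟨h1, h2, h3, h4⟩
  obtain ⟨r, hr, hball⟩ := Metric.eventually_nhds_iff_ball.1 hev
  have hleft : ∀ z ∈ ball (0 : ℂ) r, u (σ z - p) = z := by
    intro z hz
    have h1 := e.right_inv (hball z hz).1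
    rwa [hecoe] at h1
  have hmapX : ∀ z ∈ ball (0 : ℂ) r, σ z ∈ X := fun z hz => hρ.maps _ (hball z hz).2.2.1
  refine ⟨σ, u, r, ball p δ ∩ {x | u (x - p) ∈ ball (0 : ℂ) r}, hr, ?_, ?_, hσ0, ?_, hleft, ?_⟩
  · refine isOpen_ball.inter (isOpen_ball.preimage ?_)
    exact u.continuous.comp (continuous_id.sub continuous_const)
  · intro z hz
    obtain ⟨-, h2, h3, -⟩ := hball z hz
    have h4 : DifferentiableAt ℂ (fun z => a (e.symm z)) z :=
      ((ha.differentiable one_ne_zero) (e.symm z)).comp z h2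
    have h5 : DifferentiableAt ℂ ρ (a (e.symm z)) := hρ.differentiableAt h3
    exact (h5.comp z h4).differentiableWithinAt
  · intro z hz
    refine ⟨hmapX z hz, (hball z hz).2.2.2, ?_⟩
    show u (σ z - p) ∈ ball (0 : ℂ) r
    rw [hleft z hz]
    exact hz
  · rintro x hx ⟨hxδ, hxr⟩
    have hxr' : u (x - p) ∈ ball (0 : ℂ) r := hxr
    refine ⟨hxr', ?_⟩
    refine huniq x hx _ (hmapX _ hxr') hxδ (hball _ hxr').2.2.2 ?_
    have h1 := hleft _ hxr'
    have h2 : σ (u (x - p)) - x = (σ (u (x - p)) - p) - (x - p) := by abel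
    rw [h2, map_sub, h1, sub_self]

end Pool.Agent.H47.TA
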