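import Pool.Agent.H47.TA.Chart1

/-!
# Module Chart2: small charts, tangent vectors

* `Chart.shrink`: immediate from the structure.
* `exists_chart_in`: `exists_chart`, then `σ` is continuous at `0`, so `σ (ball 0 r') ⊆ N` for small `r'`; the open set is `O ∩ {x | u (x - p) ∈ ball 0 r'} ∩ N`.
* `Chart.tan`: for an entire function `f` vanishing on `X` the function `f ∘ σ` vanishes near `z`, chain rule.
* `Chart.deriv_u`: differentiate `u (σ w - p) = w` at `z`.
* `Chart.diff_comp`: composition of `f`, differentiable within `X` at `σ z`, with `σ`, which maps a neighbourhood of `z` into `X`; the derivative is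
  `fderivWithin ℂ f X (σ z) (deriv σ z)`.
* `Chart.other`: `X` has a point different from `p` in every neighbourhood.
-/

set_option autoImplicit false

namespace Pool.Agent.H47.TA

open Set Filter Topology Metric H67.Tame

variable {E : Type*} [NormedAddCommGroup E] [InnerProductSpace ℂ E] [FiniteDimensional ℂ E]
variable {X : Set E} {p : E} {σ : ℂ → E} {u : E →L[ℂ] ℂ} {r : ℝ} {O : Set E}

private theorem chart_diffAt (h : Chart X p σ u r O) {z : ℂ} (hz : z ∈ ball (0 : ℂ) r) :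
    DifferentiableAt ℂ σ z :=
  h.diff.differentiableAt (isOpen_ball.mem_nhds hz)

theorem Chart.shrink (h : Chart X p σ u r O) {r' : ℝ} (h0 : 0 < r') (h1 : r' ≤ r) :
    Chart X p σ u r' (O ∩ {x | u (x - p) ∈ ball (0 : ℂ) r'}) := by
  have hsub : ball (0 : ℂ) r' ⊆ ball (0 : ℂ) r := ball_subset_ball h1
  refine ⟨h0, ?_, h.diff.mono hsub, h.zero, ?_, fun z hz => h.left z (hsub hz), ?_⟩
  · refine h.op.inter ?_
    exact isOpen_ball.preimage (u.continuous.comp (continuous_id.sub continuous_const))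
  · intro z hz
    have h2 := h.maps z (hsub hz)
    refine ⟨h2.1, h2.2, ?_⟩
    show u (σ z - p) ∈ ball (0 : ℂ) r'
    rw [h.left z (hsub hz)]
    exact hz
  · intro x hx hxO
    exact ⟨hxO.2, (h.right x hx hxO.1).2⟩

theorem exists_chart_in (hX : Submanifold X 1) {p : E} (hp : p ∈ X) {N : Set E} (hN : IsOpen N) (hpN : p ∈ N) :
    ∃ σ u r O, Chart X p σ u r O ∧ O ⊆ N := by
  obtain ⟨σ, u, r, O, h⟩ := exists_chart hX hp
  have hc : ContinuousAt σ 0 :=
    (h.diff.differentiableAt (isOpen_ball.mem_nhds (mem_ball_self h.pos))).continuousAt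
  have h2 : ∀ᶠ z in 𝓝 (0 : ℂ), σ z ∈ N :=
    hc.eventually_mem (by rw [h.zero]; exact hN.mem_nhds hpN)
  obtain ⟨δ, hδ, h3⟩ := Metric.eventually_nhds_iff_ball.1 h2
  have hr' : 0 < min r δ := lt_min h.pos hδ
  have h4 := h.shrink hr' (min_le_left _ _)
  refine ⟨σ, u, min r δ, (O ∩ {x | u (x - p) ∈ ball (0 : ℂ) (min r δ)}) ∩ N,
    ⟨h4.pos, h4.op.inter hN, h4.diff, h4.zero, ?_, h4.left, ?_⟩, inter_subset_right⟩
  · intro z hz
    exact ⟨(h4.maps z hz).1, (h4.maps z hz).2, h3 z (ball_subset_ball (min_le_right _ _) hz)⟩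
  · intro x hx hxO
    exact h4.right x hx hxO.1

theorem Chart.tan (h : Chart X p σ u r O) {z : ℂ} (hz : z ∈ ball (0 : ℂ) r) : deriv σ z ∈ tang X (σ z) := by
  intro f hf hf0
  have h1 : HasDerivAt (fun w => f (σ w)) (fderiv ℂ f (σ z) (deriv σ z)) z :=
    (hf (σ z)).hasFDerivAt.comp_hasDerivAt z (chart_diffAt h hz).hasDerivAt
  have h2 : (fun w => f (σ w)) =ᶠ[𝓝 z] fun _ => (0 : ℂ) := by
    filter_upwards [isOpen_ball.mem_nhds hz] with w hw
    exact hf0 _ (h.maps w hw).1
  exact (h1.congr_of_eventuallyEq h2.symm).unique (hasDerivAt_const z 0)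

theorem Chart.deriv_u (h : Chart X p σ u r O) {z : ℂ} (hz : z ∈ ball (0 : ℂ) r) : u (deriv σ z) = 1 := by
  have h1 : HasDerivAt (fun w => u (σ w - p)) (u (deriv σ z)) z :=
    u.hasFDerivAt.comp_hasDerivAt z ((chart_diffAt h hz).hasDerivAt.sub_const p)
  have h2 : (fun w => u (σ w - p)) =ᶠ[𝓝 z] fun w => w := by
    filter_upwards [isOpen_ball.mem_nhds hz] with w hw
    exact h.left w hw
  exact (h1.congr_of_eventuallyEq h2.symm).unique (hasDerivAt_id z)

theorem Chart.diff_comp {F : Type*} [NormedAddCommGroup F] [NormedSpace ℂ F] (h : Chart X p σ u r O) {f : E → F} {z : ℂ}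
    (hz : z ∈ ball (0 : ℂ) r) (hf : DifferentiableWithinAt ℂ f X (σ z)) :
    HasDerivAt (fun w => f (σ w)) (fderivWithin ℂ f X (σ z) (deriv σ z)) z := by
  have h2 : HasFDerivWithinAt f (fderivWithin ℂ f X (σ z)) X (σ z) := hf.hasFDerivWithinAt
  have h3 := h2.comp_hasDerivWithinAt (s := ball (0 : ℂ) r) z
    (chart_diffAt h hz).hasDerivAt.hasDerivWithinAt (fun w hw => (h.maps w hw).1)
  exact h3.hasDerivAt (isOpen_ball.mem_nhds hz)

theorem Chart.other (h : Chart X p σ u r O) : ∃ q ∈ X, q ∈ O ∧ q ≠ p := by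
  have hr := h.pos
  have hz : ((r / 2 : ℝ) : ℂ) ∈ ball (0 : ℂ) r := by
    rw [mem_ball_zero_iff, Complex.norm_real, Real.norm_eq_abs, abs_of_pos (by linarith)]
    linarith
  refine ⟨σ ((r / 2 : ℝ) : ℂ), (h.maps _ hz).1, (h.maps _ hz).2, ?_⟩
  intro he
  have h1 := h.left _ hz
  rw [he, sub_self, map_zero] at h1
  have h2 : (r / 2 : ℝ) = 0 := by exact_mod_cast h1.symm
  linarith

end Pool.Agent.H47.TA
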