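import Pool.Agent.H67.Tame.XCalc

/-!
# Module Comp: connected components of a submanifold

`connectedComponentIn X x0` is empty if `x0 ∉ X`. `comp_open`: `Mfd.locally_connected` (with `ε = 1`) gives a preconnected `W ⊆ X` with `X ∩ ball x δ ⊆ W`, and `x ∈ W`;
`IsPreconnected.subset_connectedComponentIn` and `connectedComponentIn_eq`. `comp_closed`: if `x ∈ X` is not in the component of `x0` then the neighbourhood
`X ∩ ball x δ` lies in the component of `x`, which is disjoint from that of `x0` (`connectedComponentIn_disjoint...` or `connectedComponentIn_eq`); and `X` is closed.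
`comp_sub`: the same functions, `X ∩ ball x δ` lies in the component. `tang_comp`: functions vanishing on `X` vanish on the component, so `tang (component) x ≤ tang X x`;
both have `finrank = n` (`Submanifold.retr`, second part, for `X` and for the component, `comp_sub`): `Submodule.eq_of_le_of_finrank_eq`.
-/

set_option autoImplicit false

namespace Pool.Agent.H47.TA

open Set Filter Topology Metric H67.Tame

variable {E : Type*} [NormedAddCommGroup E] [InnerProductSpace ℂ E] [FiniteDimensional ℂ E]
variable {X : Set E}

theorem comp_open (hX : Mfd X) {x0 x : E} (hx : x ∈ connectedComponentIn X x0) :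
    ∃ δ > 0, X ∩ ball x δ ⊆ connectedComponentIn X x0 := by
  have hxX : x ∈ X := connectedComponentIn_subset X x0 hx
  obtain ⟨W, hW, hWc, δ, hδ, hδW⟩ := hX.locally_connected hxX one_pos
  have hxW : x ∈ W := hδW ⟨hxX, mem_ball_self hδ⟩
  refine ⟨δ, hδ, hδW.trans ?_⟩
  rw [connectedComponentIn_eq hx]
  exact hWc.subset_connectedComponentIn hxW (hW.trans inter_subset_left)

theorem comp_closed (hX : Mfd X) (x0 : E) : IsClosed (connectedComponentIn X x0) := by
  apply isClosed_of_closure_subset
  intro x hx
  have hxX : x ∈ X := hX.closed.closure_subset_iff.2 (connectedComponentIn_subset X x0) hx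
  obtain ⟨δ, hδ, hδC⟩ := comp_open hX (mem_connectedComponentIn hxX)
  rw [Metric.mem_closure_iff] at hx
  obtain ⟨y, hy, hxy⟩ := hx δ hδ
  have hyX : y ∈ X := connectedComponentIn_subset X x0 hy
  have hy2 : y ∈ connectedComponentIn X x := hδC ⟨hyX, by rwa [mem_ball, dist_comm]⟩
  rw [connectedComponentIn_eq hy, ← connectedComponentIn_eq hy2]
  exact mem_connectedComponentIn hxX

theorem comp_sub {n : ℕ} (hX : Submanifold X n) (x0 : E) : Submanifold (connectedComponentIn X x0) n := by
  refine ⟨comp_closed hX.mfd x0, ?_⟩
  intro x hx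
  have hxX : x ∈ X := connectedComponentIn_subset X x0 hx
  obtain ⟨m, f, h1, h2, h3, h4, h5⟩ := hX.regular x hxX
  refine ⟨m, f, h1, h2, fun j y hy => h3 j y (connectedComponentIn_subset X x0 hy), h4, ?_⟩
  obtain ⟨δ, hδ, hδC⟩ := comp_open hX.mfd hx
  filter_upwards [h5, ball_mem_nhds x hδ] with y hy hyb h0
  exact hδC ⟨hy h0, hyb⟩

theorem tang_comp {n : ℕ} (hX : Submanifold X n) {x0 x : E} (hx : x ∈ connectedComponentIn X x0) :
    tang (connectedComponentIn X x0) x = tang X x := by
  have hxX : x ∈ X := connectedComponentIn_subset X x0 hx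
  apply Submodule.eq_of_le_of_finrank_eq
  · intro v hv f hf h0
    exact hv f hf fun y hy => h0 y (connectedComponentIn_subset X x0 hy)
  · rw [((comp_sub hX x0).retr hx).2, (hX.retr hxX).2]

end Pool.Agent.H47.TA
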