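import Pool.Agent.H47.TA.Comp
import Pool.Agent.H67.Tame.Stmt

/-!
# Module CompA: automorphisms and connected components

Notation: `Y = connectedComponentIn X x0`. `extend_aut`: `Φ x = Ψ x` for `x ∈ Y`, `Φ x = x` otherwise (`Equiv.Perm.extendDomain`-like; or define both directions by cases and check);
`Holo`: at `x ∈ Y` use the local extension on `U ∩ ball x δ` with `X ∩ ball x δ ⊆ Y` (`comp_open`), at `x ∈ X \ Y` the identity on a ball which misses the closed set `Y` (`comp_closed`).
`restrict_aut`: `Ψ x = Φ x`, inverse from `Φ.symm`; `hm` says that `Φ` and `Φ.symm` map `Y` into itself. `aut_comp`: `Φ` is a homeomorphism of `X` (`IsAut.homeo`):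
`Homeomorph.image_connectedComponent` or: `y ∈ connectedComponent x`, the image of `connectedComponent x` is preconnected and contains `Φ x` and `Φ y`.
`mem_comp_iff`: `connectedComponentIn X x` is the image of `connectedComponent ⟨x, hx⟩` (`connectedComponentIn_eq_image`).
-/

set_option autoImplicit false

namespace Pool.Agent.H47.TA

open Set Filter Topology Metric H67.Tame H67.Tame.Stmt

variable {E : Type*} [NormedAddCommGroup E] [InnerProductSpace ℂ E] [FiniteDimensional ℂ E]
variable {X : Set E}

theorem mem_comp_iff (x y : X) : (y : E) ∈ connectedComponentIn X (x : E) ↔ connectedComponent y = connectedComponent x := by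
  rw [connectedComponentIn_eq_image x.2]
  constructor
  · rintro ⟨z, hz, hzy⟩
    have h1 : z = y := Subtype.ext hzy
    subst h1
    exact (connectedComponent_eq hz).symm
  · intro h
    refine ⟨y, ?_, rfl⟩
    change y ∈ connectedComponent x
    rw [← h]
    exact mem_connectedComponent

private theorem holo_extend (hX : Mfd X) (x0 : E) {ψ : connectedComponentIn X x0 → connectedComponentIn X x0}
    (h : Holo (fun x => (ψ x : E))) {g : X → X}
    (h1 : ∀ x : connectedComponentIn X x0, (g ⟨x, connectedComponentIn_subset X x0 x.2⟩ : E) = ψ x)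
    (h2 : ∀ x : X, (x : E) ∉ connectedComponentIn X x0 → g x = x) : Holo (fun x => (g x : E)) := by
  intro x
  by_cases hx : (x : E) ∈ connectedComponentIn X x0
  · obtain ⟨δ, hδ, hb⟩ := comp_open hX hx
    obtain ⟨U, G, hU, hxU, hG, he⟩ := h ⟨x, hx⟩
    refine ⟨U ∩ ball x δ, G, hU.inter isOpen_ball, ⟨hxU, mem_ball_self hδ⟩,
      hG.mono inter_subset_left, fun y hy => ?_⟩
    have hyY : (y : E) ∈ connectedComponentIn X x0 := hb ⟨y.2, hy.2⟩
    exact (h1 ⟨y, hyY⟩).trans (he ⟨y, hyY⟩ hy.1)
  · refine ⟨(connectedComponentIn X x0)ᶜ, id, (comp_closed hX x0).isOpen_compl, hx,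
      differentiableOn_id, fun y hy => ?_⟩
    change (g y : E) = y
    rw [h2 y hy]

theorem extend_aut {n : ℕ} (hX : Submanifold X n) (x0 : E) {Ψ : connectedComponentIn X x0 ≃ connectedComponentIn X x0}
    (h : IsAut Ψ) : ∃ Φ : X ≃ X, IsAut Φ ∧
      ∀ x : connectedComponentIn X x0, (Φ ⟨x, connectedComponentIn_subset X x0 x.2⟩ : E) = Ψ x := by
  classical
  let f : connectedComponentIn X x0 ≃ {x : X // (x : E) ∈ connectedComponentIn X x0} :=
    { toFun := fun y => ⟨⟨y, connectedComponentIn_subset X x0 y.2⟩, y.2⟩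
      invFun := fun z => ⟨z.1.1, z.2⟩
      left_inv := fun y => rfl
      right_inv := fun z => rfl }
  have h1 : ∀ (e : Equiv.Perm (connectedComponentIn X x0)) (x : connectedComponentIn X x0),
      ((e.extendDomain f) ⟨x, connectedComponentIn_subset X x0 x.2⟩ : E) = e x := by
    intro e x
    have := Equiv.Perm.extendDomain_apply_image e f x
    exact congrArg (fun z : X => (z : E)) this
  have h2 : ∀ (e : Equiv.Perm (connectedComponentIn X x0)) (x : X),
      (x : E) ∉ connectedComponentIn X x0 → (e.extendDomain f) x = x :=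
    fun e x hx => Equiv.Perm.extendDomain_apply_not_subtype e f hx
  refine ⟨Equiv.Perm.extendDomain Ψ f, ⟨?_, ?_⟩, h1 Ψ⟩
  · exact holo_extend hX.mfd x0 h.1 (h1 Ψ) (h2 Ψ)
  · have h3 : (Equiv.Perm.extendDomain Ψ f).symm = Equiv.Perm.extendDomain Ψ.symm f :=
      Equiv.Perm.extendDomain_symm Ψ f
    have h4 := holo_extend hX.mfd x0 (g := fun x => Equiv.Perm.extendDomain Ψ.symm f x) h.2
      (h1 Ψ.symm) (h2 Ψ.symm)
    rw [h3]
    exact h4

theorem restrict_aut (x0 : E) {Φ : X ≃ X} (h : IsAut Φ)
    (hm : ∀ x : X, (x : E) ∈ connectedComponentIn X x0 ↔ (Φ x : E) ∈ connectedComponentIn X x0) :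
    ∃ Ψ : connectedComponentIn X x0 ≃ connectedComponentIn X x0, IsAut Ψ ∧
      ∀ x : connectedComponentIn X x0, (Ψ x : E) = Φ ⟨x, connectedComponentIn_subset X x0 x.2⟩ := by
  have hm' : ∀ x : X, (x : E) ∈ connectedComponentIn X x0 →
      (Φ.symm x : E) ∈ connectedComponentIn X x0 := by
    intro x hx
    rw [hm, Equiv.apply_symm_apply]
    exact hx
  let Ψ : connectedComponentIn X x0 ≃ connectedComponentIn X x0 :=
    { toFun := fun x => ⟨Φ ⟨x, connectedComponentIn_subset X x0 x.2⟩, (hm _).1 x.2⟩
      invFun := fun x => ⟨Φ.symm ⟨x, connectedComponentIn_subset X x0 x.2⟩, hm' _ x.2⟩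
      left_inv := fun x => by
        apply Subtype.ext
        simp
      right_inv := fun x => by
        apply Subtype.ext
        simp }
  refine ⟨Ψ, ⟨fun x => ?_, fun x => ?_⟩, fun x => rfl⟩
  · obtain ⟨U, G, hU, hxU, hG, he⟩ := h.1 ⟨x, connectedComponentIn_subset X x0 x.2⟩
    exact ⟨U, G, hU, hxU, hG, fun y hy => he ⟨y, connectedComponentIn_subset X x0 y.2⟩ hy⟩
  · obtain ⟨U, G, hU, hxU, hG, he⟩ := h.2 ⟨x, connectedComponentIn_subset X x0 x.2⟩
    exact ⟨U, G, hU, hxU, hG, fun y hy => he ⟨y, connectedComponentIn_subset X x0 y.2⟩ hy⟩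

theorem aut_comp {Φ : X ≃ X} (h : IsAut Φ) {x y : X} (hxy : connectedComponent x = connectedComponent y) :
    connectedComponent (Φ x) = connectedComponent (Φ y) := by
  have h1 : y ∈ connectedComponent x := by
    rw [hxy]
    exact mem_connectedComponent
  have h2 : h.homeo '' connectedComponent x ⊆ connectedComponent (h.homeo x) :=
    h.homeo.continuous.image_connectedComponent_subset x
  exact connectedComponent_eq (h2 (mem_image_of_mem _ h1))

end Pool.Agent.H47.TA
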