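import Pool.Agent.H47.TA.Comp
import Pool.Agent.H67.Tame.Stmt

/-!
# Module CompD: the density property passes to connected components

Notation: `Y = connectedComponentIn X x0`, `res V` is the restriction of `V : X → E` to `Y`.
`lieAlg_res`: induction on `LieAlg`. `gen`: `res V` is a field (`Holo`: same local extension; `tang Y x = tang X x` by `tang_comp`) and has the property `C'` (`hC`). `add`, `smul`: by definition.
`bracket`: the same `U, V', W'`.
`isDense_comp`: let `V` be a field on `Y`, `K ⊆ Y` compact. Extend `V` by `0` to `X`: this is a field on `X`: at `x ∈ Y` use the local extension `g` on `U ∩ ball x δ` with `X ∩ ball x δ ⊆ Y`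
(`comp_open`), at `x ∈ X \ Y` the zero function on a ball which misses `Y` (`comp_closed`); tangent by `tang_comp`. Approximate the extension on the image of `K` in `X` and restrict (`lieAlg_res`).
`real_res`, `complex_res`: the integral curve `γ : ℝ → X` with `γ 0 = x ∈ Y` is continuous (`HasDerivAt.continuousAt` for `s ↦ (γ s : E)`), so its range (in `E`) is connected, contained in `X`
and contains `x`, hence contained in `Y` (`IsPreconnected.subset_connectedComponentIn`).
-/

set_option autoImplicit false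

namespace Pool.Agent.H47.TA

open Set Filter Topology Metric H67.Tame H67.Tame.Stmt

variable {E : Type*} [NormedAddCommGroup E] [InnerProductSpace ℂ E] [FiniteDimensional ℂ E]
variable {X : Set E}

/-- the restriction to the component of `x0` -/
def res (x0 : E) {F : Type*} (V : X → F) : connectedComponentIn X x0 → F :=
  fun x => V ⟨x, connectedComponentIn_subset X x0 x.2⟩

private theorem cd_field {n : ℕ} (hX : Submanifold X n) (x0 : E) {V : X → E} (h : IsField V) : IsField (res x0 V) := by
  constructor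
  · intro x
    obtain ⟨U, g, hU, hx, hg, he⟩ := h.1 ⟨x, connectedComponentIn_subset X x0 x.2⟩
    exact ⟨U, g, hU, hx, hg, fun y hy => he ⟨y, connectedComponentIn_subset X x0 y.2⟩ hy⟩
  · intro x
    rw [tang_comp hX x.2]
    exact h.2 ⟨x, connectedComponentIn_subset X x0 x.2⟩

private theorem cd_in {T : Type*} [TopologicalSpace T] [PreconnectedSpace T] (x0 : E) {x : E} (hx : x ∈ connectedComponentIn X x0)
    (γ : T → X) (t0 : T) (h0 : (γ t0 : E) = x) (hc : Continuous fun t => (γ t : E)) (t : T) : (γ t : E) ∈ connectedComponentIn X x0 := by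
  have h1 : IsPreconnected (range fun t => (γ t : E)) := isPreconnected_range hc
  have h2 : (range fun t => (γ t : E)) ⊆ X := by
    rintro _ ⟨s, rfl⟩
    exact (γ s).2
  have h3 : x ∈ range fun t => (γ t : E) := ⟨t0, h0⟩
  have h4 := h1.subset_connectedComponentIn h3 h2 ⟨t, rfl⟩
  rwa [← connectedComponentIn_eq hx] at h4

theorem lieAlg_res {n : ℕ} (hX : Submanifold X n) (x0 : E) {𝕜 : Type} [NormedField 𝕜] [NormedSpace 𝕜 E] {C : (X → E) → Prop}
    {C' : (connectedComponentIn X x0 → E) → Prop} (hC : ∀ V : X → E, IsField V → C V → C' (res x0 V)) {V : X → E}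
    (h : LieAlg 𝕜 C V) : LieAlg 𝕜 C' (res x0 V) := by
  induction h with
  | gen V hV hc => exact LieAlg.gen _ (cd_field hX x0 hV) (hC V hV hc)
  | add V W _ _ ihV ihW => exact LieAlg.add _ _ ihV ihW
  | smul c V _ ih => exact LieAlg.smul c _ ih
  | bracket V W Z _ _ hZ ihV ihW =>
    refine LieAlg.bracket _ _ _ ihV ihW fun x => ?_
    obtain ⟨U, V', W', hU, hx, hdV, hdW, he, hZx⟩ := hZ ⟨x, connectedComponentIn_subset X x0 x.2⟩
    exact ⟨U, V', W', hU, hx, hdV, hdW, fun y hy => he ⟨y, connectedComponentIn_subset X x0 y.2⟩ hy, hZx⟩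

theorem isDense_comp {n : ℕ} (hX : Submanifold X n) (x0 : E) {𝕜 : Type} [NormedField 𝕜] [NormedSpace 𝕜 E] {C : (X → E) → Prop}
    {C' : (connectedComponentIn X x0 → E) → Prop} (hC : ∀ V : X → E, IsField V → C V → C' (res x0 V))
    (h : IsDense (LieAlg 𝕜 C)) : IsDense (LieAlg 𝕜 C') := by
  classical
  intro V hV K hK ε hε
  obtain ⟨Vx, hVx⟩ : ∃ Vx : X → E, ∀ x : X, Vx x = if hx : (x : E) ∈ connectedComponentIn X x0 then V ⟨x, hx⟩ else 0 :=
    ⟨_, fun _ => rfl⟩
  have hin : ∀ (x : X) (hx : (x : E) ∈ connectedComponentIn X x0), Vx x = V ⟨x, hx⟩ := fun x hx => by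
    rw [hVx, dif_pos hx]
  have hout : ∀ x : X, (x : E) ∉ connectedComponentIn X x0 → Vx x = 0 := fun x hx => by
    rw [hVx, dif_neg hx]
  have hF : IsField Vx := by
    constructor
    · intro x
      by_cases hx : (x : E) ∈ connectedComponentIn X x0
      · obtain ⟨U, g, hU, hxU, hg, he⟩ := hV.1 ⟨x, hx⟩
        obtain ⟨δ, hδ, hδs⟩ := comp_open hX.mfd hx
        refine ⟨U ∩ ball (x : E) δ, g, hU.inter isOpen_ball, ⟨hxU, mem_ball_self hδ⟩, hg.mono inter_subset_left, fun y hy => ?_⟩
        have hy' : (y : E) ∈ connectedComponentIn X x0 := hδs ⟨y.2, hy.2⟩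
        rw [hin y hy']
        exact he ⟨y, hy'⟩ hy.1
      · refine ⟨(connectedComponentIn X x0)ᶜ, fun _ => 0, (comp_closed hX.mfd x0).isOpen_compl, hx, differentiableOn_const _,
          fun y hy => hout y hy⟩
    · intro x
      by_cases hx : (x : E) ∈ connectedComponentIn X x0
      · rw [hin x hx, ← tang_comp hX hx]
        exact hV.2 ⟨x, hx⟩
      · rw [hout x hx]
        exact Submodule.zero_mem _
  have hι : Continuous fun y : connectedComponentIn X x0 => (⟨y, connectedComponentIn_subset X x0 y.2⟩ : X) :=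
    continuous_subtype_val.subtype_mk _
  obtain ⟨W, hW, hWK⟩ := h Vx hF _ (hK.image hι) ε hε
  refine ⟨res x0 W, lieAlg_res hX x0 hC hW, fun x hx => ?_⟩
  have h1 := hWK _ (mem_image_of_mem _ hx)
  rw [hin ⟨x, connectedComponentIn_subset X x0 x.2⟩ x.2] at h1
  exact h1

theorem real_res (x0 : E) {V : X → E} (h : RealComplete V) : RealComplete (res x0 V) := by
  intro x
  obtain ⟨γ, h0, h1⟩ := h ⟨x, connectedComponentIn_subset X x0 x.2⟩
  have hc : Continuous fun t => (γ t : E) := continuous_iff_continuousAt.2 fun t => (h1 t).continuousAt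
  have h2 : (γ 0 : E) = x := by rw [h0]
  exact ⟨fun t => ⟨γ t, cd_in x0 x.2 γ 0 h2 hc t⟩, Subtype.ext h2, fun t => h1 t⟩

theorem complex_res (x0 : E) {V : X → E} (h : ComplexComplete V) : ComplexComplete (res x0 V) := by
  intro x
  obtain ⟨γ, h0, h1⟩ := h ⟨x, connectedComponentIn_subset X x0 x.2⟩
  have hc : Continuous fun t => (γ t : E) := continuous_iff_continuousAt.2 fun t => (h1 t).continuousAt
  have h2 : (γ 0 : E) = x := by rw [h0]
  exact ⟨fun t => ⟨γ t, cd_in x0 x.2 γ 0 h2 hc t⟩, Subtype.ext h2, fun t => h1 t⟩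

theorem density_comp {n : ℕ} (hX : Submanifold X n) (x0 : E) (h : DensityC X ∨ DensityR X) :
    DensityC (connectedComponentIn X x0) ∨ DensityR (connectedComponentIn X x0) :=
  h.imp (fun h => isDense_comp hX x0 (fun _ _ hV => complex_res x0 hV) h)
    fun h => isDense_comp hX x0 (fun _ _ hV => real_res x0 hV) h

end Pool.Agent.H47.TA
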