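import Pool.Agent.H47.TA.CompA
import Pool.Agent.H47.TA.AW1

/-!
# Module CompW: a weakly tame set in one component is weakly tame there, up to finitely many points

Notation: `Y = connectedComponentIn X x0`. `X` is a proper metric space (`ProperSpace.of_isClosed`), second countable, with open components (`comp_open`), so there is a dense sequence `d : ℕ → X`
(`TopologicalSpace.denseSeq`; `X` is nonempty) and every component contains some `d k`; let `κ x` be the least `k` with `connectedComponent (d k) = connectedComponent x`.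
For every `k` choose, if possible, an automorphism `A k` of `X` with `IsAut (A k)` and `connectedComponent (A k x0) = connectedComponent (d k)` (`x0` as an element of `X`); `A k = 1` otherwise.
Let compact sets `L n ⊆ Y` be given, `ι : Y → X` the inclusion. `L' n = ⋃ k ≤ n, A k '' (ι '' L n)` is compact in `X`. `hD.int : H67.Tame.WeaklyTame (Aut X) D` (`Stmt.lean`) and `WeaklyTame.seq`
(`Abs5.lean`) give `Φ ∈ Aut X` with `Φ (e n) ∉ L' n` for all `n`. Let `k = κ (Φ x0)`; `A k` maps the component of `x0` to that of `Φ x0`, so `(A k)⁻¹ * Φ` maps the component of `x0` to itself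
(`aut_comp`, `mem_comp_iff`) and restricts to an automorphism `Ψ` of `Y` (`restrict_aut`, `IsAut.mem`/`IsAut.homeo`). For `n ≥ k`: `Φ (e n) ∉ A k '' (ι '' L n)`, so `Ψ (e n) ∉ L n`.
`awt_closed`: from `WT.disc` (`Abs2.lean`) for `hD.int.seq e` and `isClosed_tail`, as in `tame_of_weaklyTame` (`Abs4.lean`).
-/

set_option autoImplicit false

namespace Pool.Agent.H47.TA

open Set Filter Topology Metric H67.Tame H67.Tame.Stmt

variable {E : Type*} [NormedAddCommGroup E] [InnerProductSpace ℂ E] [FiniteDimensional ℂ E]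
variable {X : Set E}

theorem weaklyTame_closed (hX : IsClosed X) {D : Set X} (hD : Stmt.WeaklyTame D) : IsClosed D := by
  have : ProperSpace X := ProperSpace.of_isClosed hX
  obtain ⟨e⟩ := hD.int.exists_enum
  have hs := hD.int.seq e
  have h1 := isClosed_tail (fun K hK => hs.disc hK) univ
  have h2 : (fun n => (e n : X)) '' univ = D := by
    ext y
    constructor
    · rintro ⟨n, -, rfl⟩
      exact (e n).2
    · intro hy
      exact ⟨e.symm ⟨y, hy⟩, trivial, by simp⟩
  rwa [h2] at h1

theorem awt_comp {n : ℕ} (hX : Submanifold X n) (x0 : E) {D : Set X} (hD : Stmt.WeaklyTame D) (e : ℕ ≃ D)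
    (hc : ∀ x ∈ D, (x : E) ∈ connectedComponentIn X x0) :
    AWT (Aut (connectedComponentIn X x0)) (fun k => ⟨((e k : X) : E), hc _ (e k).2⟩) := by
  classical
  have hpr : ProperSpace X := ProperSpace.of_isClosed hX.closed
  have hx0 : x0 ∈ X := by
    by_contra hcon
    have h1 := hc _ (e 0).2
    rw [connectedComponentIn_eq_empty hcon] at h1
    exact h1
  obtain ⟨y0, hy0⟩ : ∃ y0 : X, (y0 : E) = x0 := ⟨⟨x0, hx0⟩, rfl⟩
  subst hy0
  intro L hL
  let ι : connectedComponentIn X (y0 : E) → X := fun y => ⟨y, connectedComponentIn_subset X (y0 : E) y.2⟩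
  have hι : Continuous ι := continuous_subtype_val.subtype_mk _
  have hne : Nonempty X := ⟨y0⟩
  -- every component contains a point of the dense sequence
  have hden : ∀ x : X, ∃ k, connectedComponent (TopologicalSpace.denseSeq X k) = connectedComponent x := by
    intro x
    obtain ⟨δ, hδ, h1⟩ := comp_open hX.mfd (mem_connectedComponentIn x.2 : (x : E) ∈ connectedComponentIn X (x : E))
    obtain ⟨k, hk⟩ := (TopologicalSpace.denseRange_denseSeq X).exists_mem_open (isOpen_ball (x := x) (ε := δ))
      ⟨x, mem_ball_self hδ⟩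
    refine ⟨k, ?_⟩
    rw [← mem_comp_iff x]
    exact h1 ⟨(TopologicalSpace.denseSeq X k).2, hk⟩
  have hAex : ∀ k : ℕ, ∃ g ∈ Aut X, (∃ g' ∈ Aut X, connectedComponent (g' y0) =
      connectedComponent (TopologicalSpace.denseSeq X k)) →
      connectedComponent (g y0) = connectedComponent (TopologicalSpace.denseSeq X k) := by
    intro k
    by_cases h : ∃ g' ∈ Aut X, connectedComponent (g' y0) = connectedComponent (TopologicalSpace.denseSeq X k)
    · obtain ⟨g', h1, h2⟩ := h
      exact ⟨g', h1, fun _ => h2⟩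
    · exact ⟨1, (Aut X).one_mem, fun h1 => absurd h1 h⟩
  choose A hA hAk using hAex
  let L' : ℕ → Set X := fun n => ⋃ k ∈ Finset.range (n + 1), A k '' (ι '' L n)
  have hL' : ∀ n, IsCompact (L' n) := fun n =>
    (Finset.range (n + 1)).isCompact_biUnion fun k _ => ((hL n).image hι).image (A k).continuous
  obtain ⟨Φ, hΦ, hΦL⟩ := hD.int.seq e L' hL'
  obtain ⟨k, hk⟩ := hden (Φ y0)
  have hAk' : connectedComponent (A k y0) = connectedComponent (Φ y0) := (hAk k ⟨Φ, hΦ, hk.symm⟩).trans hk
  have hmap : ∀ g ∈ Aut X, ∀ x y : X, connectedComponent x = connectedComponent y →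
      connectedComponent (g x) = connectedComponent (g y) := by
    intro g hg x y hxy
    exact aut_comp (isAut_of_mem hX.mfd hg) hxy
  have hg : (A k)⁻¹ * Φ ∈ Aut X := (Aut X).mul_mem ((Aut X).inv_mem (hA k)) hΦ
  have hgy : connectedComponent (((A k)⁻¹ * Φ) y0) = connectedComponent y0 := by
    have h1 := hmap _ ((Aut X).inv_mem (hA k)) _ _ hAk'
    have h2 : (A k)⁻¹ (A k y0) = y0 := by simp [Homeomorph.inv_apply]
    rw [h2] at h1
    exact h1.symm
  have hm : ∀ x : X, (x : E) ∈ connectedComponentIn X (y0 : E) ↔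
      ((((A k)⁻¹ * Φ).toEquiv x : X) : E) ∈ connectedComponentIn X (y0 : E) := by
    intro x
    rw [mem_comp_iff, mem_comp_iff]
    constructor
    · intro h
      exact (hmap _ hg _ _ h).trans hgy
    · intro h
      have h1 : connectedComponent (((A k)⁻¹ * Φ) x) = connectedComponent (((A k)⁻¹ * Φ) y0) := h.trans hgy.symm
      have h2 := hmap _ ((Aut X).inv_mem hg) _ _ h1
      have h3 : ∀ z : X, ((A k)⁻¹ * Φ)⁻¹ (((A k)⁻¹ * Φ) z) = z := by
        intro z
        rw [← Homeomorph.mul_apply, inv_mul_cancel]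
        rfl
      rwa [h3, h3] at h2
  obtain ⟨Ψ, hΨ, hΨe⟩ := restrict_aut (y0 : E) (isAut_of_mem hX.mfd hg) hm
  refine ⟨hΨ.homeo, hΨ.mem, k, fun m hm' hmem => ?_⟩
  apply hΦL m
  simp only [L', mem_iUnion, Finset.mem_range]
  refine ⟨k, by omega, ((A k)⁻¹ * Φ) (e m), ⟨_, hmem, ?_⟩, ?_⟩
  · apply Subtype.ext
    exact hΨe _
  · simp [Homeomorph.mul_apply, Homeomorph.inv_apply]

end Pool.Agent.H47.TA
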