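import Pool.Agent.H47.TA.Fin

/-!
# The criterion for sets with at most one point in each component

Let `D` be an infinite set with at most one point in each component of `X`. Then `D` is tame iff any two points of `D` are
exchanged by automorphisms of `X` (the components which meet `D` are biholomorphic) and infinitely many of the components
biholomorphic to these do not meet `D`.
-/

set_option autoImplicit false

namespace Pool.Agent.H47.TA

open Set Filter Topology Metric H67.Tame H67.Tame.Stmt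

section ext

/-- extension of an injection to a permutation -/
theorem ext_inj {α S : Type*} [Countable S] (u v : α → S) (hu : Function.Injective u) (hv : Function.Injective v)
    (hu' : (range u)ᶜ.Infinite) (hv' : (range v)ᶜ.Infinite) : ∃ β : S ≃ S, ∀ a, β (u a) = v a := by
  classical
  have i1 : Infinite ↥(range u)ᶜ := hu'.to_subtype
  have i2 : Infinite ↥(range v)ᶜ := hv'.to_subtype
  obtain ⟨e2⟩ : Nonempty (↥(range u)ᶜ ≃ ↥(range v)ᶜ) := nonempty_equiv_of_countable
  let e1 : range u ≃ range v := (Equiv.ofInjective u hu).symm.trans (Equiv.ofInjective v hv)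
  refine ⟨(Equiv.Set.sumCompl (range u)).symm.trans ((Equiv.sumCongr e1 e2).trans (Equiv.Set.sumCompl (range v))),
    fun a => ?_⟩
  have h1 : (Equiv.Set.sumCompl (range u)).symm (u a) = Sum.inl ⟨u a, a, rfl⟩ :=
    Equiv.Set.sumCompl_symm_apply_of_mem (mem_range_self a)
  have h2 : (Equiv.ofInjective u hu).symm ⟨u a, a, rfl⟩ = a := by
    rw [Equiv.symm_apply_eq]
    rfl
  rw [Equiv.trans_apply, Equiv.trans_apply, h1, Equiv.sumCongr_apply, Sum.map_inl, Equiv.Set.sumCompl_apply_inl]
  change ((Equiv.ofInjective v hv) ((Equiv.ofInjective u hu).symm ⟨u a, a, rfl⟩) : S) = v a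
  rw [h2]
  rfl

end ext

variable {E : Type*} [NormedAddCommGroup E] [InnerProductSpace ℂ E] [FiniteDimensional ℂ E]
variable {X : Set E}

theorem isAut_symm {Φ : X ≃ X} (h : IsAut Φ) : IsAut Φ.symm := ⟨h.2, h.1⟩

theorem isAut_trans (hX : Mfd X) {Φ Ψ : X ≃ X} (h : IsAut Φ) (h' : IsAut Ψ) : IsAut (Φ.trans Ψ) := by
  have h1 := isAut_of_mem hX (mul_mem h'.mem h.mem)
  exact h1

theorem isAut_refl (hX : Mfd X) : IsAut (Equiv.refl X) := by
  have h1 := isAut_of_mem hX (one_mem (Aut X))
  exact h1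

theorem isOpen_comp (hX : Mfd X) (x : X) : IsOpen (connectedComponent x) := by
  rw [Metric.isOpen_iff]
  intro y hy
  have hy' : connectedComponent y = connectedComponent x := (connectedComponent_eq hy).symm
  obtain ⟨δ, hδ, h⟩ := comp_open hX ((mem_comp_iff x y).2 hy')
  refine ⟨δ, hδ, fun z hz => ?_⟩
  have h1 := (mem_comp_iff x z).1 (h ⟨z.2, hz⟩)
  rw [← h1]
  exact mem_connectedComponent

theorem countable_comp (hX : Mfd X) : Countable (ConnectedComponents X) := by
  obtain ⟨s, hs, hd⟩ := TopologicalSpace.exists_countable_dense X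
  have : Countable s := hs.to_subtype
  refine Function.Surjective.countable (f := fun x : s => ((x : X) : ConnectedComponents X)) fun c => ?_
  obtain ⟨x, rfl⟩ := ConnectedComponents.surjective_coe c
  obtain ⟨y, hy, hys⟩ := hd.inter_open_nonempty _ (isOpen_comp hX x) ⟨x, mem_connectedComponent⟩
  exact ⟨⟨y, hys⟩, ConnectedComponents.coe_eq_coe.2 (connectedComponent_eq hy).symm⟩

/-- a map which agrees on every component with a holomorphic one -/
theorem holo_glue (hX : Mfd X) {F : X → X} {Ψ : ConnectedComponents X → X → X}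
    (hΨ : ∀ c, Holo fun x => (Ψ c x : E)) {κ : ConnectedComponents X → ConnectedComponents X}
    (hF : ∀ x : X, F x = Ψ (κ x) x) : Holo fun x => (F x : E) := by
  intro x
  obtain ⟨U, g, hU, hxU, hg, he⟩ := hΨ (κ x) x
  obtain ⟨δ, hδ, hb⟩ := comp_open hX ((mem_comp_iff x x).2 rfl)
  refine ⟨U ∩ ball x δ, g, hU.inter isOpen_ball, ⟨hxU, mem_ball_self hδ⟩, hg.mono inter_subset_left, fun y hy => ?_⟩
  have h1 : ((y : X) : ConnectedComponents X) = x :=
    ConnectedComponents.coe_eq_coe.2 ((mem_comp_iff x y).1 (hb ⟨y.2, hy.2⟩))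
  change (F y : E) = g y
  rw [hF y, h1]
  exact he y hy.1

theorem aut_comp' {Φ : X ≃ X} (h : IsAut Φ) {x y : X} (hxy : (x : ConnectedComponents X) = y) :
    (Φ x : ConnectedComponents X) = Φ y :=
  ConnectedComponents.coe_eq_coe.2 (aut_comp h (ConnectedComponents.coe_eq_coe.1 hxy))

/-- gluing automorphisms which permute the components -/
theorem glue_aut (hX : Mfd X) (β : ConnectedComponents X ≃ ConnectedComponents X) (Ψ : ConnectedComponents X → (X ≃ X))
    (hΨ : ∀ c, IsAut (Ψ c)) (hβ : ∀ x : X, ((Ψ x) x : ConnectedComponents X) = β x) :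
    ∃ F : X ≃ X, IsAut F ∧ ∀ x : X, F x = Ψ x x := by
  have hinv : ∀ y : X, (((Ψ (β.symm y)).symm y : X) : ConnectedComponents X) = β.symm y := by
    intro y
    obtain ⟨x, hx⟩ := ConnectedComponents.surjective_coe (β.symm (y : ConnectedComponents X))
    have h1 : ((Ψ x) x : ConnectedComponents X) = y := by
      rw [hβ x, hx, Equiv.apply_symm_apply]
    have h2 := aut_comp' (isAut_symm (hΨ x)) h1
    rw [Equiv.symm_apply_apply] at h2
    rw [← hx]
    exact h2.symm
  let F : X ≃ X :=
    { toFun := fun x => Ψ x x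
      invFun := fun y => (Ψ (β.symm y)).symm y
      left_inv := fun x => by
        simp only
        rw [hβ x, Equiv.symm_apply_apply, Equiv.symm_apply_apply]
      right_inv := fun y => by
        simp only
        rw [hinv y, Equiv.apply_symm_apply] }
  refine ⟨F, ⟨?_, ?_⟩, fun x => rfl⟩
  · exact holo_glue hX (Ψ := fun c x => Ψ c x) (κ := fun c => c) (fun c => (hΨ c).1) fun x => rfl
  · exact holo_glue hX (Ψ := fun c x => (Ψ c).symm x) (κ := fun c => β.symm c) (fun c => (hΨ c).2) fun x => rfl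

/-- the components of the type of those which meet `D`, not meeting `D` -/
def Extra (D : Set X) : Set (ConnectedComponents X) :=
  {c | (∀ x ∈ D, (x : ConnectedComponents X) ≠ c) ∧ ∃ Φ : X ≃ X, IsAut Φ ∧ ∃ x ∈ D, (Φ x : ConnectedComponents X) = c}

theorem tame_crit {n : ℕ} (hX : Submanifold X n) {D : Set X} (hT : Stmt.Tame D)
    (h1 : ∀ x ∈ D, ∀ y ∈ D, x ≠ y → connectedComponent x ≠ connectedComponent y) :
    (∀ x ∈ D, ∀ y ∈ D, ∃ Φ : X ≃ X, IsAut Φ ∧ Φ x = y) ∧ (Extra D).Infinite := by
  classical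
  have : ProperSpace X := ProperSpace.of_isClosed hX.closed
  have h1' : ∀ x ∈ D, ∀ y ∈ D, (x : ConnectedComponents X) = y → x = y := by
    intro x hx y hy hxy
    by_contra hne
    exact h1 x hx y hy hne (ConnectedComponents.coe_eq_coe.1 hxy)
  constructor
  · intro x hx y hy
    obtain ⟨F, hF, hF1⟩ := hT.2.2.2 (Equiv.swap ⟨x, hx⟩ ⟨y, hy⟩) (Equiv.injective _)
    refine ⟨F, hF, ?_⟩
    have h2 := hF1 ⟨x, hx⟩
    rw [Equiv.swap_apply_left] at h2
    exact h2
  · obtain ⟨e⟩ := (Tame.weaklyTame hT).int.exists_enum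
    obtain ⟨F, hF, hF1⟩ := hT.2.2.2 (fun x => e (2 * e.symm x)) (fun a b hab => by
      have h2 := e.injective hab
      exact e.symm.injective (by omega))
    have hF2 : ∀ n, F (e n) = e (2 * n) := by
      intro n
      have h2 := hF1 (e n)
      rw [Equiv.symm_apply_apply] at h2
      exact h2
    refine Set.infinite_of_injective_forall_mem (f := fun n : ℕ => ((F.symm (e (2 * n + 1)) : X) : ConnectedComponents X)) ?_ ?_
    · intro n m hnm
      have h2 := aut_comp' hF hnm
      rw [Equiv.apply_symm_apply, Equiv.apply_symm_apply] at h2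
      have h3 := e.injective (Subtype.ext (h1' _ (e _).2 _ (e _).2 h2))
      omega
    · intro n
      refine ⟨fun x hx hxe => ?_, F.symm, isAut_symm hF, e (2 * n + 1), (e _).2, rfl⟩
      have h2 := aut_comp' hF hxe
      rw [Equiv.apply_symm_apply] at h2
      have h3 := hF2 (e.symm ⟨x, hx⟩)
      rw [Equiv.apply_symm_apply] at h3
      change F x = _ at h3
      rw [h3] at h2
      have h4 := e.injective (Subtype.ext (h1' _ (e _).2 _ (e _).2 h2))
      omega

theorem crit_tame {n : ℕ} (hX : Submanifold X n) {D : Set X} (hinf : D.Infinite)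
    (h1 : ∀ x ∈ D, ∀ y ∈ D, x ≠ y → connectedComponent x ≠ connectedComponent y)
    (h2 : ∀ x ∈ D, ∀ y ∈ D, ∃ Φ : X ≃ X, IsAut Φ ∧ Φ x = y) (h3 : (Extra D).Infinite) : Stmt.Tame D := by
  classical
  have hM := hX.mfd
  have hcount := countable_comp hM
  have h1' : ∀ x ∈ D, ∀ y ∈ D, (x : ConnectedComponents X) = y → x = y := by
    intro x hx y hy hxy
    by_contra hne
    exact h1 x hx y hy hne (ConnectedComponents.coe_eq_coe.1 hxy)
  refine ⟨hinf, ?_, ?_, ?_⟩
  · rw [isDiscrete_iff_forall_mem_exists_isOpen]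
    intro x hx
    refine ⟨connectedComponent x, isOpen_comp hM x, ?_⟩
    ext y
    constructor
    · rintro ⟨hy, hyD⟩
      exact (h1' x hx y hyD (ConnectedComponents.coe_eq_coe.2 (connectedComponent_eq hy))).symm
    · rintro rfl
      exact ⟨mem_connectedComponent, hx⟩
  · rw [← isOpen_compl_iff, isOpen_iff_forall_mem_open]
    intro x hx
    by_cases hxD : ∃ d ∈ D, d ∈ connectedComponent x
    · obtain ⟨d, hd, hdx⟩ := hxD
      refine ⟨connectedComponent x ∩ {d}ᶜ, ?_, (isOpen_comp hM x).inter isOpen_compl_singleton, mem_connectedComponent, ?_⟩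
      · rintro y ⟨hy, hyd⟩ hyD
        apply hyd
        apply h1' y hyD d hd
        exact ConnectedComponents.coe_eq_coe.2 ((connectedComponent_eq hy).symm.trans (connectedComponent_eq hdx))
      · rintro rfl
        exact hx hd
    · refine ⟨connectedComponent x, fun y hy hyD => hxD ⟨y, hyD, hy⟩, isOpen_comp hM x, mem_connectedComponent⟩
  · intro f hf
    obtain ⟨d0, hd0⟩ := hinf.nonempty
    -- the components of the right type
    let S : Set (ConnectedComponents X) := {c | ∃ Φ : X ≃ X, IsAut Φ ∧ (Φ d0 : ConnectedComponents X) = c}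
    have hSD : ∀ x ∈ D, (x : ConnectedComponents X) ∈ S := by
      intro x hx
      obtain ⟨Φ, hΦ, h⟩ := h2 d0 hd0 x hx
      exact ⟨Φ, hΦ, by rw [h]⟩
    have hSE : Extra D ⊆ S := by
      rintro c ⟨-, Φ, hΦ, x, hx, hc⟩
      obtain ⟨Ψ, hΨ, h⟩ := h2 d0 hd0 x hx
      refine ⟨Ψ.trans Φ, isAut_trans hM hΨ hΦ, ?_⟩
      rw [Equiv.trans_apply, h]
      exact hc
    have hΘ : ∀ c : ConnectedComponents X, ∃ Θ : X ≃ X, IsAut Θ ∧ (c ∈ S → (Θ d0 : ConnectedComponents X) = c) ∧
        ∀ x ∈ D, (x : ConnectedComponents X) = c → Θ d0 = x := by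
      intro c
      by_cases hc : ∃ x ∈ D, (x : ConnectedComponents X) = c
      · obtain ⟨x, hx, rfl⟩ := hc
        obtain ⟨Φ, hΦ, h⟩ := h2 d0 hd0 x hx
        refine ⟨Φ, hΦ, fun _ => by rw [h], fun y hy hyx => ?_⟩
        rw [h]
        exact (h1' y hy x hx hyx).symm
      · by_cases hcS : c ∈ S
        · obtain ⟨Φ, hΦ, h⟩ := hcS
          exact ⟨Φ, hΦ, fun _ => h, fun x hx hxc => absurd ⟨x, hx, hxc⟩ hc⟩
        · exact ⟨Equiv.refl X, isAut_refl hM, fun h => absurd h hcS, fun x hx hxc => absurd ⟨x, hx, hxc⟩ hc⟩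
    choose Θ hΘ1 hΘ2 hΘ3 using hΘ
    let u : D → S := fun x => ⟨(x : X), hSD x x.2⟩
    let v : D → S := fun x => u (f x)
    have hu : Function.Injective u := by
      intro x y hxy
      exact Subtype.ext (h1' x x.2 y y.2 (congrArg Subtype.val hxy))
    have hv : Function.Injective v := hu.comp hf
    have hu' : (range u)ᶜ.Infinite := by
      intro hfin
      apply h3
      refine (hfin.image Subtype.val).subset ?_
      intro c hc
      refine ⟨⟨c, hSE hc⟩, ?_, rfl⟩
      rintro ⟨x, hx⟩
      exact hc.1 x x.2 (congrArg Subtype.val hx)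
    have hv' : (range v)ᶜ.Infinite := by
      refine hu'.mono (compl_subset_compl.2 ?_)
      rintro _ ⟨x, rfl⟩
      exact ⟨f x, rfl⟩
    obtain ⟨β', hβ'⟩ := ext_inj u v hu hv hu' hv'
    let β : ConnectedComponents X ≃ ConnectedComponents X := Equiv.Perm.ofSubtype β'
    have hβS : ∀ c (hc : c ∈ S), β c = β' ⟨c, hc⟩ := fun c hc => Equiv.Perm.ofSubtype_apply_of_mem β' hc
    have hβn : ∀ c, c ∉ S → β c = c := fun c hc => Equiv.Perm.ofSubtype_apply_of_not_mem β' hc
    let Ψ : ConnectedComponents X → (X ≃ X) := fun c => if c ∈ S then (Θ c).symm.trans (Θ (β c)) else Equiv.refl X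
    obtain ⟨F, hF, hF1⟩ := glue_aut hM β Ψ (fun c => by
      simp only [Ψ]
      split_ifs
      · exact isAut_trans hM (isAut_symm (hΘ1 c)) (hΘ1 _)
      · exact isAut_refl hM) (fun x => by
      simp only [Ψ]
      split_ifs with hx
      · rw [Equiv.trans_apply]
        have a1 : (((Θ x).symm x : X) : ConnectedComponents X) = d0 := by
          have a2 := aut_comp' (isAut_symm (hΘ1 x)) (hΘ2 x hx)
          rw [Equiv.symm_apply_apply] at a2
          exact a2.symm
        have a3 := aut_comp' (hΘ1 (β x)) a1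
        rw [a3]
        apply hΘ2
        rw [hβS _ hx]
        exact (β' _).2
      · rw [hβn _ hx]
        rfl)
    refine ⟨F, hF, fun x => ?_⟩
    have hx := hSD x x.2
    rw [hF1]
    simp only [Ψ]
    rw [if_pos hx, Equiv.trans_apply]
    have a1 : (Θ (x : X)).symm x = d0 := by
      rw [Equiv.symm_apply_eq]
      exact (hΘ3 _ x x.2 rfl).symm
    rw [a1]
    apply hΘ3 _ _ (f x).2
    rw [hβS _ hx]
    have a2 := hβ' x
    exact (congrArg Subtype.val a2).symm

end Pool.Agent.H47.TA
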