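import Pool.Agent.H47.TA.Chart2
import Pool.Agent.H67.Tame.Fields

/-!
# Module Field1: a vector field which contracts at two points

`tang X p` and `tang X q` are one-dimensional (`Submanifold.retr`), spanned by `v`, `v'`. `Submanifold.interp` (index set `Bool` or `Fin 2`, `S = univ`): fields `V0`, `V1`
with `V0 p = v`, `V0 q = 0`, `V1 q = v'`, `V1 p = 0`. Let `u`, `u'` be linear functionals with `u v = 1`, `u' v' = 1` (or those of the charts), `m x = ⟪p - q, x - q⟫ / ⟪p - q, p - q⟫`
(holomorphic: `diff_inner` in `Fields.lean`/`XCalc.lean`; `m p = 1`, `m q = 0`), `m' = 1 - m`. Put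
`V x = (-(u (x - p)) * m x) • V0 x + (-(u' (x - q)) * m' x) • V1 x` (`IsVF.smul`, `IsVF.add`). `V p = 0 = V q`. The derivative within `X` at `p` in the direction
`w = a • v`: first term `-(u w) m p V0 p = -a v = -w` (the factor `-(u (x - p)) * m x` vanishes at `p`), second term: the factor `-(u' (x - q)) * m' x` vanishes at `p` and `V1 p = 0`,
so `0`. Same at `q`. Use `Mfd.fderivWithin_eq` with `HasFDerivWithinAt` of the products at a tangent vector.
-/

set_option autoImplicit false

namespace Pool.Agent.H47.TA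

open Set Filter Topology Metric H67.Tame

variable {E : Type*} [NormedAddCommGroup E] [InnerProductSpace ℂ E] [FiniteDimensional ℂ E]
variable {X : Set E}

private lemma fld_span (hX : Submanifold X 1) {p : E} (hp : p ∈ X) :
    ∃ (v : E) (u : E →L[ℂ] ℂ), v ∈ tang X p ∧ ∀ w ∈ tang X p, (u w) • v = w := by
  have hfr : Module.finrank ℂ (tang X p) = 1 := (hX.retr hp).2
  obtain ⟨v, hv0, hv⟩ := finrank_eq_one_iff'.1 hfr
  have hv1 : (v : E) ≠ 0 := fun h => hv0 (Subtype.ext h)
  have hin : inner ℂ (v : E) (v : E) ≠ 0 := inner_self_ne_zero.2 hv1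
  refine ⟨v, (inner ℂ (v : E) (v : E))⁻¹ • innerSL ℂ (v : E), v.2, fun w hw => ?_⟩
  obtain ⟨c, hc⟩ := hv ⟨w, hw⟩
  have hc' : c • (v : E) = w := congrArg Subtype.val hc
  rw [← hc']
  congr 1
  simp only [ContinuousLinearMap.smul_apply, innerSL_apply_apply, inner_smul_right, smul_eq_mul]
  field_simp

private lemma fld_der (hX : Mfd X) {p : E} (hp : p ∈ X) {V0 V1 : E → E} {a b : E → ℂ}
    (h0 : DifferentiableWithinAt ℂ V0 X p) (h1 : DifferentiableWithinAt ℂ V1 X p)
    {a' b' : E →L[ℂ] ℂ} (ha : HasFDerivAt a a' p) (hb : HasFDerivAt b b' p) (a0 : a p = 0)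
    (b0 : b p = 0) {w : E} (hw : w ∈ tang X p) :
    fderivWithin ℂ (fun x => a x • V0 x + b x • V1 x) X p w = a' w • V0 p + b' w • V1 p := by
  have k0 := ha.hasFDerivWithinAt.smul h0.hasFDerivWithinAt (s := X)
  have k1 := hb.hasFDerivWithinAt.smul h1.hasFDerivWithinAt (s := X)
  have k := k0.add k1
  have e := hX.fderivWithin_eq hp k hw
  refine Eq.trans ?_ (e.trans ?_)
  · rfl
  · simp [a0, b0]

theorem exists_field (hX : Submanifold X 1) {p q : E} (hp : p ∈ X) (hq : q ∈ X) (hpq : p ≠ q) :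
    ∃ V : E → E, IsVF X V ∧ V p = 0 ∧ V q = 0 ∧ (∀ w ∈ tang X p, fderivWithin ℂ V X p w = -w) ∧
      ∀ w ∈ tang X q, fderivWithin ℂ V X q w = -w := by
  obtain ⟨v, u, hv, hu⟩ := fld_span hX hp
  obtain ⟨v', u', hv', hu'⟩ := fld_span hX hq
  have hqX : ∀ i ∈ (Finset.univ : Finset Bool), (fun i : Bool => cond i p q) i ∈ X := by
    rintro (_ | _) _
    · exact hq
    · exact hp
  have hinj : InjOn (fun i : Bool => cond i p q) ((Finset.univ : Finset Bool) : Set Bool) := by
    rintro (_ | _) _ (_ | _) _ h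
    · rfl
    · exact absurd h.symm hpq
    · exact absurd h hpq
    · rfl
  obtain ⟨V0, hV0, hV0p, hV0q⟩ := hX.interp (Finset.univ : Finset Bool)
    (q := fun i : Bool => cond i p q) hqX hinj (i0 := true) (Finset.mem_univ _) (w := v) hv
  obtain ⟨V1, hV1, hV1q, hV1p⟩ := hX.interp (Finset.univ : Finset Bool)
    (q := fun i : Bool => cond i p q) hqX hinj (i0 := false) (Finset.mem_univ _) (w := v') hv'
  have e0p : V0 p = v := hV0p
  have e0q : V0 q = 0 := hV0q false (Finset.mem_univ _) (by decide)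
  have e1q : V1 q = v' := hV1q
  have e1p : V1 p = 0 := hV1p true (Finset.mem_univ _) (by decide)
  have hin : inner ℂ (p - q) (p - q) ≠ 0 := inner_self_ne_zero.2 (sub_ne_zero.2 hpq)
  set L : E →L[ℂ] ℂ := (inner ℂ (p - q) (p - q))⁻¹ • innerSL ℂ (p - q) with hL
  have hL1 : L p - L q = 1 := by
    rw [← map_sub, hL]
    simp only [ContinuousLinearMap.smul_apply, innerSL_apply_apply, smul_eq_mul]
    exact inv_mul_cancel₀ hin
  set a : E → ℂ := fun x => -(u x - u p) * (L x - L q) with ha
  set b : E → ℂ := fun x => -(u' x - u' q) * (1 - (L x - L q)) with hb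
  have had : ∀ x, HasFDerivAt a ((-(u x - u p)) • L + (L x - L q) • (-u)) x := fun x =>
    ((u.hasFDerivAt.sub_const (u p)).neg).mul (L.hasFDerivAt.sub_const (L q))
  have hbd : ∀ x, HasFDerivAt b ((-(u' x - u' q)) • (-L) + (1 - (L x - L q)) • (-u')) x := fun x =>
    ((u'.hasFDerivAt.sub_const (u' q)).neg).mul ((L.hasFDerivAt.sub_const (L q)).const_sub 1)
  have hap : a p = 0 := by simp [ha]
  have haq : a q = 0 := by simp [ha]
  have hbp : b p = 0 := by
    simp only [hb, hL1]
    ring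
  have hbq : b q = 0 := by simp [hb]
  have hm : Mfd X := hX.mfd
  refine ⟨fun x => a x • V0 x + b x • V1 x, ?_, ?_, ?_, fun w hw => ?_, fun w hw => ?_⟩
  · exact (hV0.smul fun x _ => (had x).differentiableAt.differentiableWithinAt).add
      (hV1.smul fun x _ => (hbd x).differentiableAt.differentiableWithinAt)
  · simp only [hap, hbp, zero_smul, add_zero]
  · simp only [haq, hbq, zero_smul, add_zero]
  · rw [fld_der hm hp (hV0.1 p hp) (hV1.1 p hp) (had p) (hbd p) hap hbp hw, e0p, e1p, smul_zero,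
      add_zero]
    have e : ((-(u p - u p)) • L + (L p - L q) • (-u)) w = -(u w) := by
      rw [hL1]
      simp
    rw [e, neg_smul, hu w hw]
  · rw [fld_der hm hq (hV0.1 q hq) (hV1.1 q hq) (had q) (hbd q) haq hbq hw, e0q, e1q, smul_zero,
      zero_add]
    have e : ((-(u' q - u' q)) • (-L) + (1 - (L q - L q)) • (-u')) w = -(u' w) := by
      simp
    rw [e, neg_smul, hu' w hw]

end Pool.Agent.H47.TA
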