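import Mathlib

/-!
# Module MaxP: a nonvanishing holomorphic function cannot tend to zero at a wall

Choose `c ∈ interior Oᶜ` with `‖c‖ < r / 4` (`h2`) and `ε > 0` with `ball c ε ⊆ Oᶜ`, `ε ≤ r / 4`. Put `R = r / 2`, `Ω = O ∩ ball c R`. `Ω` is open, bounded, its closure
lies in `closedBall c R ⊆ ball 0 r`, and `ε ≤ ‖z - c‖` for `z ∈ closure Ω`. `Ω` is nonempty: `h1` gives a point of `O` in `ball 0 (r / 4)`, its distance to `c` is `< r / 2`.
Let `M` bound `‖G‖` on the compact set `closedBall c R`. For every `n : ℕ` the function `h z = G z * (R / (z - c))^n` is continuous on `closure Ω`, differentiable on `Ω`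
(`DiffContOnCl`), and `‖h‖ ≤ M` on `frontier Ω`: a frontier point is not in `O` (then `G z = 0`, by `hG0`), or not in `ball c R`, then `‖z - c‖ = R`. By the maximum principle
(`Complex.norm_le_of_forall_mem_frontier_norm_le`) `‖G z‖ ≤ M (‖z - c‖ / R)^n` on `Ω` for all `n`, so `G z = 0` on `Ω`, contradiction to `hGn`.
-/

set_option autoImplicit false

namespace Pool.Agent.H47.TA

open Set Filter Topology Metric

theorem no_wall {r : ℝ} (hr : 0 < r) {O : Set ℂ} (hO : IsOpen O) {G : ℂ → ℂ} (hGc : ContinuousOn G (ball 0 r))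
    (hGd : DifferentiableOn ℂ G (O ∩ ball 0 r)) (hG0 : ∀ z ∈ ball (0 : ℂ) r, z ∉ O → G z = 0)
    (hGn : ∀ z ∈ ball (0 : ℂ) r, z ∈ O → G z ≠ 0) (h1 : (0 : ℂ) ∈ closure O)
    (h2 : (0 : ℂ) ∈ closure (interior Oᶜ)) : False := by
  obtain ⟨c, hc, hc0⟩ := Metric.mem_closure_iff.1 h2 (r / 4) (by linarith)
  obtain ⟨z0, hz0, hz00⟩ := Metric.mem_closure_iff.1 h1 (r / 4) (by linarith)
  rw [dist_comm, dist_zero_right] at hc0 hz00
  obtain ⟨ε, hε, hball⟩ := Metric.isOpen_iff.1 isOpen_interior c hc
  set R := r / 2 with hR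
  have hR0 : 0 < R := by rw [hR]; linarith
  have hsub : closedBall c R ⊆ ball (0 : ℂ) r := by
    intro z hz
    rw [mem_closedBall, dist_eq_norm] at hz
    rw [mem_ball, dist_zero_right]
    have := norm_add_le (z - c) c
    rw [sub_add_cancel] at this
    rw [hR] at hz
    linarith
  set Ω : Set ℂ := O ∩ ball c R with hΩ
  have hΩo : IsOpen Ω := hO.inter isOpen_ball
  have hΩcl : closure Ω ⊆ closedBall c R :=
    (closure_mono inter_subset_right).trans closure_ball_subset_closedBall
  have hfar : ∀ z ∈ closure Ω, ε ≤ ‖z - c‖ := by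
    have hcl : IsClosed {z : ℂ | ε ≤ ‖z - c‖} := isClosed_le continuous_const (by fun_prop)
    have hsub2 : Ω ⊆ {z : ℂ | ε ≤ ‖z - c‖} := by
      intro z hz
      by_contra hlt
      have hlt' : ‖z - c‖ < ε := not_le.1 hlt
      have hm : z ∈ ball c ε := by rw [mem_ball, dist_eq_norm]; exact hlt'
      exact (interior_subset (hball hm)) hz.1
    exact fun z hz => closure_minimal hsub2 hcl hz
  have hne : ∀ z ∈ closure Ω, z - c ≠ 0 := by
    intro z hz h0
    have := hfar z hz
    rw [h0, norm_zero] at this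
    linarith
  have hz0Ω : z0 ∈ Ω := by
    refine ⟨hz0, ?_⟩
    rw [mem_ball, dist_eq_norm]
    have := norm_sub_le z0 c
    rw [hR]
    linarith
  obtain ⟨M, hM⟩ := (isCompact_closedBall c R).exists_bound_of_continuousOn (hGc.mono hsub)
  have hM0 : 0 ≤ M := (norm_nonneg _).trans (hM z0 (hΩcl (subset_closure hz0Ω)))
  have hbd : Bornology.IsBounded Ω := isBounded_ball.subset inter_subset_right
  have hfr : ∀ z ∈ frontier Ω, z ∉ O ∨ ‖z - c‖ = R := by
    intro z hz
    have hzc : z ∈ closure Ω := hz.1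
    have hzn : z ∉ Ω := by
      have := hz.2
      rwa [hΩo.interior_eq] at this
    by_cases hzO : z ∈ O
    · right
      have hle : ‖z - c‖ ≤ R := by
        have := hΩcl hzc
        rwa [mem_closedBall, dist_eq_norm] at this
      have hge : ¬ ‖z - c‖ < R := by
        intro hlt
        refine hzn ⟨hzO, ?_⟩
        rw [mem_ball, dist_eq_norm]
        exact hlt
      linarith [not_lt.1 hge]
    · exact Or.inl hzO
  have hmain : ∀ n : ℕ, ‖G z0 * ((R : ℂ) / (z0 - c)) ^ n‖ ≤ M := by
    intro n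
    have hd : DiffContOnCl ℂ (fun z => G z * ((R : ℂ) / (z - c)) ^ n) Ω := by
      refine ⟨?_, ?_⟩
      · refine (hGd.mono ?_).mul ?_
        · intro z hz
          exact ⟨hz.1, hsub (hΩcl (subset_closure hz))⟩
        · refine DifferentiableOn.pow ?_ n
          refine DifferentiableOn.div (differentiableOn_const _) (differentiableOn_id.sub (differentiableOn_const _)) ?_
          intro z hz
          exact hne z (subset_closure hz)
      · refine (hGc.mono (hΩcl.trans hsub)).mul ?_
        refine ContinuousOn.pow ?_ n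
        refine ContinuousOn.div continuousOn_const (continuousOn_id.sub continuousOn_const) ?_
        intro z hz
        exact hne z hz
    refine Complex.norm_le_of_forall_mem_frontier_norm_le hbd hd ?_ (subset_closure hz0Ω)
    intro z hz
    rcases hfr z hz with h | h
    · rw [hG0 z (hsub (hΩcl hz.1)) h, zero_mul, norm_zero]
      exact hM0
    · rw [norm_mul, norm_pow, norm_div, h, Complex.norm_real, Real.norm_of_nonneg hR0.le, div_self hR0.ne',
        one_pow, mul_one]
      exact hM z (hΩcl hz.1)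
  have hz0c : 0 < ‖z0 - c‖ := lt_of_lt_of_le hε (hfar z0 (subset_closure hz0Ω))
  have hz0R : ‖z0 - c‖ < R := by
    have := hz0Ω.2
    rwa [mem_ball, dist_eq_norm] at this
  have hq : 1 < R / ‖z0 - c‖ := by rw [lt_div_iff₀ hz0c, one_mul]; exact hz0R
  have hG : 0 < ‖G z0‖ := norm_pos_iff.2 (hGn z0 (hsub (hΩcl (subset_closure hz0Ω))) hz0)
  obtain ⟨n, hn⟩ := pow_unbounded_of_one_lt (M / ‖G z0‖) hq
  have h3 := hmain n
  rw [norm_mul, norm_pow, norm_div, Complex.norm_real, Real.norm_of_nonneg hR0.le] at h3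
  rw [div_lt_iff₀ hG] at hn
  linarith [mul_comm ‖G z0‖ ((R / ‖z0 - c‖) ^ n)]

end Pool.Agent.H47.TA
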