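import Mathlib

/-!
# Module OneVar: `z ↦ z + t v z` with `v 0 = 0`, `v' 0 = -1` contracts, also after a small perturbation

`deriv v` is continuous at `0`: choose `r0` with `2 r0 ≤ r / 2` and `‖deriv v z + 1‖ ≤ 1 / 8` for `‖z‖ ≤ r0` (indeed for `‖z‖ < 2 r0`). Let `e z = f z - z - t v z`,
`‖e‖ ≤ t r0 / 8` on the closed disc of radius `2 r0`; Cauchy estimate (`Complex.norm_deriv_le_of_forall_mem_sphere_norm_le`, discs of radius `r0`):
`‖e'‖ ≤ t / 8` for `‖z‖ ≤ r0`. So `f' = (1 - t) + t (v' + 1) + e'`, `‖f'‖ ≤ 1 - t + t / 8 + t / 8 = 1 - 3 t / 4 =: c` and `‖f' - 1‖ ≤ 5 t / 4 < 1`, so `f' ≠ 0`.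
Mean value inequality on the convex closed disc (`Convex.norm_image_sub_le_of_norm_deriv_le`). `‖f z‖ ≤ c ‖z‖ + ‖f 0‖`, `f 0 = e 0`. Fixed point: Banach
(`ContractingWith.exists_fixedPoint'` on the complete set `closedBall 0 r0`, or iterate by hand).
-/

set_option autoImplicit false

namespace Pool.Agent.H47.TA

open Set Filter Topology Metric

theorem contract {r : ℝ} (hr : 0 < r) {v : ℂ → ℂ} (hv : DifferentiableOn ℂ v (ball 0 r)) (hv0 : v 0 = 0)
    (hv1 : deriv v 0 = -1) :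
    ∃ r0 > 0, 2 * r0 < r ∧ ∀ t : ℝ, 0 < t → t < 1 / 8 → ∀ f : ℂ → ℂ, DifferentiableOn ℂ f (ball 0 r) →
      (∀ z : ℂ, ‖z‖ ≤ 2 * r0 → ‖f z - z - t * v z‖ ≤ t * r0 / 8) →
      ∃ (z0 : ℂ) (c : ℝ), ‖z0‖ < r0 ∧ f z0 = z0 ∧ deriv f z0 ≠ 0 ∧ 0 ≤ c ∧ c < 1 ∧
        (∀ z : ℂ, ‖z‖ ≤ r0 → ‖f z‖ < r0) ∧ ∀ z w : ℂ, ‖z‖ ≤ r0 → ‖w‖ ≤ r0 → ‖f z - f w‖ ≤ c * ‖z - w‖ := by
  have h0 : (0 : ℂ) ∈ ball (0 : ℂ) r := mem_ball_self hr
  have hvd : DifferentiableOn ℂ (deriv v) (ball 0 r) := hv.deriv isOpen_ball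
  have hvc : ContinuousAt (deriv v) 0 := (hvd.differentiableAt (isOpen_ball.mem_nhds h0)).continuousAt
  obtain ⟨δ, hδ, hδv⟩ := Metric.continuousAt_iff.1 hvc (1 / 8) (by norm_num)
  have hδ' : ∀ z : ℂ, ‖z‖ < δ → ‖deriv v z + 1‖ ≤ 1 / 8 := by
    intro z hz
    have := hδv (x := z) (by simpa [dist_eq_norm] using hz)
    rw [dist_eq_norm, hv1] at this
    have h2 : deriv v z - -1 = deriv v z + 1 := by ring
    rw [h2] at this
    exact this.le
  refine ⟨min (δ / 2) (r / 4), lt_min (by linarith) (by linarith), ?_, ?_⟩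
  · have := min_le_right (δ / 2) (r / 4)
    linarith
  set r0 := min (δ / 2) (r / 4) with hr0def
  have hr0 : 0 < r0 := lt_min (by linarith) (by linarith)
  have hr0δ : r0 < δ := lt_of_le_of_lt (min_le_left _ _) (by linarith)
  have hr0r : 2 * r0 < r := by
    have := min_le_right (δ / 2) (r / 4)
    linarith
  intro t ht0 ht f hf hfe
  have hz_mem : ∀ z : ℂ, ‖z‖ ≤ 2 * r0 → z ∈ ball (0 : ℂ) r := by
    intro z hz
    rw [mem_ball_zero_iff]
    linarith
  have hfd : ∀ z : ℂ, ‖z‖ ≤ r0 → DifferentiableAt ℂ f z := fun z hz =>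
    hf.differentiableAt (isOpen_ball.mem_nhds (hz_mem z (by linarith)))
  have hvda : ∀ z : ℂ, ‖z‖ ≤ r0 → DifferentiableAt ℂ v z := fun z hz =>
    hv.differentiableAt (isOpen_ball.mem_nhds (hz_mem z (by linarith)))
  set e : ℂ → ℂ := fun z => f z - z - t * v z with he
  have hed : DifferentiableOn ℂ e (ball 0 r) :=
    (hf.sub differentiableOn_id).sub ((differentiableOn_const _).mul hv)
  have hed' : ∀ z : ℂ, ‖z‖ ≤ r0 → ‖deriv e z‖ ≤ t / 8 := by
    intro z hz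
    have hsub : closedBall z r0 ⊆ ball (0 : ℂ) r := by
      intro w hw
      apply hz_mem
      rw [mem_closedBall, dist_eq_norm] at hw
      have : w = (w - z) + z := by ring
      rw [this]
      exact (norm_add_le _ _).trans (by linarith)
    have hdc : DiffContOnCl ℂ e (ball z r0) := by
      apply DifferentiableOn.diffContOnCl
      rw [closure_ball z hr0.ne']
      exact hed.mono hsub
    have := Complex.norm_deriv_le_of_forall_mem_sphere_norm_le (C := t * r0 / 8) hr0 hdc (by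
      intro w hw
      apply hfe
      rw [mem_sphere, dist_eq_norm] at hw
      have h3 : w = (w - z) + z := by ring
      rw [h3]
      exact (norm_add_le _ _).trans (by linarith))
    refine this.trans (le_of_eq ?_)
    field_simp
  have hderiv : ∀ z : ℂ, ‖z‖ ≤ r0 → deriv f z = (1 - t : ℂ) + t * (deriv v z + 1) + deriv e z := by
    intro z hz
    have h1 : HasDerivAt f (deriv f z) z := (hfd z hz).hasDerivAt
    have h2 : HasDerivAt v (deriv v z) z := (hvda z hz).hasDerivAt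
    have h3 : HasDerivAt e (deriv f z - 1 - t * deriv v z) z :=
      (h1.sub (hasDerivAt_id z)).sub (h2.const_mul (t : ℂ))
    rw [h3.deriv]
    ring
  have hnorm_t : ‖(t : ℂ)‖ = t := by
    rw [Complex.norm_real, Real.norm_eq_abs, abs_of_pos ht0]
  have hnorm_1t : ‖(1 - t : ℂ)‖ = 1 - t := by
    have : (1 - t : ℂ) = ((1 - t : ℝ) : ℂ) := by push_cast; ring
    rw [this, Complex.norm_real, Real.norm_eq_abs, abs_of_pos (by linarith)]
  have hb1 : ∀ z : ℂ, ‖z‖ ≤ r0 → ‖(t : ℂ) * (deriv v z + 1)‖ ≤ t / 8 := by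
    intro z hz
    rw [norm_mul, hnorm_t]
    have := hδ' z (lt_of_le_of_lt hz hr0δ)
    calc t * ‖deriv v z + 1‖ ≤ t * (1 / 8) := mul_le_mul_of_nonneg_left this ht0.le
      _ = t / 8 := by ring
  have hbound : ∀ z : ℂ, ‖z‖ ≤ r0 → ‖deriv f z‖ ≤ 1 - 3 * t / 4 := by
    intro z hz
    rw [hderiv z hz]
    have h1 := norm_add_le ((1 - t : ℂ) + t * (deriv v z + 1)) (deriv e z)
    have h2 := norm_add_le (1 - t : ℂ) (t * (deriv v z + 1))
    have h3 := hb1 z hz
    have h4 := hed' z hz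
    rw [hnorm_1t] at h2
    linarith
  have hlip : ∀ z w : ℂ, ‖z‖ ≤ r0 → ‖w‖ ≤ r0 → ‖f z - f w‖ ≤ (1 - 3 * t / 4) * ‖z - w‖ := by
    intro z w hz hw
    exact Convex.norm_image_sub_le_of_norm_deriv_le (s := closedBall (0 : ℂ) r0)
      (fun x hx => hfd x (by simpa using hx)) (fun x hx => hbound x (by simpa using hx))
      (convex_closedBall _ _) (by simpa using hw) (by simpa using hz)
  have hf0 : ‖f 0‖ ≤ t * r0 / 8 := by
    have := hfe 0 (by rw [norm_zero]; linarith)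
    simpa [hv0] using this
  have hmap : ∀ z : ℂ, ‖z‖ ≤ r0 → ‖f z‖ < r0 := by
    intro z hz
    have h1 := hlip z 0 hz (by rw [norm_zero]; exact hr0.le)
    rw [sub_zero] at h1
    have h2 : ‖f z‖ ≤ ‖f z - f 0‖ + ‖f 0‖ := by
      have : f z = (f z - f 0) + f 0 := by ring
      calc ‖f z‖ = ‖(f z - f 0) + f 0‖ := by rw [← this]
        _ ≤ _ := norm_add_le _ _
    have h3 : (1 - 3 * t / 4) * ‖z‖ ≤ (1 - 3 * t / 4) * r0 :=
      mul_le_mul_of_nonneg_left hz (by linarith)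
    have h4 : 0 < t * r0 := mul_pos ht0 hr0
    nlinarith
  have hmt : MapsTo f (closedBall (0 : ℂ) r0) (closedBall (0 : ℂ) r0) := by
    intro z hz
    rw [mem_closedBall_zero_iff] at hz ⊢
    exact (hmap z hz).le
  have hK : (0 : ℝ) ≤ 1 - 3 * t / 4 := by linarith
  have hcw : ContractingWith (⟨1 - 3 * t / 4, hK⟩ : NNReal) (hmt.restrict f _ _) := by
    refine ⟨?_, ?_⟩
    · rw [← NNReal.coe_lt_coe]
      show (1 - 3 * t / 4 : ℝ) < 1
      linarith
    · apply LipschitzWith.of_dist_le_mul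
      intro x y
      rw [Subtype.dist_eq, Subtype.dist_eq, dist_eq_norm, dist_eq_norm]
      exact hlip x y (mem_closedBall_zero_iff.1 x.2) (mem_closedBall_zero_iff.1 y.2)
  obtain ⟨z0, hz0, hfix, -⟩ := hcw.exists_fixedPoint' (isClosed_closedBall.isComplete) hmt
    (x := 0) (mem_closedBall_self hr0.le) (edist_ne_top _ _)
  have hz0' : ‖z0‖ ≤ r0 := by simpa using hz0
  have hfz : f z0 = z0 := hfix
  refine ⟨z0, 1 - 3 * t / 4, ?_, hfz, ?_, hK, by linarith, hmap, hlip⟩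
  · have := hmap z0 hz0'
    rwa [hfz] at this
  · intro hd
    have h1 := hderiv z0 hz0'
    rw [hd] at h1
    have h2 : (1 : ℂ) = t - (t * (deriv v z0 + 1)) - deriv e z0 := by
      linear_combination -h1
    have h3 : (1 : ℝ) ≤ t + t / 8 + t / 8 := by
      calc (1 : ℝ) = ‖(1 : ℂ)‖ := by simp
        _ = ‖(t : ℂ) - (t * (deriv v z0 + 1)) - deriv e z0‖ := by rw [← h2]
        _ ≤ ‖(t : ℂ) - (t * (deriv v z0 + 1))‖ + ‖deriv e z0‖ := norm_sub_le _ _
        _ ≤ ‖(t : ℂ)‖ + ‖(t : ℂ) * (deriv v z0 + 1)‖ + ‖deriv e z0‖ := by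
            have := norm_sub_le (t : ℂ) (t * (deriv v z0 + 1))
            linarith
        _ ≤ t + t / 8 + t / 8 := by
            have h4 := hb1 z0 hz0'
            have h5 := hed' z0 hz0'
            rw [hnorm_t]
            linarith
    linarith

end Pool.Agent.H47.TA
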