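import Pool.Agent.H47.TA.Att
import Pool.Agent.H47.TA.OneVar
import Pool.Agent.H47.TA.Field1
import Pool.Agent.H47.TA.AuNear

/-!
# Module Two: an automorphism with two attracting fixed points

`local_att` (one point): `V` as in the hypotheses, chart `σ, u, r, O` at `p`. `v z = u (V (σ z))` is differentiable on `ball 0 r` (`Chart.diff_comp`), `v 0 = u (V p) = 0`,
`deriv v 0 = u (fderivWithin V X p (deriv σ 0)) = - u (deriv σ 0) = -1` (`Chart.tan`, `Chart.deriv_u`). `contract` gives `r0`. `K = σ '' closedBall 0 (2 r0)` compact, `⊆ X ∩ O`.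
Let `ε = r0 / (8 (‖u‖ + 1))`, let `B` bound `‖V‖` on `K`, and let `δ > 0` be such that every point at distance `< δ` from a point of `K` is in `O`
(`IsCompact.exists_thickening_subset_open`). For `t < min (1 / 8) (δ / (B + ε + 1))` and `g` with `‖g x - x - t • V x‖ ≤ ε t` on `K`:
`f z = u (g (σ z) - p)`, `f z - z - t v z = u (g (σ z) - σ z - t • V (σ z))` (`Chart.left`), norm `≤ ‖u‖ ε t ≤ t r0 / 8`; `‖g (σ z) - σ z‖ ≤ t (B + ε) < δ`, so `g (σ z) ∈ O`. Then `chart_att`.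

`exists_two`: `exists_field`, disjoint open sets `N ∋ p`, `N' ∋ q` (`t2_separation`), `exists_chart_in` in `N` and in `N'`, `local_att` twice, `exists_au_near` with `K ∪ K'` and the smaller `ε`.
-/

set_option autoImplicit false

namespace Pool.Agent.H47.TA

open Set Filter Topology Metric H67.Tame

variable {E : Type*} [NormedAddCommGroup E] [InnerProductSpace ℂ E] [FiniteDimensional ℂ E]
variable {X : Set E}

theorem local_att {p : E} {σ : ℂ → E} {u : E →L[ℂ] ℂ} {r : ℝ} {O : Set E} (h : Chart X p σ u r O) {V : E → E}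
    (hV : IsVF X V) (hVp : V p = 0) (hVd : ∀ w ∈ tang X p, fderivWithin ℂ V X p w = -w) :
    ∃ K ⊆ X, IsCompact K ∧ ∃ ε > 0, ∃ τ > 0, ∀ t : ℝ, 0 < t → t < τ → ∀ g g' : E → E, Au X g g' →
      (∀ x ∈ K, ‖g x - x - t • V x‖ ≤ ε * t) → ∃ p' O' φ l, O' ⊆ O ∧ Att X g p' O' φ l := by
  have h00 : (0 : ℂ) ∈ ball (0 : ℂ) r := by rw [mem_ball_zero_iff, norm_zero]; exact h.pos
  -- the field in the chart
  have hvder : ∀ z ∈ ball (0 : ℂ) r,
      HasDerivAt (fun z => u (V (σ z))) (u (fderivWithin ℂ V X (σ z) (deriv σ z))) z := fun z hz =>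
    u.hasFDerivAt.comp_hasDerivAt z (h.diff_comp hz (hV.1 _ (h.maps z hz).1))
  have hvd : DifferentiableOn ℂ (fun z => u (V (σ z))) (ball 0 r) := fun z hz =>
    (hvder z hz).differentiableAt.differentiableWithinAt
  have hv0 : (fun z => u (V (σ z))) 0 = 0 := by
    show u (V (σ 0)) = 0
    rw [h.zero, hVp, map_zero]
  have hv1 : deriv (fun z => u (V (σ z))) 0 = -1 := by
    rw [(hvder 0 h00).deriv]
    have h1 : deriv σ 0 ∈ tang X p := by
      have := h.tan h00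
      rwa [h.zero] at this
    rw [h.zero, hVd _ h1, map_neg, h.deriv_u h00]
  obtain ⟨r0, hr0, hr0r, H⟩ := contract h.pos hvd hv0 hv1
  have hin : ∀ z : ℂ, z ∈ closedBall (0 : ℂ) (2 * r0) → z ∈ ball (0 : ℂ) r := fun z hz => by
    rw [mem_closedBall_zero_iff] at hz
    rw [mem_ball_zero_iff]
    linarith
  obtain ⟨K, hKdef⟩ : ∃ K : Set E, K = σ '' closedBall (0 : ℂ) (2 * r0) := ⟨_, rfl⟩
  have hKX : K ⊆ X := by
    rw [hKdef]
    rintro _ ⟨z, hz, rfl⟩
    exact (h.maps z (hin z hz)).1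
  have hKO : K ⊆ O := by
    rw [hKdef]
    rintro _ ⟨z, hz, rfl⟩
    exact (h.maps z (hin z hz)).2
  have hK : IsCompact K := by
    rw [hKdef]
    exact (isCompact_closedBall _ _).image_of_continuousOn
      (h.diff.continuousOn.mono fun z hz => hin z hz)
  obtain ⟨B', hB'⟩ := hK.exists_bound_of_continuousOn (hV.1.continuousOn.mono hKX)
  obtain ⟨B, hB0, hB⟩ : ∃ B : ℝ, 0 ≤ B ∧ ∀ x ∈ K, ‖V x‖ ≤ B :=
    ⟨max B' 0, le_max_right _ _, fun x hx => (hB' x hx).trans (le_max_left _ _)⟩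
  obtain ⟨δ, hδ, hδO⟩ := hK.exists_thickening_subset_open h.op hKO
  obtain ⟨ε, hεdef⟩ : ∃ ε : ℝ, ε = r0 / (8 * (‖u‖ + 1)) := ⟨_, rfl⟩
  have hu1 : 0 < ‖u‖ + 1 := by positivity
  have hε : 0 < ε := by rw [hεdef]; positivity
  have hεu : ‖u‖ * ε ≤ r0 / 8 := by
    rw [hεdef, mul_div_assoc', div_le_div_iff₀ (by positivity) (by norm_num)]
    nlinarith [norm_nonneg u]
  refine ⟨K, hKX, hK, ε, hε, min (1 / 8) (δ / (B + ε + 1)), lt_min (by norm_num) (by positivity), ?_⟩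
  intro t ht htτ g g' hg hest
  have ht8 : t < 1 / 8 := lt_of_lt_of_le htτ (min_le_left _ _)
  have htδ : t * (B + ε) < δ := by
    have h1 : t < δ / (B + ε + 1) := lt_of_lt_of_le htτ (min_le_right _ _)
    rw [lt_div_iff₀ (by positivity)] at h1
    nlinarith
  have hfd : DifferentiableOn ℂ (fun z => u (g (σ z) - p)) (ball 0 r) := by
    intro z hz
    have hX1 := (h.maps z hz).1
    have h1 : DifferentiableWithinAt ℂ (fun x => u (g x - p)) X (σ z) :=
      u.differentiableAt.comp_differentiableWithinAt _ ((hg.d _ hX1).sub_const p)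
    exact (h.diff_comp hz h1).differentiableAt.differentiableWithinAt
  have hfest : ∀ z : ℂ, ‖z‖ ≤ 2 * r0 →
      ‖(fun z => u (g (σ z) - p)) z - z - t * (fun z => u (V (σ z))) z‖ ≤ t * r0 / 8 := by
    intro z hz
    have hz' : z ∈ closedBall (0 : ℂ) (2 * r0) := mem_closedBall_zero_iff.2 hz
    have hzK : σ z ∈ K := by rw [hKdef]; exact ⟨z, hz', rfl⟩
    have e : (fun z => u (g (σ z) - p)) z - z - t * (fun z => u (V (σ z))) z =
        u (g (σ z) - σ z - t • V (σ z)) := by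
      have h1 : u (t • V (σ z)) = t * u (V (σ z)) := by
        rw [← Complex.coe_smul, map_smul, smul_eq_mul]
      have h2 := h.left z (hin z hz')
      show u (g (σ z) - p) - z - t * u (V (σ z)) = _
      have h3 : u (g (σ z) - σ z - t • V (σ z)) = (u (g (σ z) - p) - u (σ z - p)) - u (t • V (σ z)) := by
        rw [← map_sub, ← map_sub]
        congr 1
        abel
      rw [h3, h1, h2]
    rw [e]
    refine (u.le_opNorm _).trans ?_
    calc ‖u‖ * ‖g (σ z) - σ z - t • V (σ z)‖ ≤ ‖u‖ * (ε * t) :=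
          mul_le_mul_of_nonneg_left (hest _ hzK) (norm_nonneg _)
      _ = (‖u‖ * ε) * t := by ring
      _ ≤ r0 / 8 * t := mul_le_mul_of_nonneg_right hεu ht.le
      _ = t * r0 / 8 := by ring
  obtain ⟨z0, c, hz0, hfix, hd0, hc0, hc1, -, hcontr⟩ := H t ht ht8 _ hfd hfest
  have hgO : ∀ z : ℂ, ‖z‖ ≤ r0 → g (σ z) ∈ O := by
    intro z hz
    apply hδO
    have hzK : σ z ∈ K := by
      rw [hKdef]
      exact ⟨z, mem_closedBall_zero_iff.2 (by linarith), rfl⟩
    rw [mem_thickening_iff]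
    refine ⟨σ z, hzK, ?_⟩
    rw [dist_eq_norm]
    have h1 : ‖g (σ z) - σ z‖ ≤ ‖g (σ z) - σ z - t • V (σ z)‖ + ‖t • V (σ z)‖ := by
      have := norm_add_le (g (σ z) - σ z - t • V (σ z)) (t • V (σ z))
      rwa [sub_add_cancel] at this
    have h2 : ‖t • V (σ z)‖ ≤ t * B := by
      rw [norm_smul, Real.norm_eq_abs, abs_of_pos ht]
      exact mul_le_mul_of_nonneg_left (hB _ hzK) ht.le
    have h3 := hest _ hzK
    nlinarith
  obtain ⟨O', φ, l, hO', hatt⟩ := chart_att h hg (by linarith) hgO hz0 hfix hd0 hc0 hc1 hcontr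
  exact ⟨σ z0, O', φ, l, hO', hatt⟩

theorem exists_two (hX : Submanifold X 1) (hD : DensityProperty X) {p q : E} (hp : p ∈ X) (hq : q ∈ X) (hpq : p ≠ q) :
    ∃ (g g' : E → E) (p' q' : E) (O Q : Set E) (φ ψ : E → ℂ) (l m : ℂ), Au X g g' ∧ Att X g p' O φ l ∧
      Att X g q' Q ψ m ∧ Disjoint O Q := by
  obtain ⟨V, hV, hVp, hVq, hdp, hdq⟩ := exists_field hX hp hq hpq
  obtain ⟨N, N', hN, hN', hpN, hqN', hNN⟩ := t2_separation hpq
  obtain ⟨σ, u, r, O₁, hch, hON⟩ := exists_chart_in hX hp hN hpN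
  obtain ⟨σ', u', r', Q₁, hch', hQN⟩ := exists_chart_in hX hq hN' hqN'
  obtain ⟨K, hKX, hK, ε, hε, τ, hτ, H⟩ := local_att hch hV hVp hdp
  obtain ⟨K', hKX', hK', ε', hε', τ', hτ', H'⟩ := local_att hch' hV hVq hdq
  obtain ⟨τ'', hτ'', H''⟩ := exists_au_near hX.mfd hD hV (union_subset hKX hKX') (hK.union hK')
    (lt_min hε hε')
  obtain ⟨t, ht, ht1, ht2, ht3⟩ : ∃ t : ℝ, 0 < t ∧ t < τ ∧ t < τ' ∧ t < τ'' := by
    have h1 : 0 < min τ (min τ' τ'') := lt_min hτ (lt_min hτ' hτ'')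
    refine ⟨min τ (min τ' τ'') / 2, by positivity, ?_, ?_, ?_⟩
    · have := min_le_left τ (min τ' τ'')
      linarith
    · have := (min_le_right τ (min τ' τ'')).trans (min_le_left _ _)
      linarith
    · have := (min_le_right τ (min τ' τ'')).trans (min_le_right _ _)
      linarith
  obtain ⟨g, g', hau, hest⟩ := H'' t ht ht3
  obtain ⟨p', O, φ, l, hO, hatt⟩ := H t ht ht1 g g' hau fun x hx =>
    (hest x (Or.inl hx)).trans (mul_le_mul_of_nonneg_right (min_le_left _ _) ht.le)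
  obtain ⟨q', Q, ψ, m, hQ, hatt'⟩ := H' t ht ht2 g g' hau fun x hx =>
    (hest x (Or.inr hx)).trans (mul_le_mul_of_nonneg_right (min_le_right _ _) ht.le)
  exact ⟨g, g', p', q', O, Q, φ, ψ, l, m, hau, hatt, hatt', hNN.mono (hO.trans hON) (hQ.trans hQN)⟩

end Pool.Agent.H47.TA
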