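import Pool.Agent.H47.TA.Basin
import Pool.Agent.H47.TA.MaxP
import Pool.Agent.H47.TA.Two

/-!
# Module NoOne: one-dimensional connected submanifolds do not have the density property

`no_two_attractors`: `basin` for `p` gives `U`, `G`. Let `C = {x ∈ X | ∃ N open, x ∈ N, X ∩ N ∩ U = ∅}` (the interior in `X` of `X \ U`). `X ∩ Q ⊆ C`: for `x ∈ X ∩ Q` all `g^[k] x ∈ Q`, so never in `O`. So `C` and
`X ∩ U` are nonempty, relatively open, disjoint. As `X` is preconnected there is `b ∈ X` in the closure of `C` and in the closure of `X ∩ U` (otherwise the closure of `C` would be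
relatively clopen: `X \ closure (X ∩ U) = C`). `b ∉ U` (else `U` meets `C`), in particular `b ≠ p`. Take a chart at `b` with `O_b ⊆ {p}ᶜ` (`exists_chart_in`) and apply `no_wall` to
`{z ∈ ball 0 r | σ z ∈ U}` and `G ∘ σ` (`Chart.diff_comp`, continuity of the composition with `σ`, which maps the disc into `X`). `0` is in the closure of this set: points `x ∈ X ∩ U` near `b` are `σ (u (x - b))`,
and `u (x - b) → 0`. Same for the interior of the complement: if `y ∈ C` is near `b`, `y = σ (u (y - b))`, then all `z` near `u (y - b)` satisfy `σ z ∈ N`, `σ z ∈ X`, so `σ z ∉ U`.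

`no_density_one`: `p ∈ X`, a second point `q` by `Chart.other`, `exists_two`.
-/

set_option autoImplicit false

namespace Pool.Agent.H47.TA

open Set Filter Topology Metric H67.Tame

variable {E : Type*} [NormedAddCommGroup E] [InnerProductSpace ℂ E] [FiniteDimensional ℂ E]
variable {X : Set E}

theorem no_two_attractors (hX : Submanifold X 1) (hc : IsPreconnected X) {g g' : E → E} (hg : Au X g g') {p q : E}
    {O Q : Set E} {φ ψ : E → ℂ} {l m : ℂ} (hp : Att X g p O φ l) (hq : Att X g q Q ψ m) (hd : Disjoint O Q) : False := by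
  obtain ⟨U, G, hUo, hUmem, hG0, hGn, hGc⟩ := basin hX.closed hg hp
  have hQit : ∀ x ∈ X, x ∈ Q → ∀ k : ℕ, g^[k] x ∈ X ∧ g^[k] x ∈ Q := by
    intro x hx hxQ k
    induction k with
    | zero => exact ⟨hx, hxQ⟩
    | succ k ih =>
      rw [Function.iterate_succ_apply']
      exact ⟨hg.m _ ih.1, hq.maps _ ih.1 ih.2⟩
  have hQU : ∀ x ∈ X, x ∈ Q → x ∉ U := by
    intro x hx hxQ hxU
    obtain ⟨k, hk⟩ := (hUmem x hx).1 hxU
    exact Set.disjoint_left.1 hd hk (hQit x hx hxQ k).2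
  have hpU : p ∈ U := (hUmem p hp.mem).2 ⟨0, hp.pO⟩
  set C : Set E := {x | x ∈ X ∧ ∃ N : Set E, IsOpen N ∧ x ∈ N ∧ ∀ y ∈ X, y ∈ N → y ∉ U} with hC
  have hqC : q ∈ C := ⟨hq.mem, Q, hq.op, hq.pO, hQU⟩
  obtain ⟨b, hbX, hb1, hb2⟩ : ∃ b ∈ X, b ∈ closure C ∧ b ∈ closure (X ∩ U) := by
    by_contra hno
    push Not at hno
    have h1 : X ⊆ (closure C)ᶜ ∪ (closure (X ∩ U))ᶜ := by
      intro x hx
      by_cases h : x ∈ closure C
      · exact Or.inr (hno x hx h)
      · exact Or.inl h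
    have h2 : (X ∩ (closure C)ᶜ).Nonempty :=
      ⟨p, hp.mem, fun h => hno p hp.mem h (subset_closure ⟨hp.mem, hpU⟩)⟩
    have h3 : (X ∩ (closure (X ∩ U))ᶜ).Nonempty := ⟨q, hq.mem, hno q hq.mem (subset_closure hqC)⟩
    obtain ⟨y, hyX, hy1, hy2⟩ := hc _ _ isClosed_closure.isOpen_compl isClosed_closure.isOpen_compl h1 h2 h3
    apply hy1
    refine subset_closure ⟨hyX, (closure (X ∩ U))ᶜ, isClosed_closure.isOpen_compl, hy2, ?_⟩
    intro y' hy'X hy' hy'U
    exact hy' (subset_closure ⟨hy'X, hy'U⟩)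
  have hbU : b ∉ U := by
    intro hbU
    obtain ⟨c, hcU, hcX, N, _, hcN, hN⟩ := _root_.mem_closure_iff.1 hb1 U hUo hbU
    exact hN c hcX hcN hcU
  have hbp : b ≠ p := fun h => hbU (h ▸ hpU)
  obtain ⟨σ, u, r, Ob, h, hOb⟩ := exists_chart_in hX hbX (isOpen_compl_singleton (x := p)) hbp
  have hbO : b ∈ Ob := by
    have := (h.maps 0 (mem_ball_self h.pos)).2
    rwa [h.zero] at this
  have hσp : ∀ z ∈ ball (0 : ℂ) r, σ z ≠ p := fun z hz => hOb (h.maps z hz).2
  have hSo : IsOpen (ball (0 : ℂ) r ∩ σ ⁻¹' U) := h.diff.continuousOn.isOpen_inter_preimage isOpen_ball hUo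
  have hnbd : ∀ W : Set ℂ, IsOpen W → (0 : ℂ) ∈ W → IsOpen (Ob ∩ {y | u (y - b) ∈ W}) ∧ b ∈ Ob ∩ {y | u (y - b) ∈ W} := by
    intro W hW h0
    refine ⟨h.op.inter (hW.preimage (u.continuous.comp (continuous_id.sub continuous_const))), hbO, ?_⟩
    show u (b - b) ∈ W
    rw [sub_self, map_zero]
    exact h0
  refine no_wall h.pos hSo (G := fun z => G (σ z)) ?_ ?_ ?_ ?_ ?_ ?_
  · intro z hz
    exact (hGc (σ z) (h.maps z hz).1 (hσp z hz)).comp (h.diff.continuousOn z hz) fun w hw => (h.maps w hw).1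
  · rintro z ⟨⟨hz, hzU⟩, _⟩
    exact (h.diff_comp hz (hGn (σ z) (h.maps z hz).1 hzU (hσp z hz)).2).differentiableAt.differentiableWithinAt
  · intro z hz hzS
    exact hG0 (σ z) (h.maps z hz).1 fun hzU => hzS ⟨hz, hzU⟩
  · intro z hz hzS
    exact (hGn (σ z) (h.maps z hz).1 hzS.2 (hσp z hz)).1
  · rw [_root_.mem_closure_iff]
    intro W hW h0
    obtain ⟨hWo, hbW⟩ := hnbd W hW h0
    obtain ⟨y, ⟨hyO, hyW⟩, hyX, hyU⟩ := _root_.mem_closure_iff.1 hb2 _ hWo hbW
    obtain ⟨hz, hσz⟩ := h.right y hyX hyO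
    refine ⟨u (y - b), hyW, hz, ?_⟩
    show σ (u (y - b)) ∈ U
    rw [hσz]
    exact hyU
  · rw [_root_.mem_closure_iff]
    intro W hW h0
    obtain ⟨hWo, hbW⟩ := hnbd W hW h0
    obtain ⟨y, ⟨hyO, hyW⟩, hyX, N, hNo, hyN, hN⟩ := _root_.mem_closure_iff.1 hb1 _ hWo hbW
    obtain ⟨hz, hσz⟩ := h.right y hyX hyO
    refine ⟨u (y - b), hyW, ?_⟩
    rw [mem_interior]
    refine ⟨ball (0 : ℂ) r ∩ σ ⁻¹' N, ?_, h.diff.continuousOn.isOpen_inter_preimage isOpen_ball hNo, hz, ?_⟩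
    · rintro z ⟨hz', hzN⟩ ⟨_, hzU⟩
      exact hN (σ z) (h.maps z hz').1 hzN hzU
    · show σ (u (y - b)) ∈ N
      rw [hσz]
      exact hyN

theorem no_density_one (hX : Submanifold X 1) (hc : IsPreconnected X) (hne : X.Nonempty) : ¬ DensityProperty X := by
  intro hD
  obtain ⟨p, hp⟩ := hne
  obtain ⟨σ, u, r, O, h⟩ := exists_chart hX hp
  obtain ⟨q, hq, _, hqp⟩ := h.other
  obtain ⟨g, g', p', q', O', Q', φ, ψ, l, m, hg, h1, h2, h3⟩ := exists_two hX hD hp hq hqp.symm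
  exact no_two_attractors hX hc hg h1 h2 h3

end Pool.Agent.H47.TA
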