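import Pool.Agent.H47.TA.CompD
import Pool.Agent.H47.TA.CompW
import Pool.Agent.H47.TA.AW3
import Pool.Agent.H47.TA.NoOne

/-!
# Module Fin: the theorem

`Y = connectedComponentIn X x0` with `x0 ∈ D` is a connected closed submanifold of dimension `n` (`comp_sub`, `isPreconnected_connectedComponentIn`) with the density property
(`density_comp`, `Stmt.density`).
`dim_ge_two`: `n = 1` is excluded by `no_density_one`; `n = 0`: `tang Y x = ⊥`, so by `Mfd.tangent_estimate` the points of `Y` are isolated, `Y` is preconnected, so a single point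
(`IsPreconnected.subsingleton`, discrete), but `Y` contains the infinite set `D`.
`comp_tame`: enumerate `D` (`WeaklyTame.exists_enum` for `hD.int`), `awt_comp` and `AWT.comp` give two `AWT` sequences `e k` and `f (e k) = e (e.symm (f (e k)))`, `equivalent` (`AW3.lean`) with
`trans_aut` (`Pool/Agent/H67/Tame/Main.lean`) for `Y` gives `F ∈ Aut Y`, `isAut_of_mem` and `extend_aut` an automorphism of `X`.
`tame_comp`: if `a ≠ b` in `D` lie in one component and `c ∈ D` in another one, then the swap of `b` and `c` would extend to `F` with `F a = a`, `F b = c`, contradiction to `aut_comp`.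
-/

set_option autoImplicit false

namespace Pool.Agent.H47.TA

open Set Filter Topology Metric H67.Tame H67.Tame.Stmt

variable {E : Type*} [NormedAddCommGroup E] [InnerProductSpace ℂ E] [FiniteDimensional ℂ E]
variable {X : Set E}

private theorem isolated {X : Set E} (hX : Submanifold X 0) {x : E} (hx : x ∈ X) :
    ∃ δ > 0, ∀ y ∈ X, dist y x < δ → y = x := by
  obtain ⟨P, hP1, -, hP3⟩ := hX.mfd.tangent_estimate hx
  obtain ⟨δ, hδ, h⟩ := hP3 (1 / 2) (by norm_num)
  have hbot : tang X x = ⊥ := Submodule.finrank_eq_zero.1 (hX.retr hx).2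
  refine ⟨δ, hδ, fun y hy hyx => ?_⟩
  have h1 := h y hy x hx hyx (by simpa using hδ)
  have h2 : P (y - x) = 0 := by
    have := hP1 (y - x)
    rwa [hbot, Submodule.mem_bot] at this
  rw [h2, sub_zero] at h1
  have h3 : ‖y - x‖ = 0 := by
    have := norm_nonneg (y - x)
    linarith
  exact sub_eq_zero.1 (norm_eq_zero.1 h3)

private theorem subsing {X : Set E} (hX : Submanifold X 0) (hc : IsPreconnected X) :
    X.Subsingleton := by
  intro x hx y hy
  by_contra hxy
  obtain ⟨δ, hδ, h⟩ := isolated hX hx
  have h1 := hc (ball x δ) {x}ᶜ isOpen_ball isOpen_compl_singleton (by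
    intro z hz
    by_cases hzx : z = x
    · left; rw [hzx]; exact mem_ball_self hδ
    · right; exact hzx) ⟨x, hx, mem_ball_self hδ⟩ ⟨y, hy, fun h' => hxy h'.symm⟩
  obtain ⟨z, hz, hz1, hz2⟩ := h1
  exact hz2 (h z hz hz1)

theorem dim_ge_two {n : ℕ} (hX : Submanifold X n) (hc : IsPreconnected X) (hD : DensityProperty X) (hinf : X.Infinite) :
    2 ≤ n := by
  by_contra hn
  have h01 : n = 0 ∨ n = 1 := by omega
  rcases h01 with rfl | rfl
  · exact hinf (subsing hX hc).finite
  · exact no_density_one hX hc hinf.nonempty hD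

theorem comp_tame {n : ℕ} (hX : Submanifold X n) (hd : DensityC X ∨ DensityR X) {D : Set X} (hD : Stmt.WeaklyTame D)
    (hc : ∀ x ∈ D, ∀ y ∈ D, connectedComponent x = connectedComponent y) : Stmt.Tame D := by
  classical
  have hpX : ProperSpace X := ProperSpace.of_isClosed hX.closed
  obtain ⟨x0, hx0⟩ := hD.1.nonempty
  have hcY : ∀ x ∈ D, (x : E) ∈ connectedComponentIn X (x0 : E) := fun x hx =>
    (mem_comp_iff x0 x).2 (hc x hx x0 hx0)
  have hY : Submanifold (connectedComponentIn X (x0 : E)) n := comp_sub hX x0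
  have hYc : IsPreconnected (connectedComponentIn X (x0 : E)) := isPreconnected_connectedComponentIn
  have hYd : DensityProperty (connectedComponentIn X (x0 : E)) :=
    Stmt.density hY.mfd (density_comp hX x0 hd)
  have hYi : (connectedComponentIn X (x0 : E)).Infinite := by
    refine (hD.1.image (Subtype.val_injective.injOn)).mono ?_
    rintro _ ⟨x, hx, rfl⟩
    exact hcY x hx
  have hn := dim_ge_two hY hYc hYd hYi
  have hpY : ProperSpace (connectedComponentIn X (x0 : E)) := ProperSpace.of_isClosed hY.closed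
  have hT := trans_aut hY hn hYc hYd
  obtain ⟨e⟩ := hD.int.exists_enum
  have hx := awt_comp hX x0 hD e hcY
  refine ⟨hD.1, hD.2.1, weaklyTame_closed hX.closed hD, fun f hf => ?_⟩
  have hσ : Function.Injective (fun k => e.symm (f (e k))) :=
    e.symm.injective.comp (hf.comp e.injective)
  have hz := hx.comp hσ
  have hxi : Function.Injective
      (fun k => (⟨((e k : X) : E), hcY _ (e k).2⟩ : connectedComponentIn X (x0 : E))) := by
    intro a b hab
    apply e.injective
    apply Subtype.ext
    apply Subtype.ext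
    have h0 := congrArg (fun z : connectedComponentIn X (x0 : E) => (z : E)) hab
    exact h0
  obtain ⟨F, hF, hFx⟩ := equivalent hT hx hz hxi (hxi.comp hσ)
  obtain ⟨Φ, hΦ, hΦF⟩ := extend_aut hX (x0 : E) (isAut_of_mem hY.mfd hF)
  refine ⟨Φ, hΦ, fun x => ?_⟩
  have h1 := hΦF ⟨((x : X) : E), hcY _ x.2⟩
  have h2 := hFx (e.symm x)
  simp only [Equiv.apply_symm_apply] at h2
  apply Subtype.ext
  have h3 : (Φ (x : X) : E) = (F.toEquiv ⟨((x : X) : E), hcY _ x.2⟩ :
      connectedComponentIn X (x0 : E)) := h1
  rw [h3]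
  exact congrArg Subtype.val h2

theorem tame_comp {D : Set X} (hD : Stmt.Tame D) :
    (∀ x ∈ D, ∀ y ∈ D, connectedComponent x = connectedComponent y) ∨
      ∀ x ∈ D, ∀ y ∈ D, x ≠ y → connectedComponent x ≠ connectedComponent y := by
  classical
  by_contra hcon
  push Not at hcon
  obtain ⟨⟨x, hx, y, hy, hxy⟩, a, ha, b, hb, hab, habc⟩ := hcon
  obtain ⟨c, hc, hca⟩ : ∃ c ∈ D, connectedComponent c ≠ connectedComponent a := by
    by_contra h
    push Not at h
    exact hxy ((h x hx).trans (h y hy).symm)
  have hac : a ≠ c := fun h => hca (by rw [h])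
  let f : D → D := fun z => Equiv.swap (⟨b, hb⟩ : D) ⟨c, hc⟩ z
  obtain ⟨F, hF, hFf⟩ := hD.2.2.2 f (Equiv.swap (⟨b, hb⟩ : D) ⟨c, hc⟩).injective
  have h1 : F a = a := by
    have := hFf ⟨a, ha⟩
    simp only [f] at this
    rw [Equiv.swap_apply_of_ne_of_ne (fun h => hab (congrArg Subtype.val h))
      (fun h => hac (congrArg Subtype.val h))] at this
    exact this
  have h2 : F b = c := by
    have := hFf ⟨b, hb⟩
    simp only [f, Equiv.swap_apply_left] at this
    exact this
  have h3 := aut_comp hF habc
  rw [h1, h2] at h3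
  exact hca h3.symm

end Pool.Agent.H47.TA
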