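import Mathlib

/-!
# Module Koe1: linearisation near an attracting fixed point (local)

Choose `0 < s1 ≤ s / 2`, `C` with `‖f z - l z‖ ≤ C ‖z‖²` for `‖z‖ ≤ s1` (Taylor; e.g. `f z = z * g z` with `g = dslope f 0` differentiable, `g 0 = l`, and
`g z - l = z * dslope g 0 z`) and `c1` with `‖l‖ < c1 < 1`, `c1² < ‖l‖` (possible: `‖l‖ < √‖l‖`; `c1 = ‖l‖ ^ (3/4)` or any number between) and `‖f z‖ ≤ c1 ‖z‖` for `‖z‖ < s1`.
Then `‖f^[n] z‖ ≤ c1^n ‖z‖`, and `φ_n z = l⁻¹ ^ n * f^[n] z` satisfies `‖φ_(n+1) z - φ_n z‖ ≤ ‖l‖⁻¹ C s1² (c1² / ‖l‖)^n`: locally uniform convergence on `ball 0 s1` to a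
holomorphic `φ` (`TendstoLocallyUniformlyOn.differentiableOn`), `φ (f z) = l φ z`, `deriv φ 0 = 1` (limit of the derivatives `deriv φ_n 0 = 1`, or
`φ z = z + O (‖z‖²)` directly from the sum: `‖φ z - z‖ ≤ C' ‖z‖²`, which already gives `φ z ≠ 0` for small `z ≠ 0`; take the same bound with `‖z‖²` in place of `s1²`).
Finally shrink `s1`.
-/

set_option autoImplicit false

namespace Pool.Agent.H47.TA

open Set Filter Topology Metric

private lemma koe_taylor {s : ℝ} (hs : 0 < s) {f : ℂ → ℂ} {l : ℂ} (hf : DifferentiableOn ℂ f (ball 0 s)) (hf0 : f 0 = 0)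
    (hl : deriv f 0 = l) :
    ∃ h : ℂ → ℂ, ContinuousAt h 0 ∧ ∀ z, f z = l * z + z ^ 2 * h z := by
  have hn : ball (0 : ℂ) s ∈ 𝓝 (0 : ℂ) := ball_mem_nhds 0 hs
  have hg : DifferentiableOn ℂ (dslope f 0) (ball 0 s) := (Complex.differentiableOn_dslope hn).2 hf
  have hh : DifferentiableOn ℂ (dslope (dslope f 0) 0) (ball 0 s) := (Complex.differentiableOn_dslope hn).2 hg
  refine ⟨dslope (dslope f 0) 0, (hh.differentiableAt hn).continuousAt, ?_⟩
  intro z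
  have h1 := sub_smul_dslope f 0 z
  have h2 := sub_smul_dslope (dslope f 0) 0 z
  have h3 : dslope f 0 0 = l := by rw [dslope_same, hl]
  simp only [sub_zero, smul_eq_mul, hf0, h3] at h1 h2
  have h4 : dslope f 0 z = l + z * dslope (dslope f 0) 0 z := by
    linear_combination -h2
  rw [← h1, h4]
  ring

theorem koenigs_local {s : ℝ} (hs : 0 < s) {f : ℂ → ℂ} {l : ℂ} (hf : DifferentiableOn ℂ f (ball 0 s)) (hf0 : f 0 = 0)
    (hl : deriv f 0 = l) (hl0 : l ≠ 0) (hl1 : ‖l‖ < 1) :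
    ∃ s1 > 0, s1 ≤ s ∧ (∀ z ∈ ball (0 : ℂ) s1, f z ∈ ball (0 : ℂ) s1) ∧
      ∃ φ : ℂ → ℂ, DifferentiableOn ℂ φ (ball 0 s1) ∧ (∀ z ∈ ball (0 : ℂ) s1, φ (f z) = l * φ z) ∧
        ∀ z ∈ ball (0 : ℂ) s1, z ≠ 0 → φ z ≠ 0 := by
  obtain ⟨h, hc, hfh⟩ := koe_taylor hs hf hf0 hl
  have hlp : 0 < ‖l‖ := norm_pos_iff.2 hl0
  -- the number c1
  obtain ⟨c1, hc1a, hc1b⟩ : ∃ c1, ‖l‖ < c1 ∧ c1 < √‖l‖ := exists_between (by
    have : ‖l‖ ^ 2 < ‖l‖ := by nlinarith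
    exact Real.lt_sqrt_of_sq_lt this)
  have hc1p : 0 < c1 := hlp.trans hc1a
  have hc1sq : c1 ^ 2 < ‖l‖ := by
    have := Real.sq_sqrt hlp.le
    nlinarith [Real.sqrt_nonneg ‖l‖]
  have hc11 : c1 < 1 := by
    by_contra hcon
    push Not at hcon
    nlinarith
  set C : ℝ := ‖h 0‖ + 1 with hC
  have hCp : 0 < C := by positivity
  set r : ℝ := c1 ^ 2 / ‖l‖ with hr
  have hr1 : r < 1 := (div_lt_one hlp).2 hc1sq
  have hr0 : 0 ≤ r := by positivity
  -- h is bounded near zero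
  obtain ⟨t, htp, ht⟩ : ∃ t > 0, ∀ z ∈ ball (0 : ℂ) t, ‖h z‖ ≤ C := by
    have : ∀ᶠ z in 𝓝 (0 : ℂ), ‖h z‖ < C := hc.norm.eventually_lt_const (by simp [hC])
    obtain ⟨t, htp, ht⟩ := Metric.eventually_nhds_iff_ball.1 this
    exact ⟨t, htp, fun z hz => (ht z hz).le⟩
  set K : ℝ := ‖l‖⁻¹ * C * (1 - r)⁻¹ with hK
  have h1r : 0 < 1 - r := by linarith
  have hKp : 0 < K := by positivity
  obtain ⟨s1, hs1p, hs1s, hs1t, hs1c, hs1K⟩ : ∃ s1 > 0, s1 ≤ s ∧ s1 ≤ t ∧ s1 * C ≤ c1 - ‖l‖ ∧ s1 * K ≤ 1 := by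
    refine ⟨min (min s t) (min ((c1 - ‖l‖) / C) (1 / K)), ?_, ?_, ?_, ?_, ?_⟩
    · have : 0 < (c1 - ‖l‖) / C := div_pos (by linarith) hCp
      have : 0 < 1 / K := by positivity
      positivity
    · exact (min_le_left _ _).trans (min_le_left _ _)
    · exact (min_le_left _ _).trans (min_le_right _ _)
    · have := (min_le_right (min s t) (min ((c1 - ‖l‖) / C) (1 / K))).trans (min_le_left _ _)
      rwa [le_div_iff₀ hCp] at this
    · have := (min_le_right (min s t) (min ((c1 - ‖l‖) / C) (1 / K))).trans (min_le_right _ _)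
      rwa [le_div_iff₀ hKp] at this
  have hhb : ∀ z ∈ ball (0 : ℂ) s1, ‖h z‖ ≤ C := fun z hz => ht z (ball_subset_ball hs1t hz)
  have hfb : ∀ z ∈ ball (0 : ℂ) s1, ‖f z‖ ≤ c1 * ‖z‖ := by
    intro z hz
    have hz' : ‖z‖ < s1 := by simpa using hz
    rw [hfh z]
    calc ‖l * z + z ^ 2 * h z‖ ≤ ‖l * z‖ + ‖z ^ 2 * h z‖ := norm_add_le _ _
      _ = ‖l‖ * ‖z‖ + ‖z‖ ^ 2 * ‖h z‖ := by simp [norm_pow]
      _ ≤ ‖l‖ * ‖z‖ + ‖z‖ ^ 2 * C := by gcongr; exact hhb z hz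
      _ = (‖l‖ + ‖z‖ * C) * ‖z‖ := by ring
      _ ≤ (‖l‖ + s1 * C) * ‖z‖ := by gcongr
      _ ≤ c1 * ‖z‖ := by gcongr; linarith
  have hmap : ∀ z ∈ ball (0 : ℂ) s1, f z ∈ ball (0 : ℂ) s1 := by
    intro z hz
    have hz' : ‖z‖ < s1 := by simpa using hz
    have := hfb z hz
    have : ‖f z‖ < s1 := by nlinarith [norm_nonneg z]
    simpa using this
  have hMT : MapsTo f (ball (0 : ℂ) s1) (ball (0 : ℂ) s1) := hmap
  have hdf : DifferentiableOn ℂ f (ball 0 s1) := hf.mono (ball_subset_ball hs1s)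
  have hit : ∀ n, ∀ z ∈ ball (0 : ℂ) s1, ‖f^[n] z‖ ≤ c1 ^ n * ‖z‖ := by
    intro n
    induction n with
    | zero => intro z _; simp
    | succ n ih =>
      intro z hz
      rw [Function.iterate_succ_apply']
      calc ‖f (f^[n] z)‖ ≤ c1 * ‖f^[n] z‖ := hfb _ (hMT.iterate n hz)
        _ ≤ c1 * (c1 ^ n * ‖z‖) := by gcongr; exact ih z hz
        _ = c1 ^ (n + 1) * ‖z‖ := by ring
  -- the terms of the series
  set F : ℕ → ℂ → ℂ := fun n z => (l⁻¹) ^ (n + 1) * (f^[n + 1] z - l * f^[n] z) with hF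
  have hFb : ∀ n, ∀ z ∈ ball (0 : ℂ) s1, ‖F n z‖ ≤ ‖l‖⁻¹ * C * ‖z‖ ^ 2 * r ^ n := by
    intro n z hz
    have hw := hMT.iterate n hz
    have e1 : f^[n + 1] z - l * f^[n] z = (f^[n] z) ^ 2 * h (f^[n] z) := by
      rw [Function.iterate_succ_apply', hfh (f^[n] z)]; ring
    simp only [hF, e1, norm_mul, norm_pow, norm_inv]
    calc ‖l‖⁻¹ ^ (n + 1) * (‖f^[n] z‖ ^ 2 * ‖h (f^[n] z)‖)
        ≤ ‖l‖⁻¹ ^ (n + 1) * ((c1 ^ n * ‖z‖) ^ 2 * C) := by
          gcongr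
          · exact hit n z hz
          · exact hhb _ hw
      _ = ‖l‖⁻¹ * C * ‖z‖ ^ 2 * r ^ n := by
          rw [hr, div_pow, div_eq_mul_inv, ← inv_pow]
          ring
  have hgeo : Summable (fun n : ℕ => r ^ n) := summable_geometric_of_lt_one hr0 hr1
  have hFd : ∀ n, DifferentiableOn ℂ (F n) (ball 0 s1) := by
    intro n
    have a1 : DifferentiableOn ℂ f^[n + 1] (ball 0 s1) := hdf.iterate hMT (n + 1)
    have a2 : DifferentiableOn ℂ f^[n] (ball 0 s1) := hdf.iterate hMT n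
    exact ((a1.sub (a2.const_mul l)).const_mul _)
  have hsumz : ∀ z ∈ ball (0 : ℂ) s1, Summable (fun n => F n z) := by
    intro z hz
    refine Summable.of_norm_bounded (g := fun n : ℕ => ‖l‖⁻¹ * C * ‖z‖ ^ 2 * r ^ n) (hgeo.mul_left _) ?_
    intro n
    exact hFb n z hz
  refine ⟨s1, hs1p, hs1s, hmap, fun z => z + ∑' n, F n z, ?_, ?_, ?_⟩
  · refine differentiableOn_id.add ?_
    refine Complex.differentiableOn_tsum_of_summable_norm (u := fun n : ℕ => ‖l‖⁻¹ * C * s1 ^ 2 * r ^ n)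
      (hgeo.mul_left _) hFd isOpen_ball ?_
    intro n z hz
    have hz' : ‖z‖ < s1 := by simpa using hz
    refine (hFb n z hz).trans ?_
    gcongr
  · intro z hz
    have hs0 := hsumz z hz
    have e1 : ∀ n, F n (f z) = l * F (n + 1) z := by
      intro n
      simp only [hF, ← Function.iterate_succ_apply]
      rw [pow_succ (l⁻¹) (n + 1)]
      field_simp
    have e2 : ∑' n, F n z = F 0 z + ∑' n, F (n + 1) z := hs0.tsum_eq_zero_add
    have e3 : ∑' n, F n (f z) = l * ∑' n, F (n + 1) z := by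
      rw [← tsum_mul_left]
      exact tsum_congr e1
    have e4 : l * F 0 z = f z - l * z := by
      simp only [hF, zero_add, pow_one, Function.iterate_one, Function.iterate_zero, id]
      field_simp
    simp only
    rw [e3]
    linear_combination (-l) * e2 - e4
  · intro z hz hz0
    have hz' : ‖z‖ < s1 := by simpa using hz
    have hzp : 0 < ‖z‖ := norm_pos_iff.2 hz0
    intro hcon
    have b1 : ‖∑' n, F n z‖ ≤ K * ‖z‖ ^ 2 := by
      have hs2 : HasSum (fun n : ℕ => ‖l‖⁻¹ * C * ‖z‖ ^ 2 * r ^ n) (‖l‖⁻¹ * C * ‖z‖ ^ 2 * (1 - r)⁻¹) :=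
        (hasSum_geometric_of_lt_one hr0 hr1).mul_left _
      have := tsum_of_norm_bounded hs2 (fun n => hFb n z hz)
      refine this.trans (le_of_eq ?_)
      rw [hK]; ring
    have b2 : ∑' n, F n z = -z := by linear_combination hcon
    rw [b2, norm_neg] at b1
    have : ‖z‖ * (K * ‖z‖) < ‖z‖ * 1 := by
      refine mul_lt_mul_of_pos_left ?_ hzp
      calc K * ‖z‖ < K * s1 := by gcongr
        _ ≤ 1 := by rw [mul_comm]; exact hs1K
    nlinarith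

end Pool.Agent.H47.TA
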